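import Pool.Agent.H.MP_3adc02_co.helper68.LgtA
import Pool.Agent.H.MP_3adc02_co.Spl

/-!
# Multigraphs for lists of light vectors, and the splitting
-/

set_option linter.unusedSectionVars false

namespace Pool.Agent.Dj2

open Finset Pool.Agent.Dj

variable {V : Type} [Fintype V] [DecidableEq V]

/-- PROOF. Induction on the list with `Finset.disjSum`, `Sum.elim`. -/
theorem list_graph {K : Finset (Finset V)} (hK : Cross K) (l : List (V → ℤ))
    (hl : ∀ g ∈ l, Lt K g) :
    ∃ (κ : Type) (_ : DecidableEq κ) (I : Finset κ) (p q : κ → V),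
      (∀ v, (2 : ℤ) ∣ dg I p q v - l.sum v) ∧
        ∀ Z ∈ K, sp I p q Z ≤ ∑ v ∈ Z, l.sum v - 2 * l.length := by
  induction l with
  | nil =>
    refine ⟨Empty, inferInstance, ∅, Empty.elim, Empty.elim, fun v => ?_, fun Z _ => ?_⟩
    · simp [dg]
    · simp [sp]
  | cons g l ih =>
    obtain ⟨κ, hκ, I, p, q, h1, h2⟩ := ih fun g' hg' => hl g' (List.mem_cons_of_mem g hg')
    obtain ⟨J, h3, h4⟩ := light_pair hK (hl g List.mem_cons_self)
    refine ⟨(V × V) ⊕ κ, inferInstance, J.disjSum I, Sum.elim Prod.fst p, Sum.elim Prod.snd q,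
      fun v => ?_, fun Z hZ => ?_⟩
    · have e1 : dg (J.disjSum I) (Sum.elim Prod.fst p) (Sum.elim Prod.snd q) v =
          dg J Prod.fst Prod.snd v + dg I p q v := by
        unfold dg
        rw [Finset.sum_disjSum]
        simp only [Sum.elim_inl, Sum.elim_inr]
      have e2 : (g :: l).sum v = g v + l.sum v := by
        rw [List.sum_cons]
        rfl
      rw [e1, e2]
      have e3 := dvd_add (h3 v) (h1 v)
      have e4 : dg J Prod.fst Prod.snd v - g v + (dg I p q v - l.sum v) =
          dg J Prod.fst Prod.snd v + dg I p q v - (g v + l.sum v) := by ring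
      rwa [e4] at e3
    · have e1 : sp (J.disjSum I) (Sum.elim Prod.fst p) (Sum.elim Prod.snd q) Z =
          sp J Prod.fst Prod.snd Z + sp I p q Z := by
        unfold sp
        rw [Finset.sum_disjSum]
        simp only [Sum.elim_inl, Sum.elim_inr]
      have e2 : ∑ v ∈ Z, (g :: l).sum v = ∑ v ∈ Z, g v + ∑ v ∈ Z, l.sum v := by
        rw [← Finset.sum_add_distrib]
        refine Finset.sum_congr rfl fun v _ => ?_
        rw [List.sum_cons]
        rfl
      rw [e1, e2, List.length_cons]
      have e3 := h4 Z hZ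
      have e4 := h2 Z hZ
      push_cast
      linarith

/-- PROOF. As `Dj.split`, with a general index type instead of `Fin r` (only the parity of the degrees
is used). -/
theorem split_gen {m : ℕ} (tail head : Fin m → V) (J : Finset (Fin m)) (k : ℕ)
    (K : Finset (Finset V)) (hK : ∀ X ∈ K, ∀ e, head e ∈ X → tail e ∈ X)
    {κ : Type} [DecidableEq κ] (I : Finset κ) (p q : κ → V)
    (h1 : ∀ v, (2 : ℤ) ∣ dg I p q v - nt tail head J v)
    (hsK : ∀ X ∈ K, sp I p q X ≤ (ct tail head J X : ℤ) - 2 * k) :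
    ∃ J₁ : Finset (Fin m), J₁ ⊆ J ∧ ∀ X ∈ K, k ≤ ct tail head J₁ X ∧
      k ≤ ct tail head (J \ J₁) X := by
  classical
  have hev : ∀ v, (2 : ℤ) ∣ dg (J.disjSum I) (Sum.elim tail p) (Sum.elim head q) v := by
    intro v
    unfold dg
    rw [Finset.sum_disjSum]
    simp only [Sum.elim_inl, Sum.elim_inr]
    have h4 := h1 v
    unfold dg nt at h4
    have h5 : (2 : ℤ) ∣ ∑ e ∈ J, (ind {v} (tail e) + ind {v} (head e))
        + ∑ e ∈ J, (ind {v} (tail e) - ind {v} (head e)) := by
      rw [← Finset.sum_add_distrib]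
      refine Finset.dvd_sum fun e _ => ⟨ind {v} (tail e), by ring⟩
    have h6 := dvd_add h4 h5
    have h7 : ∑ i ∈ I, (ind {v} (p i) + ind {v} (q i))
        - ∑ e ∈ J, (ind {v} (tail e) - ind {v} (head e))
        + (∑ e ∈ J, (ind {v} (tail e) + ind {v} (head e))
        + ∑ e ∈ J, (ind {v} (tail e) - ind {v} (head e)))
        = ∑ e ∈ J, (ind {v} (tail e) + ind {v} (head e))
        + ∑ i ∈ I, (ind {v} (p i) + ind {v} (q i)) := by ring
    rwa [h7] at h6
  obtain ⟨ε, hε, hsum⟩ := euler (J.disjSum I) (Sum.elim tail p) (Sum.elim head q) hev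
  refine ⟨J.filter fun e => ε (Sum.inl e) = 1, Finset.filter_subset _ _, fun X hX => ?_⟩
  set J₁ := J.filter fun e => ε (Sum.inl e) = 1 with hJ₁
  have hX' := hK X hX
  -- summing over X
  have hS : ∑ e ∈ J, ε (Sum.inl e) * (ind X (tail e) - ind X (head e))
      + ∑ i ∈ I, ε (Sum.inr i) * (ind X (p i) - ind X (q i)) = 0 := by
    have h4 : ∑ v ∈ X, ∑ i ∈ J.disjSum I, ε i * (ind {v} (Sum.elim tail p i)
        - ind {v} (Sum.elim head q i)) = 0 := Finset.sum_eq_zero fun v _ => hsum v
    rw [Finset.sum_comm, Finset.sum_disjSum] at h4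
    simp only [Sum.elim_inl, Sum.elim_inr] at h4
    rw [← h4]
    congr 1
    · refine Finset.sum_congr rfl fun e _ => ?_
      rw [← Finset.mul_sum, Finset.sum_sub_distrib, sum_ind_singleton, sum_ind_singleton]
    · refine Finset.sum_congr rfl fun e _ => ?_
      rw [← Finset.mul_sum, Finset.sum_sub_distrib, sum_ind_singleton, sum_ind_singleton]
  have hsub : J₁ ⊆ J := Finset.filter_subset _ _
  have hadd : (ct tail head J₁ X : ℤ) + ct tail head (J \ J₁) X = ct tail head J X := by
    rw [← Spl_ind tail head J₁ X hX', ← Spl_ind tail head (J \ J₁) X hX',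
      ← Spl_ind tail head J X hX', add_comm]
    exact Finset.sum_sdiff hsub
  have hdif : ∑ e ∈ J, ε (Sum.inl e) * (ind X (tail e) - ind X (head e))
      = (ct tail head J₁ X : ℤ) - ct tail head (J \ J₁) X := by
    rw [← Spl_ind tail head J₁ X hX', ← Spl_ind tail head (J \ J₁) X hX',
      ← Finset.sum_sdiff hsub]
    have ha : ∑ e ∈ J \ J₁, ε (Sum.inl e) * (ind X (tail e) - ind X (head e))
        = - ∑ e ∈ J \ J₁, (ind X (tail e) - ind X (head e)) := by
      rw [← Finset.sum_neg_distrib]
      refine Finset.sum_congr rfl fun e he => ?_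
      rw [Finset.mem_sdiff, hJ₁, Finset.mem_filter] at he
      have : ε (Sum.inl e) = -1 := by
        rcases hε (Sum.inl e) with h | h
        · exact absurd ⟨he.1, h⟩ he.2
        · exact h
      rw [this]; ring
    have hb : ∑ e ∈ J₁, ε (Sum.inl e) * (ind X (tail e) - ind X (head e))
        = ∑ e ∈ J₁, (ind X (tail e) - ind X (head e)) := by
      refine Finset.sum_congr rfl fun e he => ?_
      rw [hJ₁, Finset.mem_filter] at he
      rw [he.2]; ring
    rw [ha, hb]; ring
  have habs : |∑ i ∈ I, ε (Sum.inr i) * (ind X (p i) - ind X (q i))| ≤ sp I p q X := by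
    unfold sp
    refine (Finset.abs_sum_le_sum_abs _ _).trans (Finset.sum_le_sum fun i _ => ?_)
    rw [abs_mul]
    have : |ε (Sum.inr i)| = 1 := by
      rcases hε (Sum.inr i) with h | h
      · rw [h]; simp
      · rw [h]; simp
    rw [this, one_mul]
  have hfin := hsK X hX
  rw [hdif] at hS
  rw [abs_le] at habs
  obtain ⟨ha, hb⟩ := habs
  constructor
  · have : (k : ℤ) ≤ ct tail head J₁ X := by linarith
    exact_mod_cast this
  · have : (k : ℤ) ≤ ct tail head (J \ J₁) X := by linarith
    exact_mod_cast this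

end Pool.Agent.Dj2
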