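import Pool.Agent.H.MP_3adc02_co.helper68.Rk

/-!
# Counting odd points
-/

set_option linter.unusedSectionVars false

namespace Pool.Agent.Dj2

open Finset Pool.Agent.Dj

variable {V : Type} [Fintype V] [DecidableEq V]

private theorem Cnt_fib (T : Finset (Finset V)) (J : Finset V) (v : V) :
    J.filter (fun u => cl T u = cl T v) = cl T v ∩ J := by
  ext u
  rw [mem_filter, mem_inter, cl_eq_iff, mem_cl, and_comm]

private theorem Cnt_sum (T : Finset (Finset V)) (J : Finset V) :
    J.card = ∑ c ∈ J.image (cl T), (J.filter fun u => cl T u = c).card :=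
  Finset.card_eq_sum_card_image (cl T) J

private theorem Cnt_two (T : Finset (Finset V)) (J : Finset V) (h : ∀ v, 2 ∣ (cl T v ∩ J).card) :
    ∀ c ∈ J.image (cl T), 2 ≤ (J.filter fun u => cl T u = c).card := by
  intro c hc
  obtain ⟨v, hv, rfl⟩ := mem_image.1 hc
  rw [Cnt_fib]
  have h1 : 0 < (cl T v ∩ J).card := card_pos.2 ⟨v, mem_inter.2 ⟨self_mem_cl T v, hv⟩⟩
  have h2 := h v
  omega

private theorem Cnt_mem (T : Finset (Finset V)) (J : Finset V) (v : V)
    (h : 0 < (cl T v ∩ J).card) : cl T v ∈ J.image (cl T) := by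
  obtain ⟨u, hu⟩ := card_pos.1 h
  obtain ⟨h1, h2⟩ := mem_inter.1 hu
  exact mem_image.2 ⟨u, h2, cl_eq_of_sm (mem_cl.1 h1)⟩

/-- PROOF. `Finset.card_eq_sum_card_image (cl T) J`; the fibre over `cl T v`, `v ∈ J`, is
`cl T v ∩ J`, nonempty and of even cardinality, so at least `2`. -/
theorem exc0 (T : Finset (Finset V)) (J : Finset V) (h : ∀ v, 2 ∣ (cl T v ∩ J).card) :
    2 * (J.image (cl T)).card ≤ J.card := by
  have h1 := Finset.card_nsmul_le_sum (J.image (cl T))
    (fun c => (J.filter fun u => cl T u = c).card) 2 (Cnt_two T J h)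
  rw [← Cnt_sum, smul_eq_mul] at h1
  omega

/-- PROOF. The same, the fibre over `cl T v` has at least `m` elements. -/
theorem exc1 (T : Finset (Finset V)) (J : Finset V) (h : ∀ v, 2 ∣ (cl T v ∩ J).card) (v : V)
    (m : ℕ) (h0 : 0 < m) (hm : m ≤ (cl T v ∩ J).card) :
    2 * (J.image (cl T)).card + m ≤ J.card + 2 := by
  have hv := Cnt_mem T J v (lt_of_lt_of_le h0 hm)
  have h1 := Finset.card_nsmul_le_sum ((J.image (cl T)).erase (cl T v))
    (fun c => (J.filter fun u => cl T u = c).card) 2
    (fun c hc => Cnt_two T J h c (mem_of_mem_erase hc))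
  have h2 := Finset.add_sum_erase (J.image (cl T))
    (fun c => (J.filter fun u => cl T u = c).card) hv
  have h3 : (J.filter fun u => cl T u = cl T v).card = (cl T v ∩ J).card := by rw [Cnt_fib]
  have h4 := Finset.card_erase_add_one hv
  have h5 := Cnt_sum T J
  rw [smul_eq_mul] at h1
  omega

/-- PROOF. The same with two fibres. -/
theorem exc2 (T : Finset (Finset V)) (J : Finset V) (h : ∀ v, 2 ∣ (cl T v ∩ J).card) (u v : V)
    (huv : ¬ Sm T u v) (m m' : ℕ) (h0 : 0 < m) (h0' : 0 < m') (hm : m ≤ (cl T u ∩ J).card)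
    (hm' : m' ≤ (cl T v ∩ J).card) :
    2 * (J.image (cl T)).card + m + m' ≤ J.card + 4 := by
  have hu := Cnt_mem T J u (lt_of_lt_of_le h0 hm)
  have hv : cl T v ∈ (J.image (cl T)).erase (cl T u) := by
    refine mem_erase.2 ⟨fun hh => huv ?_, Cnt_mem T J v (lt_of_lt_of_le h0' hm')⟩
    exact cl_eq_iff.1 hh.symm
  have h1 := Finset.card_nsmul_le_sum (((J.image (cl T)).erase (cl T u)).erase (cl T v))
    (fun c => (J.filter fun u => cl T u = c).card) 2
    (fun c hc => Cnt_two T J h c (mem_of_mem_erase (mem_of_mem_erase hc)))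
  have h2 := Finset.add_sum_erase (J.image (cl T))
    (fun c => (J.filter fun u => cl T u = c).card) hu
  have h2' := Finset.add_sum_erase ((J.image (cl T)).erase (cl T u))
    (fun c => (J.filter fun u => cl T u = c).card) hv
  have h3 : (J.filter fun w => cl T w = cl T u).card = (cl T u ∩ J).card := by rw [Cnt_fib]
  have h3' : (J.filter fun w => cl T w = cl T v).card = (cl T v ∩ J).card := by rw [Cnt_fib]
  have h4 := Finset.card_erase_add_one hu
  have h4' := Finset.card_erase_add_one hv
  have h5 := Cnt_sum T J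
  rw [smul_eq_mul] at h1
  omega

theorem card_symm (A B : Finset V) :
    A.card + B.card = (symmDiff A B).card + 2 * (A ∩ B).card := by
  have h1 : (symmDiff A B).card = (A \ B).card + (B \ A).card := by
    rw [symmDiff_def, Finset.sup_eq_union, card_union_of_disjoint]
    exact disjoint_sdiff_sdiff
  have h2 := Finset.card_sdiff_add_card_inter A B
  have h3 := Finset.card_sdiff_add_card_inter B A
  rw [inter_comm B A] at h3
  omega

/-- PROOF. If `A ∩ B` is nonempty, `|A ∩ B| + 1 ≤ |(A ∩ B).image (cl S)| + |(A ∩ B).image (cl T)|`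
(`rk_cl`) and the images are contained in `A.image (cl S)` and `B.image (cl T)`; use `card_symm`.
If `A ∩ B` is empty, one of the images is nonempty. -/
theorem exc_le {S T : Finset (Finset V)} (hS : Cross S) (hT : Cross T) {A B : Finset V}
    (hAB : (A ∪ B).Nonempty) (h : ∀ e, Ke S T e → (∀ v, v ∉ A ∩ B → e v = 0) → e = 0) :
    A.card + B.card + 2 ≤ (symmDiff A B).card + 2 * (A.image (cl S)).card +
      2 * (B.image (cl T)).card := by
  have h1 := card_symm A B
  rcases (A ∩ B).eq_empty_or_nonempty with h2 | h2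
  · rw [h2, card_empty] at h1
    obtain ⟨v, hv⟩ := hAB
    rcases mem_union.1 hv with h3 | h3
    · have h4 : 0 < (A.image (cl S)).card := card_pos.2 ⟨_, mem_image_of_mem (cl S) h3⟩
      omega
    · have h4 : 0 < (B.image (cl T)).card := card_pos.2 ⟨_, mem_image_of_mem (cl T) h3⟩
      omega
  · have h3 := rk_cl hS hT h2 h
    have h4 := card_le_card (image_subset_image (f := cl S) (inter_subset_left (s₁ := A) (s₂ := B)))
    have h5 := card_le_card (image_subset_image (f := cl T) (inter_subset_right (s₁ := A) (s₂ := B)))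
    omega

end Pool.Agent.Dj2
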