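import Pool.Agent.H.MP_3adc02_co.helper68.Rk

/-!
# Cycles in the kernel
-/

set_option linter.unusedSectionVars false

namespace Pool.Agent.Dj2

open Finset Pool.Agent.Dj

variable {V : Type} [Fintype V] [DecidableEq V]

/-- all fibres have at least two points -/
theorem Cyc_fib {β : Type} [DecidableEq β] (f : V → β) (C : Finset V)
    (h : ∀ v ∈ C, 2 ≤ (C.filter fun u => f u = f v).card) : 2 * (C.image f).card ≤ C.card := by
  rw [Finset.card_eq_sum_card_image f C, mul_comm, ← smul_eq_mul, ← Finset.sum_const]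
  refine Finset.sum_le_sum fun b hb => ?_
  obtain ⟨v, hv, rfl⟩ := mem_image.1 hb
  exact h v hv

/-- equality in `Cyc_fib` -/
theorem Cyc_fib_eq {β : Type} [DecidableEq β] (f : V → β) (C : Finset V)
    (h : ∀ v ∈ C, 2 ≤ (C.filter fun u => f u = f v).card) (h2 : C.card ≤ 2 * (C.image f).card)
    {v : V} (hv : v ∈ C) : (C.filter fun u => f u = f v).card = 2 := by
  have e1 : ∑ b ∈ C.image f, 2 = ∑ b ∈ C.image f, (C.filter fun u => f u = b).card := by
    refine le_antisymm ?_ ?_
    · refine Finset.sum_le_sum fun b hb => ?_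
      obtain ⟨w, hw, rfl⟩ := mem_image.1 hb
      exact h w hw
    · rw [← Finset.card_eq_sum_card_image f C, Finset.sum_const, smul_eq_mul, mul_comm]
      exact h2
  have e2 := (Finset.sum_eq_sum_iff_of_le (fun b hb => by
    obtain ⟨w, hw, rfl⟩ := mem_image.1 hb
    exact h w hw)).1 e1 (f v) (mem_image_of_mem f hv)
  exact e2.symm

/-- two nonzero points in each class met -/
theorem Cyc_two {S : Finset (Finset V)} {δ : V → ℝ} (h : ∀ v, ∑ u ∈ cl S v, δ u = 0) {v : V}
    (hv : δ v ≠ 0) : 2 ≤ ((univ.filter fun u => δ u ≠ 0).filter fun u => cl S u = cl S v).card := by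
  by_contra hcon
  have h1 : v ∈ (univ.filter fun u => δ u ≠ 0).filter fun u => cl S u = cl S v :=
    mem_filter.2 ⟨mem_filter.2 ⟨mem_univ _, hv⟩, rfl⟩
  have h2 : ((univ.filter fun u => δ u ≠ 0).filter fun u => cl S u = cl S v).card ≤ 1 := by omega
  have h3 : ∑ u ∈ cl S v, δ u = δ v := by
    refine Finset.sum_eq_single_of_mem v (self_mem_cl S v) fun u hu huv => ?_
    by_contra hne
    exact huv (Finset.card_le_one.1 h2 u
      (mem_filter.2 ⟨mem_filter.2 ⟨mem_univ _, hne⟩, cl_eq_of_sm (mem_cl.1 hu)⟩) v h1)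
  exact hv (h3 ▸ h v)

/-- exactly two nonzero points: the values are opposite -/
theorem Cyc_opp {S : Finset (Finset V)} {δ : V → ℝ} (h : ∀ v, ∑ u ∈ cl S v, δ u = 0) {v : V}
    (h2 : ((univ.filter fun u => δ u ≠ 0).filter fun u => cl S u = cl S v).card = 2) :
    ∃ a b : V, a ≠ b ∧ δ a = - δ b ∧ a ∈ cl S v ∧ b ∈ cl S v ∧
      ∀ u ∈ cl S v, u ≠ a → u ≠ b → δ u = 0 := by
  obtain ⟨a, b, hab, he⟩ := Finset.card_eq_two.1 h2
  have hm : ∀ u, u ∈ cl S v → δ u ≠ 0 → u = a ∨ u = b := by
    intro u hu hd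
    have : u ∈ (univ.filter fun u => δ u ≠ 0).filter fun u => cl S u = cl S v :=
      mem_filter.2 ⟨mem_filter.2 ⟨mem_univ _, hd⟩, cl_eq_of_sm (mem_cl.1 hu)⟩
    rw [he, mem_insert, mem_singleton] at this
    exact this
  have ha : a ∈ (univ.filter fun u => δ u ≠ 0).filter fun u => cl S u = cl S v := by
    rw [he]
    exact mem_insert_self _ _
  have hb : b ∈ (univ.filter fun u => δ u ≠ 0).filter fun u => cl S u = cl S v := by
    rw [he]
    exact mem_insert_of_mem (mem_singleton_self _)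
  have ha' : a ∈ cl S v := mem_cl.2 (cl_eq_iff.1 (mem_filter.1 ha).2)
  have hb' : b ∈ cl S v := mem_cl.2 (cl_eq_iff.1 (mem_filter.1 hb).2)
  have hz : ∀ u ∈ cl S v, u ≠ a → u ≠ b → δ u = 0 := by
    intro u hu h3 h4
    by_contra hne
    rcases hm u hu hne with h5 | h5
    · exact h3 h5
    · exact h4 h5
  refine ⟨a, b, hab, ?_, ha', hb', hz⟩
  have hs : ∑ u ∈ cl S v, δ u = δ a + δ b := by
    rw [← Finset.sum_pair hab]
    symm
    refine Finset.sum_subset ?_ fun u hu hn => ?_
    · intro u hu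
      rw [mem_insert, mem_singleton] at hu
      rcases hu with rfl | rfl
      · exact ha'
      · exact hb'
    · rw [mem_insert, mem_singleton, not_or] at hn
      exact hz u hu hn.1 hn.2
  have := h v
  rw [hs] at this
  linarith

/-- PROOF. Let `C` be the support of `δ`. Every class of `S` or `T` meeting `C` meets it in at least
two points (class sums zero). For `v0 ∈ C` the set `W = C.erase v0` carries no nonzero kernel
vector, so `|C| ≤ |C.image (cl S)| + |C.image (cl T)|` by `rk_cl`, and both numbers are at most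
`|C| / 2`; so every class meeting `C` meets it in exactly two points, `u` and `v` with
`δ u = - δ v`. The restriction of `δ` to `{v | |δ v| = |δ v0|}` has class sums zero, so it is a
multiple of `δ`, and `|δ|` is constant `r` on `C`. -/
theorem cyc {S T : Finset (Finset V)} (hS : Cross S) (hT : Cross T) {δ : V → ℝ}
    (hδ : Ke S T δ) (h0 : δ ≠ 0)
    (hu : ∀ e, Ke S T e → (∀ v, δ v = 0 → e v = 0) → ∃ s : ℝ, e = s • δ) :
    ∃ (r : ℝ) (d : V → ℤ), 0 < r ∧ (∀ v, δ v = r * d v) ∧ Cy S T d := by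
  classical
  obtain ⟨hsS, hsT⟩ := (ke_iff hS hT δ).1 hδ
  obtain ⟨v0, hv0⟩ : ∃ v, δ v ≠ 0 := by
    by_contra hcon
    push Not at hcon
    exact h0 (funext hcon)
  set C : Finset V := univ.filter fun u => δ u ≠ 0 with hC
  have hmC : ∀ v, v ∈ C ↔ δ v ≠ 0 := fun v => by
    rw [hC, mem_filter]
    exact ⟨And.right, fun h => ⟨mem_univ _, h⟩⟩
  have h2S : ∀ v ∈ C, 2 ≤ (C.filter fun u => cl S u = cl S v).card := fun v hv =>
    Cyc_two hsS ((hmC v).1 hv)
  have h2T : ∀ v ∈ C, 2 ≤ (C.filter fun u => cl T u = cl T v).card := fun v hv =>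
    Cyc_two hsT ((hmC v).1 hv)
  have hv0C : v0 ∈ C := (hmC v0).2 hv0
  have hCc : 2 ≤ C.card := (h2S v0 hv0C).trans (card_le_card (filter_subset _ _))
  have hcard : C.card ≤ (C.image (cl S)).card + (C.image (cl T)).card := by
    have hW : (C.erase v0).Nonempty := by
      rw [← Finset.card_pos, Finset.card_erase_of_mem hv0C]
      omega
    have e1 := rk_cl hS hT hW (fun e he hz => by
      obtain ⟨s, rfl⟩ := hu e he (fun v hv => hz v fun hv' =>
        (hmC v).1 (mem_of_mem_erase hv') hv)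
      have e2 := hz v0 (fun h => (notMem_erase v0 C) h)
      rw [Pi.smul_apply, smul_eq_mul] at e2
      rcases mul_eq_zero.1 e2 with e3 | e3
      · rw [e3, zero_smul]
      · exact absurd e3 hv0)
    rw [Finset.card_erase_of_mem hv0C] at e1
    have e3 := card_le_card (image_subset_image (f := cl S) (erase_subset v0 C))
    have e4 := card_le_card (image_subset_image (f := cl T) (erase_subset v0 C))
    omega
  have hfS := Cyc_fib (cl S) C h2S
  have hfT := Cyc_fib (cl T) C h2T
  have heS : ∀ v ∈ C, (C.filter fun u => cl S u = cl S v).card = 2 := fun v hv =>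
    Cyc_fib_eq (cl S) C h2S (by omega) hv
  have heT : ∀ v ∈ C, (C.filter fun u => cl T u = cl T v).card = 2 := fun v hv =>
    Cyc_fib_eq (cl T) C h2T (by omega) hv
  -- the restriction
  have hres : ∀ (U : Finset (Finset V)), (∀ v, ∑ u ∈ cl U v, δ u = 0) →
      (∀ v ∈ C, (C.filter fun u => cl U u = cl U v).card = 2) →
      ∀ v, ∑ u ∈ cl U v, (if |δ u| = |δ v0| then δ u else 0) = 0 := by
    intro U hU hU2 v
    by_cases hex : ∃ w ∈ cl U v, δ w ≠ 0
    · obtain ⟨w, hw, hwd⟩ := hex
      have hcl : cl U w = cl U v := cl_eq_of_sm (mem_cl.1 hw)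
      obtain ⟨a, b, hab, h1, ha, hb, hz⟩ := Cyc_opp hU (hU2 w ((hmC w).2 hwd))
      rw [hcl] at ha hb hz
      have hs : ∑ u ∈ cl U v, (if |δ u| = |δ v0| then δ u else 0) =
          (if |δ a| = |δ v0| then δ a else 0) + (if |δ b| = |δ v0| then δ b else 0) := by
        rw [← Finset.sum_pair (f := fun u => if |δ u| = |δ v0| then δ u else 0) hab]
        symm
        refine Finset.sum_subset ?_ fun u hu hn => ?_
        · intro u hu
          rw [mem_insert, mem_singleton] at hu
          rcases hu with rfl | rfl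
          · exact ha
          · exact hb
        · rw [mem_insert, mem_singleton, not_or] at hn
          rw [hz u hu hn.1 hn.2, ite_self]
      rw [hs, h1, abs_neg]
      split_ifs
      · ring
      · ring
    · push Not at hex
      exact Finset.sum_eq_zero fun u hu => by rw [hex u hu, ite_self]
  have hke : Ke S T (fun u => if |δ u| = |δ v0| then δ u else 0) :=
    (ke_iff hS hT _).2 ⟨hres S hsS heS, hres T hsT heT⟩
  obtain ⟨s, hs⟩ := hu _ hke (fun v hv => by
    rw [hv, ite_self])
  have hs1 : s = 1 := by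
    have e1 := congrFun hs v0
    change (if |δ v0| = |δ v0| then δ v0 else 0) = s * δ v0 at e1
    rw [if_pos rfl] at e1
    have e2 : (s - 1) * δ v0 = 0 := by linarith
    rcases mul_eq_zero.1 e2 with e3 | e3
    · linarith
    · exact absurd e3 hv0
  have habs : ∀ v, δ v ≠ 0 → |δ v| = |δ v0| := by
    intro v hv
    by_contra hne
    have e1 := congrFun hs v
    change (if |δ v| = |δ v0| then δ v else 0) = s * δ v at e1
    rw [if_neg hne, hs1, one_mul] at e1
    exact hv e1.symm
  have hr : 0 < |δ v0| := abs_pos.2 hv0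
  have hd : ∀ v, δ v = |δ v0| *
      ((if δ v = 0 then 0 else if 0 < δ v then 1 else -1 : ℤ) : ℝ) := by
    intro v
    by_cases h1 : δ v = 0
    · rw [if_pos h1, h1, Int.cast_zero, mul_zero]
    · rw [if_neg h1, ← habs v h1]
      by_cases h2 : 0 < δ v
      · rw [if_pos h2, Int.cast_one, mul_one, abs_of_pos h2]
      · rw [if_neg h2, abs_of_nonpos (not_lt.1 h2), Int.cast_neg, Int.cast_one]
        ring
  have hd0 : ∀ v, (if δ v = 0 then 0 else if 0 < δ v then 1 else -1 : ℤ) ≠ 0 ↔ δ v ≠ 0 := by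
    intro v
    by_cases h1 : δ v = 0
    · rw [if_pos h1]
      exact ⟨fun h => absurd rfl h, fun h => absurd h1 h⟩
    · rw [if_neg h1]
      refine ⟨fun _ => h1, fun _ => ?_⟩
      split_ifs <;> decide
  have hsum : ∀ (U : Finset (Finset V)), (∀ v, ∑ u ∈ cl U v, δ u = 0) →
      ∀ v, ∑ u ∈ cl U v, (if δ u = 0 then 0 else if 0 < δ u then 1 else -1 : ℤ) = 0 := by
    intro U hU v
    have e1 := hU v
    rw [Finset.sum_congr rfl fun u _ => hd u, ← Finset.mul_sum] at e1
    rcases mul_eq_zero.1 e1 with e2 | e2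
    · exact absurd e2 hr.ne'
    · exact_mod_cast e2
  have hcc : ∀ (U : Finset (Finset V)),
      (∀ v ∈ C, (C.filter fun u => cl U u = cl U v).card = 2) →
      ∀ v, δ v ≠ 0 → ((cl U v).filter fun u =>
        (if δ u = 0 then 0 else if 0 < δ u then 1 else -1 : ℤ) ≠ 0).card = 2 := by
    intro U hU v hv
    rw [← hU v ((hmC v).2 hv)]
    congr 1
    ext u
    rw [mem_filter, mem_filter, hmC, hd0, mem_cl, cl_eq_iff]
    exact and_comm
  refine ⟨|δ v0|, fun v => if δ v = 0 then 0 else if 0 < δ v then 1 else -1, hr, hd,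
    ⟨⟨v0, (hd0 v0).2 hv0⟩, ?_, hsum S hsS, hsum T hsT, ?_, ?_⟩⟩
  · intro v
    by_cases h1 : δ v = 0
    · exact Or.inl (if_pos h1)
    · by_cases h2 : 0 < δ v
      · refine Or.inr (Or.inl ?_)
        rw [if_neg h1, if_pos h2]
      · refine Or.inr (Or.inr ?_)
        rw [if_neg h1, if_neg h2]
  · intro v hv
    exact hcc S heS v ((hd0 v).1 hv)
  · intro v hv
    exact hcc T heT v ((hd0 v).1 hv)

/-- PROOF. Among the nonzero kernel vectors supported in `W` take one, `δ`, with minimal support.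
A kernel vector `e` supported in the support of `δ` is a multiple of `δ`: `e - (e v0 / δ v0) • δ`
has smaller support. Then `cyc`. -/
theorem cyc_exists {S T : Finset (Finset V)} (hS : Cross S) (hT : Cross T) {W : Finset V}
    {e : V → ℝ} (he : Ke S T e) (h0 : e ≠ 0) (hW : ∀ v, v ∉ W → e v = 0) :
    ∃ d : V → ℤ, Cy S T d ∧ ∀ v, v ∉ W → d v = 0 := by
  classical
  induction' hn : (univ.filter fun v => e v ≠ 0).card using Nat.strong_induction_on with n ih
    generalizing e
  by_cases hall : ∀ e' : V → ℝ, Ke S T e' → (∀ v, e v = 0 → e' v = 0) → ∃ s : ℝ, e' = s • e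
  · obtain ⟨r, d, hr, hd, hcy⟩ := cyc hS hT he h0 hall
    refine ⟨d, hcy, fun v hv => ?_⟩
    have e1 := hd v
    rw [hW v hv] at e1
    rcases mul_eq_zero.1 e1.symm with e2 | e2
    · exact absurd e2 hr.ne'
    · exact_mod_cast e2
  · push Not at hall
    obtain ⟨e', hke', hsup, hnot⟩ := hall
    obtain ⟨v0, hv0⟩ : ∃ v, e v ≠ 0 := by
      by_contra hcon
      push Not at hcon
      exact h0 (funext hcon)
    have hne : e' - (e' v0 / e v0) • e ≠ 0 := fun h => hnot (e' v0 / e v0) (sub_eq_zero.1 h)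
    have hz : ∀ v, e v = 0 → (e' - (e' v0 / e v0) • e) v = 0 := by
      intro v hv
      rw [Pi.sub_apply, Pi.smul_apply, smul_eq_mul, hv, mul_zero, hsup v hv, sub_zero]
    have hz0 : (e' - (e' v0 / e v0) • e) v0 = 0 := by
      rw [Pi.sub_apply, Pi.smul_apply, smul_eq_mul, div_mul_cancel₀ _ hv0, sub_self]
    have hke : Ke S T (e' - (e' v0 / e v0) • e) := by
      obtain ⟨a1, a2⟩ := (ke_iff hS hT e').1 hke'
      obtain ⟨b1, b2⟩ := (ke_iff hS hT e).1 he
      refine (ke_iff hS hT _).2 ⟨fun v => ?_, fun v => ?_⟩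
      · simp only [Pi.sub_apply, Pi.smul_apply, smul_eq_mul]
        rw [Finset.sum_sub_distrib, ← Finset.mul_sum, a1 v, b1 v, mul_zero, sub_zero]
      · simp only [Pi.sub_apply, Pi.smul_apply, smul_eq_mul]
        rw [Finset.sum_sub_distrib, ← Finset.mul_sum, a2 v, b2 v, mul_zero, sub_zero]
    refine ih _ ?_ hke hne (fun v hv => hz v (hW v hv)) rfl
    rw [← hn]
    apply Finset.card_lt_card
    refine ⟨fun v hv => ?_, fun hsub => ?_⟩
    · rw [mem_filter] at hv ⊢
      exact ⟨mem_univ _, fun h => hv.2 (hz v h)⟩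
    · have := hsub (mem_filter.2 ⟨mem_univ v0, hv0⟩)
      exact (mem_filter.1 this).2 hz0

/-- PROOF. The class contains no or two points with `d ≠ 0`, the values are then `1` and `-1`. -/
theorem Cy.abs_le {S T : Finset (Finset V)} {d : V → ℤ} (h : Cy S T d) (v : V) (Z : Finset V) :
    |∑ u ∈ Z ∩ cl S v, d u| ≤ 1 := by
  classical
  have hA : ∀ A : Finset V, |∑ u ∈ A, d u| ≤ ((A.filter fun u => d u ≠ 0).card : ℤ) := by
    intro A
    refine (Finset.abs_sum_le_sum_abs _ _).trans ?_
    rw [Finset.card_filter, Nat.cast_sum]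
    refine Finset.sum_le_sum fun u _ => ?_
    rcases h.val u with h1 | h1 | h1 <;> rw [h1] <;> simp
  by_cases hex : ∃ w ∈ cl S v, d w ≠ 0
  · obtain ⟨w, hw, hwd⟩ := hex
    have hcl : cl S w = cl S v := cl_eq_of_sm (mem_cl.1 hw)
    have h2 := h.cS w hwd
    rw [hcl] at h2
    have hs := h.sS v
    have e1 : ∑ u ∈ Z ∩ cl S v, d u + ∑ u ∈ cl S v \ Z, d u = 0 := by
      rw [← hs, Finset.inter_comm, ← Finset.sum_union (Finset.disjoint_left.2 fun u hu hu' =>
        (mem_sdiff.1 hu').2 (mem_inter.1 hu).2)]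
      congr 1
      ext u
      rw [mem_union, mem_inter, mem_sdiff]
      tauto
    have e2 := hA (Z ∩ cl S v)
    have e3 := hA (cl S v \ Z)
    have e4 : ((Z ∩ cl S v).filter fun u => d u ≠ 0).card +
        ((cl S v \ Z).filter fun u => d u ≠ 0).card = 2 := by
      rw [← h2, ← Finset.card_union_of_disjoint]
      · congr 1
        ext u
        rw [mem_union, mem_filter, mem_filter, mem_filter, mem_inter, mem_sdiff]
        tauto
      · rw [Finset.disjoint_left]
        intro u hu hu'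
        exact (mem_sdiff.1 (mem_filter.1 hu').1).2 (mem_inter.1 (mem_filter.1 hu).1).1
    have e5 : |∑ u ∈ cl S v \ Z, d u| = |∑ u ∈ Z ∩ cl S v, d u| := by
      rw [← abs_neg (∑ u ∈ Z ∩ cl S v, d u)]
      congr 1
      linarith
    rw [e5] at e3
    have e6 : (((Z ∩ cl S v).filter fun u => d u ≠ 0).card : ℤ) +
        (((cl S v \ Z).filter fun u => d u ≠ 0).card : ℤ) = 2 := by exact_mod_cast e4
    linarith
  · push Not at hex
    rw [Finset.sum_eq_zero fun u hu => hex u (mem_inter.1 hu).2]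
    simp

end Pool.Agent.Dj2
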