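import Pool.Agent.H.MP_3adc02_co.helper68.Dk
import Pool.Agent.H.MP_3adc02_co.helper68.Cnt
import Pool.Agent.H.MP_3adc02_co.helper68.Cyc

/-!
# One more layer
-/

set_option linter.unusedSectionVars false

namespace Pool.Agent.Dj2

open Finset Pool.Agent.Dj

variable {V : Type} [Fintype V] [DecidableEq V]

/-- PROOF. Let `Tz = Tg K (n + n') z`, `c = cl Tz v`, `S = Tg K n q`, `T = Tg K n' (z - q)`,
`A = od q ∩ c`, `B = od (z - q) ∩ c`, `M = |cl T v ∩ B|`. If `M = 0` fine (`cl T v ⊆ c`). Otherwise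
`exc_le` (the hypothesis `h`), `exc0` for `A`, `exc1` for `B` and `v` give
`M ≤ |symmDiff A B| = |c ∩ od z| ≤ 2 m`. -/
theorem cnt_b {K : Finset (Finset V)} (hK : Cross K) {n n' : ℤ} (hn : 2 ∣ n) (hn' : 2 ∣ n')
    {z q : V → ℤ} (hq : St K n n' z q) {m : ℕ}
    (hz : ∀ v, (cl (Tg K (n + n') z) v ∩ od z).card ≤ 2 * m)
    (h : ∀ e, Ke (Tg K n q) (Tg K n' (z - q)) e → (∀ v, v ∉ od q ∩ od (z - q) → e v = 0) → e = 0)
    (v : V) : (cl (Tg K n' (z - q)) v ∩ od (z - q)).card ≤ 2 * m := by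
  set c := cl (Tg K (n + n') z) v with hc0
  have hc : Sat (Tg K (n + n') z) c := sat_cl _ _
  have hvc : v ∈ c := self_mem_cl _ _
  have hS : Cross (Tg K n q) := cross_tg hK hq.1
  have hT : Cross (Tg K n' (z - q)) := cross_tg hK hq.2
  have hcS : Sat (Tg K n q) c := hc.mono hq.tight.1
  have hcT : Sat (Tg K n' (z - q)) c := hc.mono hq.tight.2
  have eS : ∀ w, 2 ∣ (cl (Tg K n q) w ∩ (od q ∩ c)).card := fun w =>
    even_cap hS hq.1.1 (fun X hX => by rw [(mem_tg.1 hX).2]; exact hn) hcS w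
  have eT : ∀ w, 2 ∣ (cl (Tg K n' (z - q)) w ∩ (od (z - q) ∩ c)).card := fun w =>
    even_cap hT hq.2.1 (fun X hX => by rw [(mem_tg.1 hX).2]; exact hn') hcT w
  have capT : cl (Tg K n' (z - q)) v ∩ (od (z - q) ∩ c) =
      cl (Tg K n' (z - q)) v ∩ od (z - q) := by
    ext w
    rw [mem_inter, mem_inter, mem_inter]
    exact ⟨fun hw => ⟨hw.1, hw.2.1⟩, fun hw => ⟨hw.1, hw.2, hcT.cl_sub hvc hw.1⟩⟩
  rcases Nat.eq_zero_or_pos (cl (Tg K n' (z - q)) v ∩ od (z - q)).card with h0 | h0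
  · omega
  have x0 := exc0 (Tg K n q) (od q ∩ c) eS
  have x1 := exc1 (Tg K n' (z - q)) (od (z - q) ∩ c) eT v
    (cl (Tg K n' (z - q)) v ∩ od (z - q)).card h0 (by rw [capT])
  have hne : ((od q ∩ c) ∪ (od (z - q) ∩ c)).Nonempty := by
    rw [← capT] at h0
    obtain ⟨w, hw⟩ := card_pos.1 h0
    exact ⟨w, mem_union_right _ (mem_inter.1 hw).2⟩
  have x3 := exc_le hS hT hne (fun e he h5 => h e he fun w hw => h5 w fun h6 => hw (by
    rw [mem_inter, mem_inter, mem_inter] at h6
    rw [mem_inter]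
    exact ⟨h6.1.1, h6.2.1⟩))
  have x4 : (symmDiff (od q ∩ c) (od (z - q) ∩ c)).card ≤ (c ∩ od z).card := by
    apply card_le_card
    intro w hw
    rw [Finset.mem_symmDiff, mem_inter, mem_inter] at hw
    rw [mem_inter, ← od_symm z q, Finset.mem_symmDiff]
    tauto
  have x5 := hz v
  rw [← hc0] at x5
  omega

/-- Adding a cycle in the common odd points. PROOF. `swap_le` for both layers (`Cy.abs_le`,
`Cy.symm`); the sets tight for `x` are tight for `x + d`, because `d` has class sums zero. A point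
with `d v ≠ 0` is odd for `x` and even for `x + d`. -/
theorem add_cyc {K : Finset (Finset V)} (hK : Cross K) {n n' : ℤ} {z x d : V → ℤ}
    (hx : St K n n' z x) (hd : Cy (Tg K n x) (Tg K n' (z - x)) d)
    (hv : ∀ v, v ∉ od x ∩ od (z - x) → d v = 0) :
    St K n n' z (x + d) ∧ Tg K n x ⊆ Tg K n (x + d) ∧ od (x + d) ⊆ od x ∧
      (od (x + d)).card + (od (z - (x + d))).card < (od x).card + (od (z - x)).card := by
  have s1 := swap_le hK hx.1 d hd.sS (fun v Z => hd.abs_le v Z)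
  have s2 := swap_le hK hx.2 d hd.sT (fun v Z => hd.symm.abs_le v Z)
  have hd0 : ∑ v, d v = 0 := sum_sat_zero (sat_univ (Tg K n x)) d fun v _ => hd.sS v
  have hodd : ∀ v, d v ≠ 0 → v ∈ od x ∧ v ∈ od (z - x) := by
    intro v hdv
    by_contra h1
    exact hdv (hv v fun h2 => h1 (mem_inter.1 h2))
  have hev : ∀ v, d v ≠ 0 → v ∉ od (x + d) ∧ v ∉ od (z - (x + d)) := by
    intro v hdv
    obtain ⟨h1, h2⟩ := hodd v hdv
    rw [mem_od] at h1 h2
    rw [mem_od, mem_od, Pi.sub_apply, Pi.add_apply]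
    rw [Pi.sub_apply] at h2
    rcases hd.val v with h3 | h3 | h3
    · exact absurd h3 hdv
    · rw [h3]
      omega
    · rw [h3]
      omega
  have hsub1 : od (x + d) ⊆ od x := by
    intro v h1
    by_cases hdv : d v = 0
    · rw [mem_od, Pi.add_apply, hdv, add_zero] at h1
      exact mem_od.2 h1
    · exact absurd h1 (hev v hdv).1
  have hsub2 : od (z - (x + d)) ⊆ od (z - x) := by
    intro v h1
    by_cases hdv : d v = 0
    · rw [mem_od, Pi.sub_apply, Pi.add_apply, hdv, add_zero] at h1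
      exact mem_od.2 h1
    · exact absurd h1 (hev v hdv).2
  refine ⟨⟨⟨?_, fun X hX => ?_⟩, ⟨?_, fun X hX => ?_⟩⟩, ?_, hsub1, ?_⟩
  · simp only [Pi.add_apply, Finset.sum_add_distrib, hx.1.1, hd0, add_zero]
  · simp only [Pi.add_apply, Finset.sum_add_distrib]
    have h1 := (abs_le.1 (s1 X hX)).1
    linarith
  · have h1 := hx.2.1
    simp only [Pi.sub_apply, Pi.add_apply, Finset.sum_sub_distrib, Finset.sum_add_distrib] at h1 ⊢
    linarith
  · have h1 := (abs_le.1 (s2 X hX)).2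
    simp only [Pi.sub_apply, Pi.add_apply, Finset.sum_sub_distrib, Finset.sum_add_distrib] at h1 ⊢
    linarith
  · intro X hX
    obtain ⟨h1, h2⟩ := mem_tg.1 hX
    refine mem_tg.2 ⟨h1, ?_⟩
    simp only [Pi.add_apply, Finset.sum_add_distrib]
    rw [h2, sum_sat_zero (sat_of_mem hX) d fun v _ => hd.sS v, add_zero]
  · obtain ⟨w, hw⟩ := hd.ne
    have h1 : (od (x + d)).card < (od x).card := by
      apply card_lt_card
      refine ⟨hsub1, fun h2 => ?_⟩
      exact (hev w hw).1 (h2 (hodd w hw).1)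
    have h2 := card_le_card hsub2
    omega

/-- PROOF. `n = 2`, `n' = 2 k`. With the vertex of `vx_exists` and `cnt_b`, `h` gives a list of light
vectors with sum `z - q`; its first element `g` is a light state. Among the light states `x`
(`St K 2 (2 k) z x`, `Lt K x`) take one with `|od x| + |od (z - x)|` minimal. No nonzero kernel
vector is supported in `od x ∩ od (z - x)`: otherwise `cyc_exists` and `add_cyc`; `x + d` is light
because its classes are contained in those of `x`. By `cnt_b` the hypothesis `h` applies to `z - x`;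
add `x` to the list. -/
theorem dk_succ {K : Finset (Finset V)} (hK : Cross K) (hs : Sep K) {k m : ℕ} (hk : 1 ≤ k)
    (h : Dk K k m) : Dk K (k + 1) m := by
  intro z hz hc
  have e : (2 * ((k + 1 : ℕ) : ℤ)) = 2 + 2 * (k : ℤ) := by push_cast; ring
  rw [e] at hz hc
  -- the descent
  have key : ∀ N : ℕ, ∀ x : V → ℤ, St K 2 (2 * (k : ℤ)) z x → Lt K x →
      (od x).card + (od (z - x)).card = N →
        ∃ l : List (V → ℤ), l.length = k + 1 ∧ (∀ g ∈ l, Lt K g) ∧ l.sum = z := by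
    intro N
    induction N using Nat.strong_induction_on with
    | _ N ih =>
    intro x hx hl hN
    by_cases hex : ∀ e, Ke (Tg K 2 x) (Tg K (2 * (k : ℤ)) (z - x)) e →
        (∀ v, v ∉ od x ∩ od (z - x) → e v = 0) → e = 0
    · have h1 := cnt_b hK (dvd_refl 2) (dvd_mul_right 2 (k : ℤ)) hx hc hex
      obtain ⟨l, hl1, hl2, hl3⟩ := h (z - x) hx.2 h1
      refine ⟨x :: l, by rw [List.length_cons, hl1], ?_, ?_⟩
      · intro g hg
        rcases List.mem_cons.1 hg with rfl | hg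
        · exact hl
        · exact hl2 g hg
      · rw [List.sum_cons, hl3]
        abel
    · push Not at hex
      obtain ⟨e', he1, he2, he3⟩ := hex
      obtain ⟨d, hd, hd2⟩ := cyc_exists (cross_tg hK hx.1) (cross_tg hK hx.2) he1 he3 he2
      obtain ⟨a1, a2, a3, a4⟩ := add_cyc hK hx hd hd2
      refine ih _ (by omega) (x + d) a1 ⟨a1.1, fun v => ?_⟩ rfl
      refine le_trans (card_le_card ?_) (hl.2 v)
      exact inter_subset_inter (cl_anti a2 v) a3
  -- a first light state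
  obtain ⟨q, hq⟩ := vx_exists hK hs (n := 2) (n' := 2 * (k : ℤ)) (by norm_num)
    (by omega) hz
  have h1 := cnt_b hK (dvd_refl 2) (dvd_mul_right 2 (k : ℤ)) hq.1 hc (fun e he _ => hq.2 e he)
  obtain ⟨l, hl1, hl2, hl3⟩ := h (z - q) hq.1.2 h1
  rcases l with _ | ⟨g, l⟩
  · rw [List.length_nil] at hl1
    omega
  rw [List.length_cons] at hl1
  rw [List.sum_cons] at hl3
  have hg := hl2 g List.mem_cons_self
  have h2 := fe_add hq.1.1 (fe_list l fun g' hg' => (hl2 g' (List.mem_cons_of_mem _ hg')).1)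
  have e3 : z - g = q + l.sum := by
    have e4 : z = q + (g + l.sum) := by rw [hl3]; abel
    rw [e4]
    abel
  have e5 : (2 : ℤ) + 2 * (l.length : ℤ) = 2 * (k : ℤ) := by
    rw [← hl1]
    push_cast
    ring
  rw [← e3, e5] at h2
  exact key _ g ⟨hg.1, h2⟩ hg rfl

end Pool.Agent.Dj2
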