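import Pool.Agent.H.MP_3adc02_co.helper68.Dbl
import Pool.Agent.H.MP_3adc02_co.helper68.Mon
import Pool.Agent.H.MP_3adc02_co.helper68.LgtB
import Pool.Agent.H.MP_3adc02_co.helper68.Quo2

/-!
# The splitting theorem
-/

set_option linter.unusedSectionVars false

namespace Pool.Agent.Dj2

open Finset Pool.Agent.Dj

variable {V : Type} [Fintype V] [DecidableEq V]

theorem dk_pow {K : Finset (Finset V)} (hK : Cross K) (hs : Sep K) (a : ℕ) :
    Dk K (2 ^ a) (2 ^ (a + 1)) := by
  induction a with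
  | zero => exact dk_one K
  | succ a ih =>
    have h := dk_double hK hs (Nat.one_le_two_pow) (Nat.one_le_two_pow) ih
    have e1 : 2 * 2 ^ a = 2 ^ (a + 1) := by rw [pow_succ]; ring
    have e2 : 2 * 2 ^ (a + 1) = 2 ^ (a + 1 + 1) := by rw [pow_succ 2 (a + 1)]; ring
    rw [e1, e2] at h
    exact h

theorem dk_all {K : Finset (Finset V)} (hK : Cross K) (hs : Sep K) (a k : ℕ) (h : 2 ^ a ≤ k) :
    Dk K k (2 ^ (a + 1)) := by
  induction k, h using Nat.le_induction with
  | base => exact dk_pow hK hs a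
  | succ k hk ih => exact dk_succ hK hs (Nat.one_le_two_pow.trans hk) ih

/-- the splitting theorem, when the dicuts separate the vertices -/
theorem splitting_sep {m : ℕ} (tail head : Fin m → V) (J : Finset (Fin m)) (a k : ℕ)
    (hs : Sep (dic tail head)) (hk : 2 ^ a ≤ k) (hJ : ∀ U ∈ dic tail head, 2 * k ≤ ct tail head J U)
    (h : ∀ v, (cl (Tg (dic tail head) (2 * k) (nt tail head J)) v ∩ od (nt tail head J)).card ≤
      2 ^ (a + 2)) :
    ∃ J₁ : Finset (Fin m), J₁ ⊆ J ∧ ∀ U ∈ dic tail head, k ≤ ct tail head J₁ U ∧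
      k ≤ ct tail head (J \ J₁) U := by
  have hK := cross_dic tail head
  have hcl : ∀ X ∈ dic tail head, ∀ e, head e ∈ X → tail e ∈ X :=
    fun X hX => (mem_dic.1 hX).2.2
  have hV : ∑ v, nt tail head J v = 0 := by
    have h1 := sum_nt tail head J univ (fun _ _ => mem_univ _)
    rw [h1]
    unfold ct
    rw [filter_false_of_mem]
    · simp
    · intro e _ he
      exact he.2 (mem_univ _)
  have hFe : Fe (dic tail head) (2 * k) (nt tail head J) := by
    refine ⟨hV, fun X hX => ?_⟩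
    rw [sum_nt tail head J X (hcl X hX)]
    exact_mod_cast hJ X hX
  obtain ⟨l, hl1, hl2, hl3⟩ := dk_all hK hs a k hk (nt tail head J) hFe (fun v => by
    have h1 := h v
    have h2 : 2 * 2 ^ (a + 1) = 2 ^ (a + 2) := by rw [pow_succ 2 (a + 1)]; ring
    omega)
  obtain ⟨κ, hκ, I, p, q, h1, h2⟩ := list_graph hK l hl2
  refine split_gen tail head J k (dic tail head) hcl I p q ?_ ?_
  · intro v
    rw [← hl3]
    exact h1 v
  · intro X hX
    have h3 := h2 X hX
    rw [hl1, hl3, sum_nt tail head J X (hcl X hX)] at h3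
    exact h3

/-- no dicut with exactly `2 k` arcs of `J` separates `u` and `v` -/
def Tog {m : ℕ} (tail head : Fin m → V) (J : Finset (Fin m)) (k : ℕ) (u v : V) : Prop :=
  ∀ U ∈ dic tail head, ct tail head J U = 2 * k → (u ∈ U ↔ v ∈ U)

open Classical in
/-- the splitting theorem -/
theorem splitting2 {m : ℕ} (tail head : Fin m → V) (J : Finset (Fin m)) (a k : ℕ)
    (hk : 2 ^ a ≤ k) (hJ : ∀ U ∈ dic tail head, 2 * k ≤ ct tail head J U)
    (h : ∀ v, ((od (nt tail head J)).filter fun u => Tog tail head J k u v).card ≤ 2 ^ (a + 2)) :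
    ∃ J₁ : Finset (Fin m), J₁ ⊆ J ∧ ∀ U ∈ dic tail head, k ≤ ct tail head J₁ U ∧
      k ≤ ct tail head (J \ J₁) U := by
  obtain ⟨V', _, _, π, h0, h1, h2, h3, h4⟩ := quo2 tail head
  obtain ⟨J₁, h5, h6⟩ := splitting_sep (π ∘ tail) (π ∘ head) J a k h3 hk
    (fun U' hU' => by
      obtain ⟨U, hU, -, hU2⟩ := h2 U' hU'
      rw [← hU2]
      exact hJ U hU)
    (fun v' => by
      obtain ⟨v, rfl⟩ := h0 v'
      refine le_trans ((card_le_card ?_).trans (card_image_le (f := π))) (h v)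
      intro w hw
      obtain ⟨hw1, hw2⟩ := mem_inter.1 hw
      obtain ⟨u, hu, rfl⟩ := mem_image.1 (h4 J hw2)
      refine mem_image.2 ⟨u, mem_filter.2 ⟨hu, ?_⟩, rfl⟩
      intro U hU hct
      obtain ⟨U', hU', hm, hU2⟩ := h1 U hU
      rw [← hm u, ← hm v]
      refine mem_cl.1 hw1 U' (mem_tg.2 ⟨hU', ?_⟩)
      rw [sum_nt _ _ J U' (mem_dic.1 hU').2.2, ← hU2, hct]
      push_cast
      rfl)
  refine ⟨J₁, h5, fun U hU => ?_⟩
  obtain ⟨U', hU', -, hU2⟩ := h1 U hU
  rw [hU2, hU2]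
  exact h6 U' hU'

end Pool.Agent.Dj2
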