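import Pool.Agent.H.MP_3adc02_co.helper68.Cnt

/-!
# The core: counting around a unique cycle
-/

set_option linter.unusedSectionVars false

namespace Pool.Agent.Dj2

open Finset Pool.Agent.Dj

variable {V : Type} [Fintype V] [DecidableEq V]

/-- the support -/
def su (d : V → ℤ) : Finset V := univ.filter fun w => d w ≠ 0

private theorem mem_su {d : V → ℤ} {w : V} : w ∈ su d ↔ d w ≠ 0 := by
  unfold su
  rw [mem_filter]
  exact ⟨And.right, fun h => ⟨mem_univ _, h⟩⟩

private theorem cor_ker {S T : Finset (Finset V)} {d : V → ℤ}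
    (hu : ∀ e, Ke S T e → ∃ s : ℝ, ∀ v, e v = s * d v) {W : Finset V} (hd : ¬ su d ⊆ W) :
    ∀ e, Ke S T e → (∀ v, v ∉ W → e v = 0) → e = 0 := by
  intro e he h0
  obtain ⟨s, hs⟩ := hu e he
  obtain ⟨w, hw, hwW⟩ := Finset.not_subset.1 hd
  have h1 : s * (d w : ℝ) = 0 := by rw [← hs w]; exact h0 w hwW
  have h2 : (d w : ℝ) ≠ 0 := by exact_mod_cast mem_su.1 hw
  have h3 : s = 0 := by
    rcases mul_eq_zero.1 h1 with h | h
    · exact h
    · exact absurd h h2
  funext v
  rw [hs v, h3, zero_mul]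
  rfl

private theorem cor_two {S : Finset (Finset V)} {d : V → ℤ}
    (h : ∀ v, d v ≠ 0 → ((cl S v).filter fun u => d u ≠ 0).card = 2) {v : V} (hv : d v ≠ 0) :
    (cl S v ∩ su d).card = 2 := by
  rw [← h v hv]
  congr 1
  ext w
  rw [mem_inter, mem_filter, mem_su]

private theorem cor_img {S : Finset (Finset V)} {A : Finset V} {u : V}
    (h : 0 < (cl S u ∩ A).card) : cl S u ∈ A.image (cl S) := by
  obtain ⟨w, hw⟩ := Finset.card_pos.1 h
  obtain ⟨h1, h2⟩ := mem_inter.1 hw
  exact mem_image.2 ⟨w, h2, cl_eq_of_sm (mem_cl.1 h1)⟩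

private theorem cor_split (X B C : Finset V) :
    (X ∩ B).card = (X ∩ (B \ C)).card + (X ∩ (B ∩ C)).card := by
  rw [← Finset.card_union_of_disjoint]
  · congr 1
    ext w
    simp only [mem_inter, mem_union, mem_sdiff]
    tauto
  · rw [Finset.disjoint_left]
    intro w h1 h2
    simp only [mem_inter, mem_sdiff] at h1 h2
    exact h1.2.2 h2.2.2

private theorem cor_splitS (X B C : Finset V) :
    (X ∩ symmDiff B C).card = (X ∩ (B \ C)).card + (X ∩ (C \ B)).card := by
  rw [← Finset.card_union_of_disjoint]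
  · congr 1
    ext w
    simp only [mem_inter, mem_union, mem_sdiff, Finset.mem_symmDiff]
    tauto
  · rw [Finset.disjoint_left]
    intro w h1 h2
    simp only [mem_inter, mem_sdiff] at h1 h2
    exact h1.2.2 h2.2.1

/-- PROOF. A set which does not contain the support of the unique cycle carries no kernel vector:
`rk_cl`. -/
theorem cor_not {S T : Finset (Finset V)} (hS : Cross S) (hT : Cross T) {d : V → ℤ}
    (hu : ∀ e, Ke S T e → ∃ s : ℝ, ∀ v, e v = s * d v) {W : Finset V} (hW : W.Nonempty)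
    (hd : ¬ su d ⊆ W) : W.card + 1 ≤ (W.image (cl S)).card + (W.image (cl T)).card :=
  rk_cl hS hT hW (cor_ker hu hd)

/-- PROOF. `cor_not` for `W.erase w`, `w` in the support (if `W = {w}` it is clear). -/
theorem cor_sub {S T : Finset (Finset V)} (hS : Cross S) (hT : Cross T) {d : V → ℤ}
    (hd : Cy S T d) (hu : ∀ e, Ke S T e → ∃ s : ℝ, ∀ v, e v = s * d v) {W : Finset V}
    (hW : su d ⊆ W) : W.card ≤ (W.image (cl S)).card + (W.image (cl T)).card := by
  obtain ⟨w, hw⟩ := hd.ne
  have hwW : w ∈ W := hW (mem_su.2 hw)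
  have hc : (W.erase w).card + 1 = W.card := Finset.card_erase_add_one hwW
  have i1 : ((W.erase w).image (cl S)).card ≤ (W.image (cl S)).card :=
    Finset.card_le_card (Finset.image_subset_image (Finset.erase_subset _ _))
  have i2 : ((W.erase w).image (cl T)).card ≤ (W.image (cl T)).card :=
    Finset.card_le_card (Finset.image_subset_image (Finset.erase_subset _ _))
  rcases (W.erase w).eq_empty_or_nonempty with h0 | h0
  · rw [h0, Finset.card_empty] at hc
    have i3 : 0 < (W.image (cl S)).card :=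
      Finset.card_pos.2 ⟨cl S w, mem_image_of_mem _ hwW⟩
    omega
  · have h1 := cor_not hS hT hu h0 (fun h => Finset.notMem_erase w W (h (mem_su.2 hw)))
    omega

/-- PROOF. The classes meet the support in two points or none (`Finset.card_eq_sum_card_image`). -/
theorem cor_half {S T : Finset (Finset V)} {d : V → ℤ} (hd : Cy S T d) :
    2 * ((su d).image (cl S)).card = (su d).card := by
  rw [Finset.card_eq_sum_card_image (cl S) (su d), Finset.sum_congr rfl
    (g := fun _ => 2), Finset.sum_const, smul_eq_mul, mul_comm]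
  intro b hb
  obtain ⟨v, hv, rfl⟩ := mem_image.1 hb
  rw [← hd.cS v (mem_su.1 hv)]
  congr 1
  ext w
  rw [mem_filter, mem_filter, mem_su, cl_eq_iff, mem_cl, and_comm]

/-- PROOF. Let `C = su d`, `a = |A.image (cl S)|`, `b = |B.image (cl T)|`. By `exc1` for `A` and `u`:
`2 a + 2 α ≤ |A|`. The class `cl T v` meets `C` in two points.
Case `C ⊆ A ∩ B`: then `|cl T v ∩ B| = |cl T v ∩ symmDiff B C| + 2 ≥ 2 β + 4`, so
`2 b + 2 β + 2 ≤ |B|` (`exc1`); `cor_sub` for `A ∩ B` gives `|A ∩ B| ≤ a + b`, and `card_symm` gives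
`|A| + |B| ≤ 2 α + 2 β + 2 a + 2 b`, contradiction.
Case `C ⊄ A ∩ B`: `exc_le` (with `cor_not`-type uniqueness) gives
`|A| + |B| + 2 ≤ 2 α + 2 β + 2 a + 2 b`, so `|cl T v ∩ B| < 2 β + 2` by `exc1`, and `≤ 2 β` by
parity. As `|cl T v ∩ symmDiff B C| ≤ |cl T v ∩ B \ C| + 2`, equality holds: `|cl T v ∩ B| = 2 β`
and no point of `C ∩ cl T v` is in `B`. So `2 b + 2 β ≤ |B| + 2` (`exc1`, `β ≥ 1`).
Let `Na = |A.image (cl S) ∩ C.image (cl S)|`, `Nb = |B.image (cl T) ∩ C.image (cl T)|`;
`Na ≥ 1` (the class of `u`), `Nb ≥ 1` (the class of `v`). Let `W' = C ∩ (A ∩ B)`. The image of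
`W'` under `cl T` does not contain `cl T v`, so if `W'` is nonempty `cor_not` gives
`|W'| + 1 ≤ Na + (Nb - 1)`; in any case `|W'| + 2 ≤ Na + Nb`. For `W = (A ∩ B) ∪ C`:
`|A ∩ B| + |C| - |W'| = |W| ≤ a + b + |C.image (cl S)| + |C.image (cl T)| - Na - Nb` (`cor_sub`), and
`|C.image (cl S)| + |C.image (cl T)| = |C|` (`cor_half`). So `|A ∩ B| + 2 ≤ a + b` and
`|A| + |B| + 4 ≤ 2 α + 2 β + 2 a + 2 b` (`card_symm`), a contradiction. -/
theorem core_odd {S T : Finset (Finset V)} (hS : Cross S) (hT : Cross T) {d : V → ℤ}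
    (hd : Cy S T d) (hu : ∀ e, Ke S T e → ∃ s : ℝ, ∀ v, e v = s * d v)
    {A B : Finset V} (hA : ∀ v, 2 ∣ (cl S v ∩ A).card) (hB : ∀ v, 2 ∣ (cl T v ∩ B).card)
    {α β : ℕ} (hβ : 1 ≤ β) (hAB : (symmDiff A B).card ≤ 2 * α + 2 * β) {u v : V}
    (hu0 : d u ≠ 0) (hv0 : d v ≠ 0) (h1 : 2 * α + 2 ≤ (cl S u ∩ A).card)
    (h2 : 2 * β + 2 ≤ (cl T v ∩ symmDiff B (su d)).card) : False := by
  have hu1 : u ∈ su d := mem_su.2 hu0
  have hv1 : v ∈ su d := mem_su.2 hv0
  have eA := exc1 S A hA u (2 * α + 2) (by omega) h1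
  have eC : (cl T v ∩ su d).card = 2 := cor_two hd.cT hv0
  have e0 := card_symm A B
  have sB := cor_split (cl T v) B (su d)
  have sC := cor_split (cl T v) (su d) B
  have sS := cor_splitS (cl T v) B (su d)
  rw [Finset.inter_comm (su d) B] at sC
  have mA : ((A ∩ B).image (cl S)).card ≤ (A.image (cl S)).card :=
    Finset.card_le_card (Finset.image_subset_image Finset.inter_subset_left)
  have mB : ((A ∩ B).image (cl T)).card ≤ (B.image (cl T)).card :=
    Finset.card_le_card (Finset.image_subset_image Finset.inter_subset_right)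
  by_cases hC : su d ⊆ A ∩ B
  · have hCB : su d \ B = ∅ :=
      Finset.sdiff_eq_empty_iff_subset.2 (hC.trans Finset.inter_subset_right)
    rw [hCB, Finset.inter_empty, Finset.card_empty] at sC sS
    have eB := exc1 T B hB v (2 * β + 4) (by omega) (by omega)
    have e1 := cor_sub hS hT hd hu hC
    omega
  · have hne : (A ∪ B).Nonempty := by
      have : 0 < (cl S u ∩ A).card := by omega
      obtain ⟨w, hw⟩ := Finset.card_pos.1 this
      exact ⟨w, mem_union_left _ (mem_inter.1 hw).2⟩
    have e1 := exc_le hS hT hne (cor_ker hu hC)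
    have e2 : (cl T v ∩ B).card < 2 * β + 2 := by
      by_contra hcon
      have := exc1 T B hB v (2 * β + 2) (by omega) (by omega)
      omega
    have e3 : (cl T v ∩ B).card ≤ 2 * β := by
      obtain ⟨m, hm⟩ := hB v
      omega
    have e4 : (cl T v ∩ (B ∩ su d)).card = 0 := by omega
    have e5 : (cl T v ∩ B).card = 2 * β := by omega
    have eB := exc1 T B hB v (2 * β) (by omega) (by omega)
    -- the numbers of common classes
    have nA : cl S u ∈ A.image (cl S) ∩ (su d).image (cl S) :=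
      mem_inter.2 ⟨cor_img (by omega), mem_image_of_mem _ hu1⟩
    have nB : cl T v ∈ B.image (cl T) ∩ (su d).image (cl T) :=
      mem_inter.2 ⟨cor_img (by omega), mem_image_of_mem _ hv1⟩
    have nA' := Finset.card_pos.2 ⟨_, nA⟩
    have nB' := Finset.card_pos.2 ⟨_, nB⟩
    have w1 : (su d ∩ (A ∩ B)).card + 2 ≤ (A.image (cl S) ∩ (su d).image (cl S)).card +
        (B.image (cl T) ∩ (su d).image (cl T)).card := by
      rcases (su d ∩ (A ∩ B)).eq_empty_or_nonempty with h0 | h0
      · rw [h0, Finset.card_empty]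
        omega
      · have f1 := cor_not hS hT hu h0 (fun h => hC (h.trans Finset.inter_subset_right))
        have f2 : ((su d ∩ (A ∩ B)).image (cl S)).card ≤
            (A.image (cl S) ∩ (su d).image (cl S)).card := by
          refine Finset.card_le_card ?_
          intro b hb
          obtain ⟨w, hw, rfl⟩ := mem_image.1 hb
          obtain ⟨hw1, hw2⟩ := mem_inter.1 hw
          exact mem_inter.2 ⟨mem_image_of_mem _ (mem_inter.1 hw2).1, mem_image_of_mem _ hw1⟩
        have f3 : ((su d ∩ (A ∩ B)).image (cl T)).card ≤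
            ((B.image (cl T) ∩ (su d).image (cl T)).erase (cl T v)).card := by
          refine Finset.card_le_card ?_
          intro b hb
          obtain ⟨w, hw, rfl⟩ := mem_image.1 hb
          obtain ⟨hw1, hw2⟩ := mem_inter.1 hw
          refine mem_erase.2 ⟨?_, mem_inter.2
            ⟨mem_image_of_mem _ (mem_inter.1 hw2).2, mem_image_of_mem _ hw1⟩⟩
          intro heq
          have : w ∈ cl T v ∩ (B ∩ su d) := by
            refine mem_inter.2 ⟨?_, mem_inter.2 ⟨(mem_inter.1 hw2).2, hw1⟩⟩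
            rw [← heq]
            exact self_mem_cl T w
          rw [Finset.card_eq_zero.1 e4] at this
          exact absurd this (Finset.notMem_empty _)
        have f4 := Finset.card_erase_add_one nB
        omega
    have w2 := cor_sub hS hT hd hu (W := (A ∩ B) ∪ su d) Finset.subset_union_right
    have w3 := Finset.card_union_add_card_inter (A ∩ B) (su d)
    rw [Finset.inter_comm (A ∩ B) (su d)] at w3
    have w4 : (((A ∩ B) ∪ su d).image (cl S)).card ≤
        (A.image (cl S) ∪ (su d).image (cl S)).card := by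
      refine Finset.card_le_card ?_
      rw [Finset.image_union]
      exact Finset.union_subset_union (Finset.image_subset_image Finset.inter_subset_left)
        (Finset.Subset.refl _)
    have w5 : (((A ∩ B) ∪ su d).image (cl T)).card ≤
        (B.image (cl T) ∪ (su d).image (cl T)).card := by
      refine Finset.card_le_card ?_
      rw [Finset.image_union]
      exact Finset.union_subset_union (Finset.image_subset_image Finset.inter_subset_right)
        (Finset.Subset.refl _)
    have w6 := Finset.card_union_add_card_inter (A.image (cl S)) ((su d).image (cl S))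
    have w7 := Finset.card_union_add_card_inter (B.image (cl T)) ((su d).image (cl T))
    have w8 := cor_half hd
    have w9 := cor_half hd.symm
    omega

private theorem cor_cls {S : Finset (Finset V)} {A C : Finset V}
    (hA : ∀ v, 2 ∣ (cl S v ∩ A).card) {α : ℕ} (hα : 1 ≤ α) {u : V}
    (h1 : 2 * α + 2 ≤ (cl S u ∩ A).card)
    (hcard : A.card ≤ 2 * (A.image (cl S)).card + 2 * α) (hC : C ⊆ A)
    (h2 : (cl S u ∩ C).card = 2) (w : V) : (cl S w ∩ (A \ C)).card ≤ 2 * α := by
  by_cases huw : Sm S u w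
  · rw [← cl_eq_of_sm huw]
    have s1 := cor_split (cl S u) A C
    rw [Finset.inter_eq_right.2 hC, h2] at s1
    have s2 := exc1 S A hA u (cl S u ∩ A).card (by omega) le_rfl
    omega
  · have s1 : (cl S w ∩ (A \ C)).card ≤ (cl S w ∩ A).card :=
      Finset.card_le_card (Finset.inter_subset_inter_left Finset.sdiff_subset)
    rcases Nat.eq_zero_or_pos (cl S w ∩ A).card with h0 | h0
    · omega
    · have s2 := exc2 S A hA u w huw (2 * α + 2) (cl S w ∩ A).card (by omega) h0 h1 le_rfl
      omega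

/-- PROOF. By `exc1`, `2 a + 2 α ≤ |A|`, `2 b + 2 β ≤ |B|`. If `C = su d` were not contained in
`A ∩ B`, `exc_le` gives `|A| + |B| + 2 ≤ 2 α + 2 β + 2 a + 2 b`, contradiction. So
`C ⊆ A ∩ B`, `|A ∩ B| ≤ a + b` (`cor_sub`) and `|A| + |B| ≤ 2 α + 2 β + 2 a + 2 b`; so
`|A| = 2 a + 2 α` and `|B| = 2 b + 2 β`. Hence (`exc1`) every class has at most `2 α + 2` points of
`A`, and (`exc2`) a class different from the one of `u` at most `2`. The class of `u` meets `C` in two
points, which are in `A`. The same for `B`. -/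
theorem core_even {S T : Finset (Finset V)} (hS : Cross S) (hT : Cross T) {d : V → ℤ}
    (hd : Cy S T d) (hu : ∀ e, Ke S T e → ∃ s : ℝ, ∀ v, e v = s * d v)
    {A B : Finset V} (hA : ∀ v, 2 ∣ (cl S v ∩ A).card) (hB : ∀ v, 2 ∣ (cl T v ∩ B).card)
    {α β : ℕ} (hα : 1 ≤ α) (hβ : 1 ≤ β) (hAB : (symmDiff A B).card ≤ 2 * α + 2 * β) {u v : V}
    (hu0 : d u ≠ 0) (hv0 : d v ≠ 0) (h1 : 2 * α + 2 ≤ (cl S u ∩ A).card)
    (h2 : 2 * β + 2 ≤ (cl T v ∩ B).card) :
    su d ⊆ A ∩ B ∧ (∀ w, (cl S w ∩ (A \ su d)).card ≤ 2 * α) ∧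
      ∀ w, (cl T w ∩ (B \ su d)).card ≤ 2 * β := by
  have eA := exc1 S A hA u (2 * α + 2) (by omega) h1
  have eB := exc1 T B hB v (2 * β + 2) (by omega) h2
  have e0 := card_symm A B
  have mA : ((A ∩ B).image (cl S)).card ≤ (A.image (cl S)).card :=
    Finset.card_le_card (Finset.image_subset_image Finset.inter_subset_left)
  have mB : ((A ∩ B).image (cl T)).card ≤ (B.image (cl T)).card :=
    Finset.card_le_card (Finset.image_subset_image Finset.inter_subset_right)
  have hC : su d ⊆ A ∩ B := by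
    by_contra hC
    have hne : (A ∪ B).Nonempty := by
      have : 0 < (cl S u ∩ A).card := by omega
      obtain ⟨w, hw⟩ := Finset.card_pos.1 this
      exact ⟨w, mem_union_left _ (mem_inter.1 hw).2⟩
    have e1 := exc_le hS hT hne (cor_ker hu hC)
    omega
  have e1 := cor_sub hS hT hd hu hC
  refine ⟨hC, ?_, ?_⟩
  · exact cor_cls hA hα h1 (by omega) (hC.trans Finset.inter_subset_left) (cor_two hd.cS hu0)
  · exact cor_cls hB hβ h2 (by omega) (hC.trans Finset.inter_subset_right) (cor_two hd.cT hv0)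

end Pool.Agent.Dj2
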