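import Pool.Agent.H.MP_3adc02_co.helper68.DblA

/-!
# Doubling: patching the good states
-/

set_option linter.unusedSectionVars false

namespace Pool.Agent.Dj2

open Finset Pool.Agent.Dj

variable {V : Type} [Fintype V] [DecidableEq V]

/-- PROOF. Choose the states `F c` for all classes `c = cl Tz v` and patch: `y v = F (cl Tz v) v`
(`patch` for `F` and for `z - F`). On the class `c` one has `y = F c`, so `loc_od` (with `Tz`)
gives the bounds. -/
theorem good_patch {K : Finset (Finset V)} (hK : Cross K) {n : ℤ} {z : V → ℤ} {b : ℕ}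
    (hz : Fe K (n + n) z)
    (h : ∀ v0, ∃ q, St K n n z q ∧ Gd K n z q b (cl (Tg K (n + n) z) v0)) :
    ∃ y, St K n n z y ∧ (∀ v, (cl (Tg K n y) v ∩ od y).card ≤ b) ∧
      ∀ v, (cl (Tg K n (z - y)) v ∩ od (z - y)).card ≤ b := by
  classical
  choose q hq hg using h
  set Tz := Tg K (n + n) z with hTz
  have hTc : Cross Tz := cross_tg hK hz
  have hT : Tz ⊆ K := tg_sub K (n + n) z
  obtain ⟨F, hF⟩ : ∃ F : Finset V → V → ℤ, ∀ v, St K n n z (F (cl Tz v)) ∧
      Gd K n z (F (cl Tz v)) b (cl Tz v) := by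
    refine ⟨fun c => if hc : ∃ v0, cl Tz v0 = c then q hc.choose else 0, fun v => ?_⟩
    have hc : ∃ v0, cl Tz v0 = cl Tz v := ⟨v, rfl⟩
    dsimp only
    rw [dif_pos hc]
    refine ⟨hq _, ?_⟩
    have h1 := hg hc.choose
    rw [hc.choose_spec] at h1
    exact h1
  have ht : ∀ v, Tz ⊆ Tg K n (F (cl Tz v)) ∧ Tz ⊆ Tg K n (z - F (cl Tz v)) :=
    fun v => (hF v).1.tight
  obtain ⟨p1, p2⟩ := patch hK hT hTc n F (fun v => (hF v).1.1)
    (fun v X hX => (mem_tg.1 ((ht v).1 hX)).2)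
  obtain ⟨p3, p4⟩ := patch hK hT hTc n (fun c => z - F c) (fun v => (hF v).1.2)
    (fun v X hX => (mem_tg.1 ((ht v).2 hX)).2)
  have e1 : (fun v => (z - F (cl Tz v)) v) = z - fun v => F (cl Tz v) v := by
    funext v
    rfl
  rw [e1] at p3
  have t1 : Tz ⊆ Tg K n (fun v => F (cl Tz v) v) := fun X hX => mem_tg.2 ⟨hT hX, p2 X hX⟩
  have t2 : Tz ⊆ Tg K n (z - fun v => F (cl Tz v) v) := fun X hX => by
    refine mem_tg.2 ⟨hT hX, ?_⟩
    exact p4 X hX
  refine ⟨fun v => F (cl Tz v) v, ⟨p1, p3⟩, fun v => ?_, fun v => ?_⟩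
  · rw [loc_od hK hTc p1 (hF v).1.1 t1 (ht v).1 (v := v) fun w hw => by
      rw [cl_eq_of_sm hw]]
    exact (hF v).2.1 v (self_mem_cl Tz v)
  · rw [loc_od hK hTc p3 (hF v).1.2 t2 (ht v).2 (v := v) fun w hw => by
      simp only [Pi.sub_apply]
      rw [cl_eq_of_sm hw]]
    exact (hF v).2.2 v (self_mem_cl Tz v)

end Pool.Agent.Dj2
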