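import Pool.Agent.H.MP_3adc02_co.helper68.DblB
import Pool.Agent.H.MP_3adc02_co.helper68.DblP

/-!
# Doubling
-/

set_option linter.unusedSectionVars false

namespace Pool.Agent.Dj2

open Finset Pool.Agent.Dj

variable {V : Type} [Fintype V] [DecidableEq V]

/-- PROOF. `good_patch`, `good_exists`, and `h` for `y` and `z - y`; append the lists. -/
theorem dk_double {K : Finset (Finset V)} (hK : Cross K) (hs : Sep K) {j H : ℕ} (hj : 1 ≤ j)
    (hH : 1 ≤ H) (h : Dk K j H) : Dk K (2 * j) (2 * H) := by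
  intro z hz hc
  have e : (2 * ((2 * j : ℕ) : ℤ)) = 2 * (j : ℤ) + 2 * (j : ℤ) := by push_cast; ring
  rw [e] at hz hc
  obtain ⟨y, hy, h1, h2⟩ := good_patch hK hz (b := 2 * H) fun v0 =>
    good_exists hK hs hj hH hz v0 (by
      have := hc v0
      omega)
  obtain ⟨l, hl1, hl2, hl3⟩ := h y hy.1 h1
  obtain ⟨l', hl1', hl2', hl3'⟩ := h (z - y) hy.2 h2
  refine ⟨l ++ l', by rw [List.length_append]; omega, ?_, ?_⟩
  · intro g hg
    rcases List.mem_append.1 hg with h3 | h3
    · exact hl2 g h3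
    · exact hl2' g h3
  · rw [List.sum_append, hl3, hl3']
    abel


end Pool.Agent.Dj2
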