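import Pool.Agent.H.MP_3adc02_co.helper68.Dk
import Pool.Agent.H.MP_3adc02_co.helper68.Cnt

/-!
# Doubling: good states, vertices are not heavy in both layers, the midpoint state
-/

set_option linter.unusedSectionVars false

namespace Pool.Agent.Dj2

open Finset Pool.Agent.Dj

variable {V : Type} [Fintype V] [DecidableEq V]

/-- the state `q` is good on `c`: at most `b` odd points in each class of both layers -/
def Gd (K : Finset (Finset V)) (n : ℤ) (z q : V → ℤ) (b : ℕ) (c : Finset V) : Prop :=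
  (∀ v ∈ c, (cl (Tg K n q) v ∩ od q).card ≤ b) ∧
    ∀ v ∈ c, (cl (Tg K n (z - q)) v ∩ od (z - q)).card ≤ b

/-- A vertex is not heavy in both layers. PROOF. `exc_le` with `S = Tg K n q`, `T = Tg K n (z - q)`,
`A = od q ∩ c`, `B = od (z - q) ∩ c` (`symmDiff A B = od z ∩ c` by `od_symm`), `exc1` for both
(the cardinalities are even by `cls_even`, so `> 2 H` means `≥ 2 H + 2`). -/
theorem not_both {K : Finset (Finset V)} (hK : Cross K) {n : ℤ} (hn : 2 ∣ n) {z q : V → ℤ}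
    {H : ℕ} {c : Finset V} (hc : Sat (Tg K (n + n) z) c) (hz : (c ∩ od z).card ≤ 4 * H)
    (hq : Vx K n n z q) {u v : V} (hu : u ∈ c) (hv : v ∈ c)
    (h1 : 2 * H < (cl (Tg K n q) u ∩ od q).card)
    (h2 : 2 * H < (cl (Tg K n (z - q)) v ∩ od (z - q)).card) : False := by
  have hS : Cross (Tg K n q) := cross_tg hK hq.1.1
  have hT : Cross (Tg K n (z - q)) := cross_tg hK hq.1.2
  have hcS : Sat (Tg K n q) c := hc.mono hq.1.tight.1
  have hcT : Sat (Tg K n (z - q)) c := hc.mono hq.1.tight.2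
  have eS : ∀ w, 2 ∣ (cl (Tg K n q) w ∩ (od q ∩ c)).card := fun w =>
    even_cap hS hq.1.1.1 (fun X hX => by rw [(mem_tg.1 hX).2]; exact hn) hcS w
  have eT : ∀ w, 2 ∣ (cl (Tg K n (z - q)) w ∩ (od (z - q) ∩ c)).card := fun w =>
    even_cap hT hq.1.2.1 (fun X hX => by rw [(mem_tg.1 hX).2]; exact hn) hcT w
  have capS : cl (Tg K n q) u ∩ (od q ∩ c) = cl (Tg K n q) u ∩ od q := by
    ext w
    rw [mem_inter, mem_inter, mem_inter]
    exact ⟨fun hw => ⟨hw.1, hw.2.1⟩, fun hw => ⟨hw.1, hw.2, hcS.cl_sub hu hw.1⟩⟩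
  have capT : cl (Tg K n (z - q)) v ∩ (od (z - q) ∩ c) =
      cl (Tg K n (z - q)) v ∩ od (z - q) := by
    ext w
    rw [mem_inter, mem_inter, mem_inter]
    exact ⟨fun hw => ⟨hw.1, hw.2.1⟩, fun hw => ⟨hw.1, hw.2, hcT.cl_sub hv hw.1⟩⟩
  have mS : 2 * H + 2 ≤ (cl (Tg K n q) u ∩ (od q ∩ c)).card := by
    have h3 := eS u
    rw [capS] at h3 ⊢
    omega
  have mT : 2 * H + 2 ≤ (cl (Tg K n (z - q)) v ∩ (od (z - q) ∩ c)).card := by
    have h3 := eT v
    rw [capT] at h3 ⊢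
    omega
  have x1 := exc1 (Tg K n q) (od q ∩ c) eS u (2 * H + 2) (by omega) mS
  have x2 := exc1 (Tg K n (z - q)) (od (z - q) ∩ c) eT v (2 * H + 2) (by omega) mT
  have hne : ((od q ∩ c) ∪ (od (z - q) ∩ c)).Nonempty := by
    have h3 : 0 < (cl (Tg K n q) u ∩ (od q ∩ c)).card := by omega
    obtain ⟨w, hw⟩ := card_pos.1 h3
    exact ⟨w, mem_union_left _ (mem_inter.1 hw).2⟩
  have x3 := exc_le hS hT hne (fun e he _ => hq.2 e he)
  have x4 : (symmDiff (od q ∩ c) (od (z - q) ∩ c)).card ≤ (c ∩ od z).card := by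
    apply card_le_card
    intro w hw
    rw [Finset.mem_symmDiff, mem_inter, mem_inter] at hw
    rw [mem_inter, ← od_symm z q, Finset.mem_symmDiff]
    tauto
  omega

/-- The midpoint state on an edge with even length. PROOF. `x = q + d`, `q' = q + l d`, `2 ≤ l`. For
`X ∈ K` with `0 ≤ d(X)`: `x(X) ≥ q(X)`, if `d(X) < 0` then `x(X) = q'(X) - (l - 1) d(X)`; equality
with `n` is only possible for `d(X) = 0`, and then `q(X) = q'(X) = n`. -/
theorem mid_fe {K : Finset (Finset V)} {n : ℤ} {q q' d : V → ℤ} (hq : Fe K n q) (hq' : Fe K n q')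
    (hd : ∀ X ∈ Tg K n q ∩ Tg K n q', ∑ v ∈ X, d v = 0) {l : ℤ} (hl : 2 ≤ l)
    (h : ∀ v, q' v = q v + l * d v) :
    Fe K n (q + d) ∧ Tg K n (q + d) = Tg K n q ∩ Tg K n q' := by
  have hs : ∀ X : Finset V, ∑ v ∈ X, q' v = ∑ v ∈ X, q v + l * ∑ v ∈ X, d v := by
    intro X
    rw [Finset.mul_sum, ← Finset.sum_add_distrib]
    exact Finset.sum_congr rfl fun v _ => h v
  have hsd : ∀ X : Finset V, ∑ v ∈ X, (q + d) v = ∑ v ∈ X, q v + ∑ v ∈ X, d v := by
    intro X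
    rw [← Finset.sum_add_distrib]
    rfl
  have hd0 : ∑ v, d v = 0 := by
    have h1 := hs univ
    rw [hq.1, hq'.1, zero_add] at h1
    rcases mul_eq_zero.1 h1.symm with h2 | h2
    · omega
    · exact h2
  have key : ∀ X ∈ K, n ≤ ∑ v ∈ X, (q + d) v ∧
      (∑ v ∈ X, (q + d) v = n → ∑ v ∈ X, q v = n ∧ ∑ v ∈ X, q' v = n) := by
    intro X hX
    have h1 := hq.2 X hX
    have h2 := hq'.2 X hX
    have h3 := hs X
    rw [hsd X]
    rcases le_or_gt 0 (∑ v ∈ X, d v) with h4 | h4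
    · refine ⟨by omega, fun h5 => ?_⟩
      have h6 : ∑ v ∈ X, d v = 0 := by omega
      rw [h6, mul_zero] at h3
      omega
    · have h5 : (l - 1) * (∑ v ∈ X, d v) < 0 := mul_neg_of_pos_of_neg (by omega) h4
      have h6 : ∑ v ∈ X, q v + ∑ v ∈ X, d v = ∑ v ∈ X, q' v - (l - 1) * ∑ v ∈ X, d v := by
        rw [h3]
        ring
      refine ⟨by omega, fun h7 => ?_⟩
      omega
  refine ⟨⟨?_, fun X hX => (key X hX).1⟩, ?_⟩
  · rw [hsd, hq.1, hd0, add_zero]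
  · ext X
    rw [mem_inter, mem_tg, mem_tg, mem_tg]
    constructor
    · rintro ⟨h1, h2⟩
      exact ⟨⟨h1, ((key X h1).2 h2).1⟩, h1, ((key X h1).2 h2).2⟩
    · rintro ⟨h1, h2⟩
      refine ⟨h1.1, ?_⟩
      rw [hsd, h1.2, hd X (mem_inter.2 ⟨mem_tg.2 h1, mem_tg.2 h2⟩), add_zero]

end Pool.Agent.Dj2
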