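import Pool.Agent.H.MP_3adc02_co.helper68.DblA
import Pool.Agent.H.MP_3adc02_co.helper68.Cor
import Pool.Agent.H.MP_3adc02_co.helper68.Cyc

/-!
# Doubling: a good state for one class
-/

set_option linter.unusedSectionVars false

namespace Pool.Agent.Dj2

open Finset Pool.Agent.Dj

variable {V : Type} [Fintype V] [DecidableEq V]

theorem DblB_odd_ge {a H : ℕ} (h : 2 ∣ a) (h' : 2 * H < a) : 2 * H + 2 ≤ a := by omega

theorem DblB_even_tg {K : Finset (Finset V)} {n : ℤ} (hn : 2 ∣ n) {x : V → ℤ}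
    {X : Finset V} (hX : X ∈ Tg K n x) : (2 : ℤ) ∣ ∑ v ∈ X, x v := by
  rw [(mem_tg.1 hX).2]
  exact hn

/-- the heavy class of `x` inside `c` in terms of a coarser family -/
theorem DblB_heavy {K S : Finset (Finset V)} (hK : Cross K) {n : ℤ} (hn : 2 ∣ n) {x : V → ℤ}
    (hx : Fe K n x) (hS : S ⊆ Tg K n x) {c : Finset V} (hc : Sat (Tg K n x) c) {u v : V}
    (hv : v ∈ c) (hu : u ∈ cl S v) {H : ℕ} (h : 2 * H < (cl (Tg K n x) v ∩ od x).card) :
    2 * H + 2 ≤ (cl S u ∩ (od x ∩ c)).card := by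
  have h1 : 2 ∣ (cl (Tg K n x) v ∩ od x).card :=
    cls_even (cross_tg hK hx) x hx.1 (fun X hX => DblB_even_tg hn hX) v
  have h2 := DblB_odd_ge h1 h
  rw [cl_eq_of_sm (mem_cl.1 hu)]
  refine h2.trans (card_le_card ?_)
  intro w hw
  obtain ⟨hw1, hw2⟩ := mem_inter.1 hw
  exact mem_inter.2 ⟨cl_anti hS v hw1, mem_inter.2 ⟨hw2, hc.cl_sub hv hw1⟩⟩

/-- restriction of a kernel vector to a union of classes -/
theorem DblB_restr {S T : Finset (Finset V)} (hS : Cross S) (hT : Cross T) {d : V → ℤ}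
    (hd : Cy S T d) {c : Finset V} (hcS : Sat S c) (hcT : Sat T c) :
    Ke S T (fun v => if v ∈ c then (d v : ℝ) else 0) := by
  rw [ke_iff hS hT]
  have key : ∀ R : Finset (Finset V), Sat R c → (∀ v, ∑ u ∈ cl R v, d u = 0) →
      ∀ v, ∑ u ∈ cl R v, (if u ∈ c then (d u : ℝ) else 0) = 0 := by
    intro R hR h v
    by_cases hv : v ∈ c
    · have e : ∑ u ∈ cl R v, (if u ∈ c then (d u : ℝ) else 0) = ∑ u ∈ cl R v, (d u : ℝ) :=
        Finset.sum_congr rfl fun u hu => if_pos (hR.cl_sub hv hu)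
      rw [e]
      exact_mod_cast h v
    · refine Finset.sum_eq_zero fun u hu => if_neg fun huc => hv ?_
      exact (hR.iff (mem_cl.1 hu)).1 huc
  exact ⟨key S hcS hd.sS, key T hcT hd.sT⟩

theorem DblB_od_odd {x y d : V → ℤ} {l : ℤ} (hl : ¬ (2 : ℤ) ∣ l)
    (hd : ∀ v, d v = 0 ∨ d v = 1 ∨ d v = -1) (h : ∀ v, y v = x v + l * d v) :
    od y = symmDiff (od x) (su d) := by
  ext v
  rw [mem_symmDiff, mem_od, mem_od, h v]
  unfold su
  rw [mem_filter]
  rcases hd v with h1 | h1 | h1 <;> rw [h1] <;> simp <;> omega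

theorem DblB_od_even {x y d : V → ℤ} {l : ℤ} (hl : (2 : ℤ) ∣ l)
    (h : ∀ v, y v = x v + l * d v) : od y = od x := by
  ext v
  rw [mem_od, mem_od, h v]
  obtain ⟨m, rfl⟩ := hl
  have : x v + 2 * m * d v = x v + 2 * (m * d v) := by ring
  rw [this]
  omega

/-- the bound for the midpoint state -/
theorem DblB_mid {S : Finset (Finset V)} {x d : V → ℤ} {c : Finset V} {b : ℕ} (hc : Sat S c)
    (hd : ∀ v, d v = 0 ∨ d v = 1 ∨ d v = -1) (hsub : su d ⊆ od x)
    (h : ∀ w, (cl S w ∩ ((od x ∩ c) \ su d)).card ≤ b) {v : V} (hv : v ∈ c) :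
    (cl S v ∩ od (x + d)).card ≤ b := by
  refine (card_le_card ?_).trans (h v)
  intro w hw
  obtain ⟨hw1, hw2⟩ := mem_inter.1 hw
  have hwc : w ∈ c := hc.cl_sub hv hw1
  rw [mem_od, Pi.add_apply] at hw2
  have hw0 : d w = 0 := by
    by_contra hne
    have h1 : w ∈ su d := by
      unfold su
      exact mem_filter.2 ⟨mem_univ _, hne⟩
    have h2 := mem_od.1 (hsub h1)
    rcases hd w with h3 | h3 | h3
    · exact hne h3
    · rw [h3] at hw2
      omega
    · rw [h3] at hw2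
      omega
  refine mem_inter.2 ⟨hw1, mem_sdiff.2 ⟨mem_inter.2 ⟨mem_od.2 ?_, hwc⟩, ?_⟩⟩
  · rw [hw0, add_zero] at hw2
    exact hw2
  · unfold su
    rw [mem_filter]
    exact fun h4 => h4.2 hw0

/-- PROOF (assembly). Let `n = 2 j`, `Tz = Tg K (n + n) z`, `c = cl Tz v0`. Suppose no state is good
on `c`. Let `P q = (∃ v ∈ c, 2 H < |cl (Tg K n q) v ∩ od q|)`. For a state `q` with `¬ P q` the second
layer is heavy: `P (z - q)`. For a vertex `q` not both `P q` and `P (z - q)` (`not_both`). With `q` of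
`vx_exists` one of `q`, `z - q` has `P`, the other not (`Vx.symm`). `vx_adj` gives vertices `q`, `q'`
with `P q`, `¬ P q'` (so `P (z - q')`, `¬ P (z - q)`), and every element of `Ke S T`,
`S = Tg K n q ∩ Tg K n q'`, `T = Tg K n (z - q) ∩ Tg K n (z - q')`, is a multiple of `q' - q`; `cyc`
gives `Cy S T d` and `q' - q = r d`; `r` is a positive integer `l`.
(1) `d` is not zero on `c`: otherwise `q = q'` on `c` and by `loc_od` (with `Tz`) `P q'`.
(2) `d` vanishes off `c`: the restriction of `d` to `c` is in `Ke S T` (`c` is a union of classes), so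
it is a multiple of `d`.
(3) If `2 H < |cl (Tg K n q) u ∩ od q|`, `u ∈ c`, then `d` is not zero on `cl S u`: otherwise `loc_od`
with `S` gives `P q'`. The same for the second layer and `T`: otherwise `P (z - q)`.
So there are `u, v` with `d u ≠ 0`, `d v ≠ 0`, `2 H + 2 ≤ |cl S u ∩ A|`,
`2 H + 2 ≤ |cl T v ∩ (od (z - q') ∩ c)|`, where `A = od q ∩ c`, `B = od (z - q) ∩ c`.
If `l` is odd, `od (z - q') ∩ c = symmDiff B (su d)`: `core_odd` with `α = β = H`.
If `l` is even, `od (z - q') ∩ c = B`; by `core_even` and `mid_fe` (for `q`, `q'`, `d` and for `z - q`,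
`z - q'`, `-d`) the state `q + d` is good on `c`: `od (q + d) ∩ c = A \ su d`. -/
theorem good_exists {K : Finset (Finset V)} (hK : Cross K) (hs : Sep K) {j H : ℕ} (hj : 1 ≤ j)
    (hH : 1 ≤ H) {z : V → ℤ} (hz : Fe K (2 * j + 2 * j) z) (v0 : V)
    (hc : (cl (Tg K (2 * j + 2 * j) z) v0 ∩ od z).card ≤ 4 * H) :
    ∃ q, St K (2 * j) (2 * j) z q ∧ Gd K (2 * j) z q (2 * H) (cl (Tg K (2 * j + 2 * j) z) v0) := by
  obtain ⟨n, hndef⟩ : ∃ n : ℤ, n = 2 * (j : ℤ) := ⟨_, rfl⟩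
  rw [← hndef] at hz hc ⊢
  have hn2 : (2 : ℤ) ∣ n := ⟨j, hndef⟩
  have hn0 : 0 < n := by
    rw [hndef]
    have : (1 : ℤ) ≤ j := by exact_mod_cast hj
    linarith
  obtain ⟨Tz, hTz⟩ : ∃ Tz, Tz = Tg K (n + n) z := ⟨_, rfl⟩
  obtain ⟨c, hcdef⟩ : ∃ c, c = cl Tz v0 := ⟨_, rfl⟩
  have hTzc : Cross Tz := by rw [hTz]; exact cross_tg hK hz
  rw [← hTz, ← hcdef] at hc ⊢
  have hcT : Sat Tz c := by rw [hcdef]; exact sat_cl Tz v0
  by_contra hcon
  push Not at hcon
  have ht1 : ∀ q, St K n n z q → Tz ⊆ Tg K n q := fun q hq => by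
    rw [hTz]; exact hq.tight.1
  have ht2 : ∀ q, St K n n z q → Tz ⊆ Tg K n (z - q) := fun q hq => by
    rw [hTz]; exact hq.tight.2
  have hcl : ∀ q, St K n n z q → Sat (Tg K n q) c := fun q hq => hcT.mono (ht1 q hq)
  have hcl' : ∀ q, St K n n z q → Sat (Tg K n (z - q)) c := fun q hq => hcT.mono (ht2 q hq)
  obtain ⟨P, hP⟩ : ∃ P : (V → ℤ) → Prop,
      P = fun q => ∃ v ∈ c, 2 * H < (cl (Tg K n q) v ∩ od q).card := ⟨_, rfl⟩
  have hPi : ∀ q, P q ↔ ∃ v ∈ c, 2 * H < (cl (Tg K n q) v ∩ od q).card := fun q => by rw [hP]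
  have hP1 : ∀ q, St K n n z q → ¬ P q → P (z - q) := by
    intro q hq hnp
    by_contra hnp'
    apply hcon q hq
    rw [hPi] at hnp hnp'
    push Not at hnp hnp'
    exact ⟨hnp, hnp'⟩
  have hP2 : ∀ q, Vx K n n z q → P q → ¬ P (z - q) := by
    intro q hq hp hp'
    rw [hPi] at hp hp'
    obtain ⟨u, hu, h1⟩ := hp
    obtain ⟨v, hv, h2⟩ := hp'
    exact not_both hK hn2 (c := c) (by rw [← hTz]; exact hcT) hc hq hu hv h1 h2
  obtain ⟨q0, hq0⟩ := vx_exists hK hs hn0 hn0 hz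
  have hex : ∃ p1 p2, Vx K n n z p1 ∧ Vx K n n z p2 ∧ P p1 ∧ ¬ P p2 := by
    by_cases h : P q0
    · exact ⟨q0, z - q0, hq0, hq0.symm, h, hP2 q0 hq0 h⟩
    · exact ⟨z - q0, q0, hq0.symm, hq0, hP1 q0 hq0.1 h, h⟩
  obtain ⟨p1, p2, hp1, hp2, hPp1, hPp2⟩ := hex
  obtain ⟨q, q', hq, hq', hPq, hPq', huniq⟩ := vx_adj hK hs hz.1 P hp1 hp2 hPp1 hPp2
  obtain ⟨S, hSdef⟩ : ∃ S, S = Tg K n q ∩ Tg K n q' := ⟨_, rfl⟩
  obtain ⟨T, hTdef⟩ : ∃ T, T = Tg K n (z - q) ∩ Tg K n (z - q') := ⟨_, rfl⟩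
  rw [← hSdef, ← hTdef] at huniq
  have hS : Cross S := by
    rw [hSdef]; exact cross_inter (cross_tg hK hq.1.1) (cross_tg hK hq'.1.1)
  have hT : Cross T := by
    rw [hTdef]; exact cross_inter (cross_tg hK hq.1.2) (cross_tg hK hq'.1.2)
  have hS1 : S ⊆ Tg K n q := by rw [hSdef]; exact inter_subset_left
  have hS2 : S ⊆ Tg K n q' := by rw [hSdef]; exact inter_subset_right
  have hT1 : T ⊆ Tg K n (z - q) := by rw [hTdef]; exact inter_subset_left
  have hT2 : T ⊆ Tg K n (z - q') := by rw [hTdef]; exact inter_subset_right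
  have hcS : Sat S c := hcT.mono (by
    rw [hSdef]; exact subset_inter (ht1 q hq.1) (ht1 q' hq'.1))
  have hcT' : Sat T c := hcT.mono (by
    rw [hTdef]; exact subset_inter (ht2 q hq.1) (ht2 q' hq'.1))
  -- the cycle
  have hδ : Ke S T (fun v => (q' v : ℝ) - q v) := by
    refine ⟨?_, fun X hX => ?_, fun X hX => ?_⟩
    · rw [Finset.sum_sub_distrib]
      have h1 : ∑ v, (q' v : ℝ) = 0 := by exact_mod_cast hq'.1.1.1
      have h2 : ∑ v, (q v : ℝ) = 0 := by exact_mod_cast hq.1.1.1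
      rw [h1, h2, sub_zero]
    · rw [Finset.sum_sub_distrib]
      have h1 : ∑ v ∈ X, (q' v : ℝ) = n := by exact_mod_cast (mem_tg.1 (hS2 hX)).2
      have h2 : ∑ v ∈ X, (q v : ℝ) = n := by exact_mod_cast (mem_tg.1 (hS1 hX)).2
      rw [h1, h2, sub_self]
    · have h1 := (mem_tg.1 (hT2 hX)).2
      have h2 := (mem_tg.1 (hT1 hX)).2
      simp only [Pi.sub_apply, Finset.sum_sub_distrib] at h1 h2
      have h3 : ∑ v ∈ X, q' v = ∑ v ∈ X, q v := by linarith
      rw [Finset.sum_sub_distrib, sub_eq_zero]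
      exact_mod_cast h3
  have hδ0 : (fun v => (q' v : ℝ) - q v) ≠ 0 := by
    intro h0
    apply hPq'
    have : q' = q := by
      funext v
      have := congrFun h0 v
      simp only [Pi.zero_apply, sub_eq_zero] at this
      exact_mod_cast this
    rw [this]
    exact hPq
  obtain ⟨r, d, hr, hrd, hd⟩ := cyc hS hT hδ hδ0 (fun e he _ => by
    obtain ⟨s, hs'⟩ := huniq e he
    exact ⟨s, funext fun v => by rw [hs' v, Pi.smul_apply, smul_eq_mul]⟩)
  obtain ⟨l, hl0, hl⟩ : ∃ l : ℤ, 0 < l ∧ ∀ v, q' v = q v + l * d v := by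
    obtain ⟨v1, hv1⟩ := hd.ne
    have h1 := hrd v1
    have h2 : (d v1 : ℝ) * d v1 = 1 := by
      rcases hd.val v1 with h3 | h3 | h3
      · exact absurd h3 hv1
      · rw [h3]; norm_num
      · rw [h3]; norm_num
    have h4 : (((q' v1 - q v1) * d v1 : ℤ) : ℝ) = r := by
      push_cast
      rw [h1, mul_assoc, h2, mul_one]
    refine ⟨(q' v1 - q v1) * d v1, ?_, fun v => ?_⟩
    · have : (0 : ℝ) < (((q' v1 - q v1) * d v1 : ℤ) : ℝ) := by rw [h4]; exact hr
      exact_mod_cast this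
    · have h5 := hrd v
      rw [← h4] at h5
      have h6 : (q' v - q v : ℤ) = (q' v1 - q v1) * d v1 * d v := by exact_mod_cast h5
      linarith
  have huniq' : ∀ e, Ke S T e → ∃ s : ℝ, ∀ v, e v = s * d v := by
    intro e he
    obtain ⟨s, hs'⟩ := huniq e he
    refine ⟨s * l, fun v => ?_⟩
    rw [hs' v]
    have : (q' v : ℝ) - q v = l * d v := by
      rw [hl v]; push_cast; ring
    rw [this, mul_assoc]
  -- the cycle meets `c`
  have hc1 : ∃ v ∈ c, d v ≠ 0 := by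
    by_contra hno
    push Not at hno
    obtain ⟨v, hv, hv2⟩ := (hPi q).1 hPq
    apply hPq'
    rw [hPi]
    refine ⟨v, hv, ?_⟩
    have e := loc_od hK hTzc hq.1.1 hq'.1.1 (ht1 q hq.1) (ht1 q' hq'.1) (v := v) (by
      intro w hw
      have hwc : w ∈ c := hcT w v hw hv
      rw [hl w, hno w hwc, mul_zero, add_zero])
    rw [← e]
    exact hv2
  have hc2 : ∀ w, d w ≠ 0 → w ∈ c := by
    obtain ⟨v1, hv1, hv1'⟩ := hc1
    obtain ⟨s, hs'⟩ := huniq' _ (DblB_restr hS hT hd hcS hcT')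
    have h1 := hs' v1
    simp only [if_pos hv1] at h1
    have h2 : (d v1 : ℝ) ≠ 0 := by exact_mod_cast hv1'
    have h3 : s = 1 := by
      have : (1 - s) * (d v1 : ℝ) = 0 := by linarith
      rcases mul_eq_zero.1 this with h4 | h4
      · linarith
      · exact absurd h4 h2
    intro w hw
    by_contra hwc
    have h4 := hs' w
    simp only [if_neg hwc, h3, one_mul] at h4
    exact hw (by exact_mod_cast h4.symm)
  -- the heavy classes meet the cycle
  obtain ⟨uA, huA, huA2⟩ := (hPi q).1 hPq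
  obtain ⟨vB, hvB, hvB2⟩ := (hPi (z - q')).1 (hP1 q' hq'.1 hPq')
  obtain ⟨u, hu, hu0⟩ : ∃ u ∈ cl S uA, d u ≠ 0 := by
    by_contra hno
    push Not at hno
    apply hPq'
    rw [hPi]
    refine ⟨uA, huA, ?_⟩
    have e := loc_od hK hS hq.1.1 hq'.1.1 hS1 hS2 (v := uA) (by
      intro w hw
      rw [hl w, hno w (mem_cl.2 hw), mul_zero, add_zero])
    rw [← e]
    exact huA2
  obtain ⟨v, hv, hv0⟩ : ∃ v ∈ cl T vB, d v ≠ 0 := by
    by_contra hno
    push Not at hno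
    apply hP2 q hq hPq
    rw [hPi]
    refine ⟨vB, hvB, ?_⟩
    have e := loc_od hK hT hq.1.2 hq'.1.2 hT1 hT2 (v := vB) (by
      intro w hw
      rw [Pi.sub_apply, Pi.sub_apply, hl w, hno w (mem_cl.2 hw), mul_zero, add_zero])
    rw [e]
    exact hvB2
  have h1 : 2 * H + 2 ≤ (cl S u ∩ (od q ∩ c)).card :=
    DblB_heavy hK hn2 hq.1.1 hS1 (hcl q hq.1) huA hu huA2
  have h2 : 2 * H + 2 ≤ (cl T v ∩ (od (z - q') ∩ c)).card :=
    DblB_heavy hK hn2 hq'.1.2 hT2 (hcl' q' hq'.1) hvB hv hvB2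
  have hA : ∀ v, 2 ∣ (cl S v ∩ (od q ∩ c)).card :=
    even_cap hS hq.1.1.1 (fun X hX => DblB_even_tg hn2 (hS1 hX)) hcS
  have hB : ∀ v, 2 ∣ (cl T v ∩ (od (z - q) ∩ c)).card :=
    even_cap hT hq.1.2.1 (fun X hX => DblB_even_tg hn2 (hT1 hX)) hcT'
  have hAB : (symmDiff (od q ∩ c) (od (z - q) ∩ c)).card ≤ 2 * H + 2 * H := by
    have e : symmDiff (od q ∩ c) (od (z - q) ∩ c) = c ∩ od z := by
      rw [← od_symm z q]
      ext w
      simp only [mem_symmDiff, mem_inter]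
      tauto
    rw [e]
    omega
  have hsub' : ∀ {A : Finset V}, symmDiff (A ∩ c) (su d) = symmDiff A (su d) ∩ c := by
    intro A
    have hsc : ∀ w, w ∈ su d → w ∈ c := by
      intro w hw
      unfold su at hw
      exact hc2 w (mem_filter.1 hw).2
    ext w
    simp only [mem_symmDiff, mem_inter]
    have := hsc w
    tauto
  have hdn : ∀ v, (-d) v = 0 ∨ (-d) v = 1 ∨ (-d) v = -1 := (hd.neg).val
  have hsun : su (-d) = su d := by
    unfold su
    ext w
    simp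
  have hzl : ∀ v, (z - q') v = (z - q) v + l * (-d) v := by
    intro v
    rw [Pi.sub_apply, Pi.sub_apply, Pi.neg_apply, hl v]
    ring
  by_cases hodd : (2 : ℤ) ∣ l
  · -- even
    have e1 : od (z - q') = od (z - q) := DblB_od_even hodd hzl
    rw [e1] at h2
    obtain ⟨h3, h4, h5⟩ := core_even hS hT hd huniq' hA hB hH hH hAB hu0 hv0 h1 h2
    have hl2 : 2 ≤ l := by
      obtain ⟨m, hm⟩ := hodd
      omega
    have hdS : ∀ X ∈ S, ∑ v ∈ X, d v = 0 := fun X hX => sum_sat_zero (sat_of_mem hX) d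
      fun v _ => hd.sS v
    have hdT : ∀ X ∈ T, ∑ v ∈ X, (-d) v = 0 := fun X hX => sum_sat_zero (sat_of_mem hX) (-d)
      fun v _ => hd.neg.sT v
    obtain ⟨m1, m2⟩ := mid_fe hq.1.1 hq'.1.1 (by rw [← hSdef]; exact hdS) hl2 hl
    obtain ⟨m3, m4⟩ := mid_fe hq.1.2 hq'.1.2 (by rw [← hTdef]; exact hdT) hl2 hzl
    have e2 : z - (q + d) = z - q + -d := by
      funext w
      simp only [Pi.sub_apply, Pi.add_apply, Pi.neg_apply]
      ring
    have hst : St K n n z (q + d) := ⟨m1, by rw [e2]; exact m3⟩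
    apply hcon (q + d) hst
    constructor
    · intro w hw
      rw [m2, ← hSdef]
      exact DblB_mid hcS hd.val (fun y hy => (mem_inter.1 (mem_inter.1 (h3 hy)).1).1) h4 hw
    · intro w hw
      rw [e2, m4, ← hTdef]
      refine DblB_mid hcT' hdn ?_ ?_ hw
      · rw [hsun]
        exact fun y hy => (mem_inter.1 (mem_inter.1 (h3 hy)).2).1
      · rw [hsun]
        exact h5
  · -- odd
    have e1 : od (z - q') = symmDiff (od (z - q)) (su d) := by
      rw [DblB_od_odd hodd hdn hzl, hsun]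
    rw [e1, ← hsub'] at h2
    exact core_odd hS hT hd huniq' hA hB hH hAB hu0 hv0 h1 h2

end Pool.Agent.Dj2
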