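import Pool.Agent.H.MP_3adc02_co.helper68.Kl

/-!
# Induction over the classes cut by a member of a crossing family
-/

set_option linter.unusedSectionVars false

namespace Pool.Agent.Dj2

open Finset Pool.Agent.Dj

variable {V : Type} [Fintype V] [DecidableEq V]

/-- the class of `u` is cut by `Z` -/
def Cut (T : Finset (Finset V)) (Z : Finset V) (u : V) : Prop := ∃ w, Sm T w u ∧ ¬ (w ∈ Z ↔ u ∈ Z)

private theorem ind_cap {T : Finset (Finset V)} {X Z : Finset V} (hX : X ∈ T) {y : V}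
    (h : Cut T (Z ∩ X) y) : y ∈ X ∧ Cut T Z y := by
  obtain ⟨w, hw, hw2⟩ := h
  have h1 := hw X hX
  by_cases hy : y ∈ X
  · refine ⟨hy, w, hw, fun h2 => hw2 ?_⟩
    rw [mem_inter, mem_inter]
    tauto
  · exact (hw2 (by rw [mem_inter, mem_inter]; tauto)).elim

private theorem ind_cup {T : Finset (Finset V)} {X Z : Finset V} (hX : X ∈ T) {y : V}
    (h : Cut T (Z ∪ X) y) : y ∉ X ∧ Cut T Z y := by
  obtain ⟨w, hw, hw2⟩ := h
  have h1 := hw X hX
  by_cases hy : y ∈ X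
  · exact (hw2 (by rw [mem_union, mem_union]; tauto)).elim
  · refine ⟨hy, w, hw, fun h2 => hw2 ?_⟩
    rw [mem_union, mem_union]
    tauto

/-- PROOF. Strong induction on the number of the cut points `u` of `Z`. If all cut points are in the
same class use `h1`. Otherwise there are cut points `u`, `v` and `X ∈ T` with `u ∈ X`, `v ∉ X`. The
class of `u` is contained in `X` and the class of `v` is disjoint from `X`; both are cut by `Z`, so
`Z ∩ X` is nonempty and `Z ∪ X ≠ univ`. The cut points of `Z ∩ X` are cut points of `Z` in `X`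
(so `v` is none), the cut points of `Z ∪ X` are cut points of `Z` outside of `X`. -/
theorem cut_ind {K T : Finset (Finset V)} (hK : Cross K) (hT : T ⊆ K) (P : Finset V → Prop)
    (h1 : ∀ Z ∈ K, (∀ u v, Cut T Z u → Cut T Z v → Sm T u v) → P Z)
    (h2 : ∀ X ∈ T, ∀ Z ∈ K, (Z ∩ X).Nonempty → Z ∪ X ≠ univ → P (Z ∩ X) → P (Z ∪ X) → P Z) :
    ∀ Z ∈ K, P Z := by
  classical
  suffices h : ∀ N : ℕ, ∀ Z ∈ K, (univ.filter fun u => Cut T Z u).card ≤ N → P Z from
    fun Z hZ => h _ Z hZ le_rfl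
  intro N
  induction N using Nat.strong_induction_on with
  | _ N ih =>
  intro Z hZ hN
  by_cases hall : ∀ u v, Cut T Z u → Cut T Z v → Sm T u v
  · exact h1 Z hZ hall
  · obtain ⟨u, v, X, hu, hv, hX, huX, hvX⟩ :
        ∃ u v X, Cut T Z u ∧ Cut T Z v ∧ X ∈ T ∧ u ∈ X ∧ v ∉ X := by
      push Not at hall
      obtain ⟨u, v, hu, hv, hs⟩ := hall
      unfold Sm at hs
      push Not at hs
      obtain ⟨X, hX, h3⟩ := hs
      rcases h3 with ⟨h3, h4⟩ | ⟨h3, h4⟩
      · exact ⟨u, v, X, hu, hv, hX, h3, h4⟩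
      · exact ⟨v, u, X, hv, hu, hX, h4, h3⟩
    have hne : (Z ∩ X).Nonempty := by
      obtain ⟨w, hw, hw2⟩ := hu
      have h3 := hw X hX
      by_cases h4 : u ∈ Z
      · exact ⟨u, mem_inter.2 ⟨h4, huX⟩⟩
      · refine ⟨w, mem_inter.2 ⟨?_, h3.2 huX⟩⟩
        by_contra h5
        exact hw2 (by tauto)
    have hun : Z ∪ X ≠ univ := by
      intro h3
      obtain ⟨w, hw, hw2⟩ := hv
      have h4 := hw X hX
      have h5 : v ∈ Z ∪ X := by rw [h3]; exact mem_univ _
      have h6 : w ∈ Z ∪ X := by rw [h3]; exact mem_univ _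
      rw [mem_union] at h5 h6
      exact hw2 (by tauto)
    have hcap := hK.cap Z hZ X (hT hX) hne hun
    have hcup := hK.cup Z hZ X (hT hX) hne hun
    have c1 : (univ.filter fun u => Cut T (Z ∩ X) u).card <
        (univ.filter fun u => Cut T Z u).card := by
      apply Finset.card_lt_card
      refine ⟨fun y hy => ?_, fun hsub => ?_⟩
      · rw [mem_filter] at hy ⊢
        exact ⟨mem_univ _, (ind_cap hX hy.2).2⟩
      · have h3 := hsub (mem_filter.2 ⟨mem_univ v, hv⟩)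
        rw [mem_filter] at h3
        exact hvX (ind_cap hX h3.2).1
    have c2 : (univ.filter fun u => Cut T (Z ∪ X) u).card <
        (univ.filter fun u => Cut T Z u).card := by
      apply Finset.card_lt_card
      refine ⟨fun y hy => ?_, fun hsub => ?_⟩
      · rw [mem_filter] at hy ⊢
        exact ⟨mem_univ _, (ind_cup hX hy.2).2⟩
      · have h3 := hsub (mem_filter.2 ⟨mem_univ u, hu⟩)
        rw [mem_filter] at h3
        exact (ind_cup hX h3.2).1 huX
    exact h2 X hX Z hZ hne hun (ih _ (c1.trans_le hN) _ hcap le_rfl)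
      (ih _ (c2.trans_le hN) _ hcup le_rfl)

/-- If nothing is cut the set is a union of classes. -/
private theorem ind_sat0 {T : Finset (Finset V)} {Z : Finset V} (h : ∀ u, ¬ Cut T Z u) :
    Sat T Z := by
  intro u v huv hv
  by_contra hu
  exact h v ⟨u, huv, by tauto⟩

/-- If only the class of `v` is cut then the rest is a union of classes. -/
private theorem ind_sat {T : Finset (Finset V)} {Z : Finset V} {v : V}
    (h : ∀ u, Cut T Z u → Sm T u v) : Sat T (Z \ cl T v) := by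
  intro a b hab hb
  rw [mem_sdiff, mem_cl] at hb ⊢
  refine ⟨?_, fun h1 => hb.2 (sm_trans (sm_symm hab) h1)⟩
  by_contra ha
  exact hb.2 (h b ⟨a, hab, by tauto⟩)

private theorem ind_split {M : Type} [AddCommMonoid M] (x : V → M) (Z C : Finset V) :
    ∑ v ∈ Z, x v = ∑ v ∈ Z ∩ C, x v + ∑ v ∈ Z \ C, x v := by
  rw [Finset.sum_inter_add_sum_sdiff]

/-- PROOF. `cut_ind` with `T = Tg K n x`, `P Z = |d(Z)| ≤ x(Z) - n`. If `Z` cuts no class: `Z` is a
union of classes, `d(Z) = 0`. If `Z` cuts only the class of `v`, then `d(Z)` is the sum over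
`Z ∩ cl T v`, at most `1` in absolute value, and `x(Z) ≥ n + 1` because members of `T` cut no class.
Step: `d(Z) = d(Z ∩ X) + d(Z ∪ X)`, `x(Z) + n = x(Z ∩ X) + x(Z ∪ X)`. -/
theorem swap_le {K : Finset (Finset V)} (hK : Cross K) {n : ℤ} {x : V → ℤ} (hx : Fe K n x)
    (d : V → ℤ) (h0 : ∀ v, ∑ u ∈ cl (Tg K n x) v, d u = 0)
    (h1 : ∀ v, ∀ Z : Finset V, |∑ u ∈ Z ∩ cl (Tg K n x) v, d u| ≤ 1) :
    ∀ Z ∈ K, |∑ v ∈ Z, d v| ≤ ∑ v ∈ Z, x v - n := by
  refine cut_ind hK (tg_sub K n x) (fun Z => |∑ v ∈ Z, d v| ≤ ∑ v ∈ Z, x v - n) ?_ ?_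
  · intro Z hZ hall
    have hn := hx.2 Z hZ
    by_cases hc : ∃ v, Cut (Tg K n x) Z v
    · obtain ⟨v, hv⟩ := hc
      have hsat := ind_sat (v := v) (fun u hu => hall u v hu hv)
      rw [ind_split d Z (cl (Tg K n x) v), sum_sat_zero hsat d fun w _ => h0 w, add_zero]
      have h2 : ∑ v ∈ Z, x v ≠ n := by
        intro h3
        obtain ⟨w, hw, hw2⟩ := hv
        exact hw2 (hw Z (mem_tg.2 ⟨hZ, h3⟩))
      have h3 := h1 v Z
      have h4 : n + 1 ≤ ∑ v ∈ Z, x v := by omega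
      linarith
    · push Not at hc
      rw [sum_sat_zero (ind_sat0 hc) d fun w _ => h0 w, abs_zero]
      linarith
  · intro X hX Z _ _ _ p1 p2
    have e1 := sum_cap_cup d Z X
    have e2 := sum_cap_cup x Z X
    have e3 : ∑ v ∈ X, d v = 0 := sum_sat_zero (sat_of_mem hX) d fun w _ => h0 w
    have e4 := (mem_tg.1 hX).2
    have e5 : ∑ v ∈ Z, d v = ∑ v ∈ Z ∩ X, d v + ∑ v ∈ Z ∪ X, d v := by linarith
    change |∑ v ∈ Z, d v| ≤ ∑ v ∈ Z, x v - n
    rw [e5]
    have e6 := abs_add_le (∑ v ∈ Z ∩ X, d v) (∑ v ∈ Z ∪ X, d v)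
    linarith

/-- PROOF. For all `v`, `w` the vectors `F (cl T v)` and `F (cl T w)` have the same class sums
(`cls_zeroZ` for the difference). Hence the patched vector `y` has the same class sums as each
`F (cl T v)`, so `∑ y = 0` and `y(X) = n` for `X ∈ T` (`sum_sat`). Then `cut_ind` with
`P Z = (n ≤ y(Z))`: if `Z` cuts at most the class of `v`, then `y(Z) = F (cl T v) (Z)`: outside of
the class `cl T v` the set `Z` is a union of classes. Step: `y(Z) = y(Z ∩ X) + y(Z ∪ X) - n`. -/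
theorem patch {K T : Finset (Finset V)} (hK : Cross K) (hT : T ⊆ K) (hTc : Cross T) (n : ℤ)
    (F : Finset V → V → ℤ) (hF : ∀ v, Fe K n (F (cl T v)))
    (hF2 : ∀ v, ∀ X ∈ T, ∑ u ∈ X, F (cl T v) u = n) :
    Fe K n (fun v => F (cl T v) v) ∧ ∀ X ∈ T, ∑ u ∈ X, F (cl T u) u = n := by
  have hcls : ∀ w v, ∑ u ∈ cl T v, F (cl T u) u = ∑ u ∈ cl T v, F (cl T w) u := by
    intro w v
    have h1 : ∑ u ∈ cl T v, F (cl T u) u = ∑ u ∈ cl T v, F (cl T v) u :=
      Finset.sum_congr rfl fun u hu => by rw [cl_eq_of_sm (mem_cl.1 hu)]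
    have h2 := cls_zeroZ hTc (fun u => F (cl T v) u - F (cl T w) u)
      (by rw [Finset.sum_sub_distrib, (hF v).1, (hF w).1, sub_zero])
      (fun X hX => by rw [Finset.sum_sub_distrib, hF2 v X hX, hF2 w X hX, sub_self]) v
    rw [Finset.sum_sub_distrib] at h2
    rw [h1]
    linarith
  have hsat : ∀ w, ∀ Y : Finset V, Sat T Y → ∑ u ∈ Y, F (cl T u) u = ∑ u ∈ Y, F (cl T w) u :=
    fun w Y hY => sum_sat hY (fun u => F (cl T u) u) (F (cl T w)) fun v _ => hcls w v
  have hX : ∀ X ∈ T, ∑ u ∈ X, F (cl T u) u = n := by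
    intro X hX
    obtain ⟨w, -⟩ := hTc.ne X hX
    rw [hsat w X (sat_of_mem hX)]
    exact hF2 w X hX
  refine ⟨⟨?_, ?_⟩, hX⟩
  · rcases isEmpty_or_nonempty V with hV | ⟨⟨w⟩⟩
    · exact Finset.sum_eq_zero fun v _ => (hV.false v).elim
    · rw [hsat w univ (sat_univ T)]
      exact (hF w).1
  · refine cut_ind hK hT (fun Z => n ≤ ∑ v ∈ Z, F (cl T v) v) ?_ ?_
    · intro Z hZ hall
      by_cases hc : ∃ v, Cut T Z v
      · obtain ⟨v, hv⟩ := hc
        have h1 := ind_sat (v := v) (fun u hu => hall u v hu hv)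
        rw [ind_split (fun u => F (cl T u) u) Z (cl T v), hsat v _ h1]
        have h2 : ∑ u ∈ Z ∩ cl T v, F (cl T u) u = ∑ u ∈ Z ∩ cl T v, F (cl T v) u :=
          Finset.sum_congr rfl fun u hu => by rw [cl_eq_of_sm (mem_cl.1 (mem_inter.1 hu).2)]
        rw [h2, ← ind_split (F (cl T v)) Z (cl T v)]
        exact (hF v).2 Z hZ
      · push Not at hc
        obtain ⟨w, -⟩ := hK.ne Z hZ
        rw [hsat w Z (ind_sat0 hc)]
        exact (hF w).2 Z hZ
    · intro X hX' Z _ _ _ p1 p2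
      have e1 := sum_cap_cup (fun u => F (cl T u) u) Z X
      have e2 := hX X hX'
      linarith

/-- PROOF. `cut_ind` with `P Z = (Z ∈ Tg K n x → ¬ (u ∈ Z ↔ v ∈ Z) → conclusion)`. If `Z` cuts at
most one class, then this is the class of `v`, and `y(Z) - x(Z) = 0`: the difference vanishes on the
class of `v`, and `Z \ cl T v` is a union of classes, where the class sums of the difference are
zero (`cls_zeroZ`). Step: `Z ∩ X` and `Z ∪ X` are in `Tg K n x` (`tg_cap_cup`), and if `u, v ∈ X`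
then `Z ∩ X` separates `u` and `v`, otherwise `Z ∪ X` does. -/
theorem loc {K T : Finset (Finset V)} (hK : Cross K) (hTc : Cross T) {n : ℤ} {x y : V → ℤ}
    (hx : Fe K n x) (hy : Fe K n y) (hTx : T ⊆ Tg K n x) (hTy : T ⊆ Tg K n y) {u v : V}
    (huv : Sm T u v) (hxy : ∀ w, Sm T w v → x w = y w) {Z : Finset V} (hZ : Z ∈ Tg K n x)
    (hs : ¬ (u ∈ Z ↔ v ∈ Z)) : ∃ Z' ∈ Tg K n x ∩ Tg K n y, ¬ (u ∈ Z' ↔ v ∈ Z') := by
  have key := cut_ind hK (hTx.trans (tg_sub K n x))
    (fun Z => Z ∈ Tg K n x → ¬ (u ∈ Z ↔ v ∈ Z) →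
      ∃ Z' ∈ Tg K n x ∩ Tg K n y, ¬ (u ∈ Z' ↔ v ∈ Z')) ?_ ?_
  · exact key Z (tg_sub K n x hZ) hZ hs
  · intro Z hZK hall hZt hZs
    have hv : Cut T Z v := ⟨u, huv, hZs⟩
    have h1 := ind_sat (v := v) (fun w hw => hall w v hw hv)
    refine ⟨Z, mem_inter.2 ⟨hZt, mem_tg.2 ⟨hZK, ?_⟩⟩, hZs⟩
    rw [← (mem_tg.1 hZt).2, ind_split y Z (cl T v), ind_split x Z (cl T v)]
    have h2 : ∑ w ∈ Z ∩ cl T v, y w = ∑ w ∈ Z ∩ cl T v, x w :=
      Finset.sum_congr rfl fun w hw => (hxy w (mem_cl.1 (mem_inter.1 hw).2)).symm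
    have h3 : ∑ w ∈ Z \ cl T v, y w = ∑ w ∈ Z \ cl T v, x w := by
      refine sum_sat h1 y x fun w _ => ?_
      have h4 := cls_zeroZ hTc (fun a => y a - x a)
        (by rw [Finset.sum_sub_distrib, hy.1, hx.1, sub_zero])
        (fun X hX => by
          rw [Finset.sum_sub_distrib, (mem_tg.1 (hTy hX)).2, (mem_tg.1 (hTx hX)).2, sub_self]) w
      rw [Finset.sum_sub_distrib] at h4
      linarith
    rw [h2, h3]
  · intro X hX Z hZK hne hun p1 p2 hZt hZs
    obtain ⟨t1, t2⟩ := tg_cap_cup hK hx hZt (hTx hX) hne hun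
    have h1 := huv X hX
    by_cases hvX : v ∈ X
    · refine p1 t1 fun h2 => hZs ?_
      rw [mem_inter, mem_inter] at h2
      tauto
    · refine p2 t2 fun h2 => hZs ?_
      rw [mem_union, mem_union] at h2
      tauto

end Pool.Agent.Dj2
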