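import Pool.Agent.H.MP_3adc02_co.helper68.Pol
import Pool.Agent.H.MP_3adc02_co.helper68.Ind

/-!
# Light vectors and decompositions: definitions, sums, class facts for states
-/

set_option linter.unusedSectionVars false

namespace Pool.Agent.Dj2

open Finset Pool.Agent.Dj

variable {V : Type} [Fintype V] [DecidableEq V]

/-- light vectors: level `2`, at most four odd points in each class of the tight sets -/
def Lt (K : Finset (Finset V)) (h : V → ℤ) : Prop :=
  Fe K 2 h ∧ ∀ v, (cl (Tg K 2 h) v ∩ od h).card ≤ 4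

/-- every vector of level `2 k` with at most `2 m` odd points in each class is a sum of `k` light
vectors -/
def Dk (K : Finset (Finset V)) (k m : ℕ) : Prop :=
  ∀ h : V → ℤ, Fe K (2 * k) h → (∀ v, (cl (Tg K (2 * k) h) v ∩ od h).card ≤ 2 * m) →
    ∃ l : List (V → ℤ), l.length = k ∧ (∀ g ∈ l, Lt K g) ∧ l.sum = h

theorem dk_one (K : Finset (Finset V)) : Dk K 1 2 := by
  intro h h1 h2
  refine ⟨[h], rfl, ?_, by simp⟩
  intro g hg
  rw [List.mem_singleton] at hg
  subst hg
  norm_num at h1 h2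
  exact ⟨h1, h2⟩

theorem fe_add {K : Finset (Finset V)} {n n' : ℤ} {x y : V → ℤ} (hx : Fe K n x)
    (hy : Fe K n' y) : Fe K (n + n') (x + y) := by
  constructor
  · simp only [Pi.add_apply, Finset.sum_add_distrib, hx.1, hy.1, add_zero]
  · intro X hX
    simp only [Pi.add_apply, Finset.sum_add_distrib]
    exact add_le_add (hx.2 X hX) (hy.2 X hX)

theorem fe_list {K : Finset (Finset V)} (l : List (V → ℤ)) (h : ∀ g ∈ l, Fe K 2 g) :
    Fe K (2 * l.length) l.sum := by
  induction l with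
  | nil =>
    refine ⟨by simp, fun X _ => by simp⟩
  | cons g l ih =>
    have h1 := fe_add (h g List.mem_cons_self) (ih fun x hx => h x (List.mem_cons_of_mem _ hx))
    rw [List.sum_cons, List.length_cons]
    have e : (2 * ((l.length + 1 : ℕ) : ℤ)) = 2 + 2 * (l.length : ℤ) := by push_cast; ring
    rw [e]
    exact h1

/-- PROOF. `od (z - x)` is the symmetric difference of `od z` and `od x`. -/
theorem od_symm (z x : V → ℤ) : symmDiff (od x) (od (z - x)) = od z := by
  ext v
  rw [Finset.mem_symmDiff]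
  unfold od
  rw [mem_filter, mem_filter, mem_filter, Pi.sub_apply]
  simp only [mem_univ, true_and]
  omega

/-- PROOF. Let `S = Tg K n x` contain `Tz`, `c = cl Tz v0`. If `v ∈ c` then `cl S v ⊆ c` and
`cl S v ∩ (od x ∩ c) = cl S v ∩ od x`, even by `cls_even`; otherwise it is empty. Here for any
crossing `S` with even sums. -/
theorem even_cap {S : Finset (Finset V)} (hS : Cross S) {x : V → ℤ} (h0 : ∑ v, x v = 0)
    (h : ∀ X ∈ S, (2 : ℤ) ∣ ∑ v ∈ X, x v) {c : Finset V} (hc : Sat S c) (v : V) :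
    2 ∣ (cl S v ∩ (od x ∩ c)).card := by
  by_cases hv : v ∈ c
  · have h1 : cl S v ∩ (od x ∩ c) = cl S v ∩ od x := by
      ext u
      rw [mem_inter, mem_inter, mem_inter]
      exact ⟨fun hu => ⟨hu.1, hu.2.1⟩, fun hu => ⟨hu.1, hu.2, hc.cl_sub hv hu.1⟩⟩
    rw [h1]
    exact cls_even hS x h0 h v
  · have h1 : cl S v ∩ (od x ∩ c) = ∅ := by
      rw [Finset.eq_empty_iff_forall_notMem]
      intro u hu
      rw [mem_inter, mem_inter] at hu
      exact hv ((hc.iff (mem_cl.1 hu.1)).1 hu.2.2)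
    rw [h1]
    simp

/-- PROOF. `loc` in both directions. -/
theorem loc_cl {K T : Finset (Finset V)} (hK : Cross K) (hTc : Cross T) {n : ℤ} {x y : V → ℤ}
    (hx : Fe K n x) (hy : Fe K n y) (hTx : T ⊆ Tg K n x) (hTy : T ⊆ Tg K n y) {v : V}
    (hxy : ∀ w, Sm T w v → x w = y w) : cl (Tg K n x) v = cl (Tg K n y) v := by
  ext u
  rw [mem_cl, mem_cl]
  constructor
  · intro h Z hZ
    by_contra hs
    obtain ⟨Z', hZ', hs'⟩ := loc hK hTc hy hx hTy hTx (sm_mono hTx h)
      (fun w hw => (hxy w hw).symm) hZ hs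
    exact hs' (h Z' (mem_inter.1 hZ').2)
  · intro h Z hZ
    by_contra hs
    obtain ⟨Z', hZ', hs'⟩ := loc hK hTc hx hy hTx hTy (sm_mono hTy h) hxy hZ hs
    exact hs' (h Z' (mem_inter.1 hZ').2)

/-- PROOF. Then `cl S v ∩ od x` is the same for `x` and `y` as well. -/
theorem loc_od {K T : Finset (Finset V)} (hK : Cross K) (hTc : Cross T) {n : ℤ} {x y : V → ℤ}
    (hx : Fe K n x) (hy : Fe K n y) (hTx : T ⊆ Tg K n x) (hTy : T ⊆ Tg K n y) {v : V}
    (hxy : ∀ w, Sm T w v → x w = y w) :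
    cl (Tg K n x) v ∩ od x = cl (Tg K n y) v ∩ od y := by
  rw [← loc_cl hK hTc hx hy hTx hTy hxy]
  ext w
  rw [mem_inter, mem_inter]
  refine and_congr_right fun hw => ?_
  have h1 : x w = y w := hxy w (sm_mono hTx (mem_cl.1 hw))
  unfold od
  rw [mem_filter, mem_filter, h1]

end Pool.Agent.Dj2
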