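import Pool.Agent.H.MP_3adc02_co.helper68.Kl
import Pool.Agent.H.MP_3adc02_co.Main

/-!
# Contracting the classes of the dicuts
-/

set_option linter.unusedSectionVars false

namespace Pool.Agent.Dj2

open Finset Pool.Agent.Dj

variable {V : Type} [Fintype V] [DecidableEq V]

/-- PROOF. Let `V'` be the quotient of `V` by the relation `Sm (dic tail head)` (fintype and decidable
equality by choice), `π` the projection. The members of `dic (π ∘ tail) (π ∘ head)` are exactly the
images of the members of `dic tail head`, and `U = univ.filter (π v ∈ U')` (a member `U` of the latter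
is a union of classes). `ct` is the same. The net degree of a point of `V'` is the sum of the net
degrees of its fibre, so an odd point of `V'` has an odd point in its fibre (surjection from
`od` onto a superset). Separation: if `Sm K' (π u) (π v)` then `Sm K u v`, so `π u = π v`. -/
theorem quo {m : ℕ} (tail head : Fin m → V) :
    ∃ (V' : Type) (_ : Fintype V') (_ : DecidableEq V') (π : V → V'),
      (∀ U ∈ dic tail head, ∃ U' ∈ dic (π ∘ tail) (π ∘ head),
        ∀ J, ct tail head J U = ct (π ∘ tail) (π ∘ head) J U') ∧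
      (∀ U' ∈ dic (π ∘ tail) (π ∘ head), ∃ U ∈ dic tail head,
        ∀ J, ct tail head J U = ct (π ∘ tail) (π ∘ head) J U') ∧
      Sep (dic (π ∘ tail) (π ∘ head)) ∧
      ∀ J, (od (nt (π ∘ tail) (π ∘ head) J)).card ≤ (od (nt tail head J)).card := by
  classical
  let s : Setoid V := ⟨Sm (dic tail head), ⟨sm_refl _, fun h => sm_symm h, fun h h' => sm_trans h h'⟩⟩
  let ft : Fintype (Quotient s) := Fintype.ofFinite _
  let de : DecidableEq (Quotient s) := Classical.decEq _
  let π : V → Quotient s := fun v => Quotient.mk s v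
  have hπ : ∀ u v, π u = π v → Sm (dic tail head) u v := fun u v h => Quotient.exact h
  have hsurj : ∀ q : Quotient s, ∃ v, π v = q := fun q => Quotient.exists_rep q
  have key1 : ∀ U ∈ dic tail head, ∃ U' ∈ dic (π ∘ tail) (π ∘ head), ∀ v, π v ∈ U' ↔ v ∈ U := by
    intro U hU
    have hmem : ∀ v, π v ∈ U.image π ↔ v ∈ U := by
      intro v
      rw [mem_image]
      constructor
      · rintro ⟨u, hu, huv⟩
        exact (hπ u v huv U hU).1 hu
      · exact fun hv => ⟨v, hv, rfl⟩
    obtain ⟨h1, h2, h3⟩ := mem_dic.1 hU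
    refine ⟨U.image π, mem_dic.2 ⟨h1.image π, ?_, ?_⟩, hmem⟩
    · intro h
      apply h2
      rw [eq_univ_iff_forall]
      intro v
      rw [← hmem v, h]
      exact mem_univ _
    · intro e he
      exact (hmem _).2 (h3 e ((hmem _).1 he))
  have key2 : ∀ U' ∈ dic (π ∘ tail) (π ∘ head), ∃ U ∈ dic tail head, ∀ v, π v ∈ U' ↔ v ∈ U := by
    intro U' hU'
    obtain ⟨h1, h2, h3⟩ := mem_dic.1 hU'
    have hmem : ∀ v, π v ∈ U' ↔ v ∈ univ.filter fun v => π v ∈ U' := by
      intro v
      rw [mem_filter]
      exact ⟨fun h => ⟨mem_univ _, h⟩, And.right⟩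
    refine ⟨univ.filter fun v => π v ∈ U', mem_dic.2 ⟨?_, ?_, ?_⟩, hmem⟩
    · obtain ⟨q, hq⟩ := h1
      obtain ⟨v, rfl⟩ := hsurj q
      exact ⟨v, (hmem v).1 hq⟩
    · intro h
      apply h2
      rw [eq_univ_iff_forall]
      intro q
      obtain ⟨v, rfl⟩ := hsurj q
      rw [hmem v, h]
      exact mem_univ _
    · intro e he
      exact (hmem _).1 (h3 e ((hmem _).2 he))
  have hct : ∀ (U : Finset V) (U' : Finset (Quotient s)), (∀ v, π v ∈ U' ↔ v ∈ U) → ∀ J,
      ct tail head J U = ct (π ∘ tail) (π ∘ head) J U' := by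
    intro U U' h J
    unfold ct
    congr 1
    refine Finset.filter_congr fun e _ => ?_
    rw [Function.comp_apply, Function.comp_apply, h, h]
  refine ⟨Quotient s, ft, de, π, ?_, ?_, ?_, ?_⟩
  · intro U hU
    obtain ⟨U', hU', h⟩ := key1 U hU
    exact ⟨U', hU', hct U U' h⟩
  · intro U' hU'
    obtain ⟨U, hU, h⟩ := key2 U' hU'
    exact ⟨U, hU, hct U U' h⟩
  · intro p q hpq
    obtain ⟨u, rfl⟩ := hsurj p
    obtain ⟨v, rfl⟩ := hsurj q
    refine Quotient.sound ?_
    intro U hU
    obtain ⟨U', hU', h⟩ := key1 U hU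
    rw [← h u, ← h v]
    exact hpq U' hU'
  · intro J
    have hsub : od (nt (π ∘ tail) (π ∘ head) J) ⊆ (od (nt tail head J)).image π := by
      intro q hq
      rw [mem_od] at hq
      by_contra hcon
      apply hq
      have hsum : nt (π ∘ tail) (π ∘ head) J q =
          ∑ v ∈ univ.filter (fun v => π v = q), nt tail head J v := by
        unfold nt
        rw [Finset.sum_comm]
        refine Finset.sum_congr rfl fun e _ => ?_
        rw [Finset.sum_sub_distrib, sum_ind_singleton, sum_ind_singleton]
        have hind : ∀ v, ind {q} (π v) = ind (univ.filter (fun v => π v = q)) v := by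
          intro v
          unfold ind
          by_cases hv : π v = q
          · simp [hv]
          · simp [hv]
        rw [Function.comp_apply, Function.comp_apply, hind, hind]
      rw [hsum]
      refine Finset.dvd_sum fun v hv => ?_
      by_contra h
      exact hcon (mem_image.2 ⟨v, mem_od.2 h, (mem_filter.1 hv).2⟩)
    exact (Finset.card_le_card hsub).trans Finset.card_image_le

end Pool.Agent.Dj2
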