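import Pool.Agent.H.MP_3adc02_co.Cls

/-!
# Classes of a family of sets, feasible vectors, tight sets
-/

set_option linter.unusedSectionVars false

namespace Pool.Agent.Dj2

open Finset Pool.Agent.Dj

variable {V : Type} [Fintype V] [DecidableEq V]

/-- the class of `v`: the points which lie in the same members of `T` as `v` -/
def cl (T : Finset (Finset V)) (v : V) : Finset V := univ.filter fun u => Sm T u v

/-- unions of classes -/
def Sat (T : Finset (Finset V)) (Y : Finset V) : Prop := ∀ u v, Sm T u v → v ∈ Y → u ∈ Y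

/-- `x` has sum zero and at least `n` on every member of `K` -/
def Fe (K : Finset (Finset V)) (n : ℤ) (x : V → ℤ) : Prop :=
  ∑ v, x v = 0 ∧ ∀ X ∈ K, n ≤ ∑ v ∈ X, x v

/-- the tight members of `K` -/
def Tg (K : Finset (Finset V)) (n : ℤ) (x : V → ℤ) : Finset (Finset V) :=
  K.filter fun X => ∑ v ∈ X, x v = n

/-- the real vectors with sum zero on `V` and on all members of `S` and `T` -/
def Ke (S T : Finset (Finset V)) (d : V → ℝ) : Prop :=
  ∑ v, d v = 0 ∧ (∀ X ∈ S, ∑ v ∈ X, d v = 0) ∧ ∀ X ∈ T, ∑ v ∈ X, d v = 0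

/-- `K` separates points -/
def Sep (K : Finset (Finset V)) : Prop := ∀ u v, Sm K u v → u = v

theorem mem_cl {T : Finset (Finset V)} {u v : V} : u ∈ cl T v ↔ Sm T u v := by
  unfold cl
  rw [mem_filter]
  exact ⟨And.right, fun h => ⟨mem_univ _, h⟩⟩

omit [Fintype V] in
theorem sm_refl (T : Finset (Finset V)) (v : V) : Sm T v v := fun _ _ => Iff.rfl

omit [Fintype V] in
theorem sm_symm {T : Finset (Finset V)} {u v : V} (h : Sm T u v) : Sm T v u :=
  fun X hX => (h X hX).symm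

omit [Fintype V] in
theorem sm_trans {T : Finset (Finset V)} {u v w : V} (h : Sm T u v) (h' : Sm T v w) : Sm T u w :=
  fun X hX => (h X hX).trans (h' X hX)

omit [Fintype V] in
theorem sm_mono {S T : Finset (Finset V)} (hST : S ⊆ T) {u v : V} (h : Sm T u v) : Sm S u v :=
  fun X hX => h X (hST hX)

theorem self_mem_cl (T : Finset (Finset V)) (v : V) : v ∈ cl T v := mem_cl.2 (sm_refl T v)

theorem cl_eq_of_sm {T : Finset (Finset V)} {u v : V} (h : Sm T u v) : cl T u = cl T v := by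
  ext w
  rw [mem_cl, mem_cl]
  exact ⟨fun h' => sm_trans h' h, fun h' => sm_trans h' (sm_symm h)⟩

theorem cl_eq_iff {T : Finset (Finset V)} {u v : V} : cl T u = cl T v ↔ Sm T u v :=
  ⟨fun h => mem_cl.1 (h ▸ self_mem_cl T u), cl_eq_of_sm⟩

omit [Fintype V] in
theorem sat_of_mem {T : Finset (Finset V)} {X : Finset V} (hX : X ∈ T) : Sat T X :=
  fun _ _ h hv => (h X hX).2 hv

theorem sat_cl (T : Finset (Finset V)) (v : V) : Sat T (cl T v) :=
  fun _ _ h hv => mem_cl.2 (sm_trans h (mem_cl.1 hv))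

theorem sat_univ (T : Finset (Finset V)) : Sat T (univ : Finset V) := fun _ _ _ _ => mem_univ _

omit [Fintype V] in
theorem Sat.inter {T : Finset (Finset V)} {X Y : Finset V} (hX : Sat T X) (hY : Sat T Y) :
    Sat T (X ∩ Y) := fun u v h hv =>
  mem_inter.2 ⟨hX u v h (mem_inter.1 hv).1, hY u v h (mem_inter.1 hv).2⟩

omit [Fintype V] in
theorem Sat.mono {S T : Finset (Finset V)} (hST : S ⊆ T) {Y : Finset V} (hY : Sat S Y) : Sat T Y :=
  fun u v h hv => hY u v (sm_mono hST h) hv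

omit [Fintype V] in
theorem Sat.iff {T : Finset (Finset V)} {Y : Finset V} (hY : Sat T Y) {u v : V} (h : Sm T u v) :
    u ∈ Y ↔ v ∈ Y := ⟨fun hu => hY v u (sm_symm h) hu, fun hv => hY u v h hv⟩

/-- a class meets a union of classes in the empty set or is contained in it -/
theorem Sat.cl_sub {T : Finset (Finset V)} {Y : Finset V} (hY : Sat T Y) {v : V} (hv : v ∈ Y) :
    cl T v ⊆ Y := fun u hu => hY u v (mem_cl.1 hu) hv

theorem Sat.cl_inter {T : Finset (Finset V)} {Y : Finset V} (hY : Sat T Y) {v : V} (hv : v ∉ Y) :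
    cl T v ∩ Y = ∅ := by
  rw [Finset.eq_empty_iff_forall_notMem]
  intro u hu
  exact hv ((hY.iff (mem_cl.1 (mem_inter.1 hu).1)).1 (mem_inter.1 hu).2)

theorem cl_anti {S T : Finset (Finset V)} (hST : S ⊆ T) (v : V) : cl T v ⊆ cl S v :=
  fun _ hu => mem_cl.2 (sm_mono hST (mem_cl.1 hu))

/-- two vectors with the same class sums have the same sum on a union of classes -/
theorem sum_sat {M : Type} [AddCommMonoid M] {T : Finset (Finset V)} {Y : Finset V} (hY : Sat T Y)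
    (x y : V → M) (h : ∀ v ∈ Y, ∑ u ∈ cl T v, x u = ∑ u ∈ cl T v, y u) :
    ∑ v ∈ Y, x v = ∑ v ∈ Y, y v := by
  have hf : ∀ c ∈ Y.image (cl T), ∃ v ∈ Y, c = cl T v ∧ Y.filter (fun u => cl T u = c) = cl T v := by
    intro c hc
    obtain ⟨v, hv, rfl⟩ := mem_image.1 hc
    refine ⟨v, hv, rfl, ?_⟩
    ext u
    rw [mem_filter, cl_eq_iff, mem_cl]
    exact ⟨And.right, fun h' => ⟨hY u v h' hv, h'⟩⟩
  rw [← Finset.sum_fiberwise_of_maps_to (g := cl T) (t := Y.image (cl T))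
    (fun v hv => mem_image_of_mem _ hv) x,
    ← Finset.sum_fiberwise_of_maps_to (g := cl T) (t := Y.image (cl T))
    (fun v hv => mem_image_of_mem _ hv) y]
  refine Finset.sum_congr rfl fun c hc => ?_
  obtain ⟨v, hv, -, h2⟩ := hf c hc
  rw [h2]
  exact h v hv

theorem sum_sat_zero {M : Type} [AddCommMonoid M] {T : Finset (Finset V)} {Y : Finset V}
    (hY : Sat T Y) (x : V → M) (h : ∀ v ∈ Y, ∑ u ∈ cl T v, x u = 0) : ∑ v ∈ Y, x v = 0 := by
  rw [sum_sat hY x (fun _ => 0) (fun v hv => by rw [h v hv, Finset.sum_const_zero]),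
    Finset.sum_const_zero]

theorem sum_cap_cup {M : Type} [AddCommMonoid M] (x : V → M) (X Y : Finset V) :
    ∑ v ∈ X ∩ Y, x v + ∑ v ∈ X ∪ Y, x v = ∑ v ∈ X, x v + ∑ v ∈ Y, x v := by
  rw [add_comm, Finset.sum_union_inter]

theorem mem_tg {K : Finset (Finset V)} {n : ℤ} {x : V → ℤ} {X : Finset V} :
    X ∈ Tg K n x ↔ X ∈ K ∧ ∑ v ∈ X, x v = n := by
  unfold Tg
  rw [mem_filter]

theorem tg_sub (K : Finset (Finset V)) (n : ℤ) (x : V → ℤ) : Tg K n x ⊆ K := filter_subset _ _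

theorem tg_cap_cup {K : Finset (Finset V)} (hK : Cross K) {n : ℤ} {x : V → ℤ} (hx : Fe K n x)
    {X Y : Finset V} (hX : X ∈ Tg K n x) (hY : Y ∈ Tg K n x) (h1 : (X ∩ Y).Nonempty)
    (h2 : X ∪ Y ≠ univ) : X ∩ Y ∈ Tg K n x ∧ X ∪ Y ∈ Tg K n x := by
  obtain ⟨hX1, hX2⟩ := mem_tg.1 hX
  obtain ⟨hY1, hY2⟩ := mem_tg.1 hY
  have e1 := hK.cap X hX1 Y hY1 h1 h2
  have e2 := hK.cup X hX1 Y hY1 h1 h2
  have e3 := hx.2 _ e1
  have e4 := hx.2 _ e2
  have e5 := sum_cap_cup x X Y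
  exact ⟨mem_tg.2 ⟨e1, by linarith⟩, mem_tg.2 ⟨e2, by linarith⟩⟩

theorem cross_tg {K : Finset (Finset V)} (hK : Cross K) {n : ℤ} {x : V → ℤ} (hx : Fe K n x) :
    Cross (Tg K n x) where
  ne := fun X hX => hK.ne X (mem_tg.1 hX).1
  ne' := fun X hX => hK.ne' X (mem_tg.1 hX).1
  cap := fun _ hX _ hY h1 h2 => (tg_cap_cup hK hx hX hY h1 h2).1
  cup := fun _ hX _ hY h1 h2 => (tg_cap_cup hK hx hX hY h1 h2).2

theorem cross_inter {S T : Finset (Finset V)} (hS : Cross S) (hT : Cross T) : Cross (S ∩ T) where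
  ne := fun X hX => hS.ne X (mem_inter.1 hX).1
  ne' := fun X hX => hS.ne' X (mem_inter.1 hX).1
  cap := fun X hX Y hY h1 h2 => mem_inter.2
    ⟨hS.cap X (mem_inter.1 hX).1 Y (mem_inter.1 hY).1 h1 h2,
      hT.cap X (mem_inter.1 hX).2 Y (mem_inter.1 hY).2 h1 h2⟩
  cup := fun X hX Y hY h1 h2 => mem_inter.2
    ⟨hS.cup X (mem_inter.1 hX).1 Y (mem_inter.1 hY).1 h1 h2,
      hT.cup X (mem_inter.1 hX).2 Y (mem_inter.1 hY).2 h1 h2⟩

/-- a vector with sum zero on `V` and on the members of a crossing family has class sums zero -/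
theorem cls_zero {T : Finset (Finset V)} (hT : Cross T) (d : V → ℝ) (h0 : ∑ v, d v = 0)
    (h : ∀ X ∈ T, ∑ v ∈ X, d v = 0) (v : V) : ∑ u ∈ cl T v, d u = 0 := by
  by_contra hne
  have e1 := cls_int hT (fun u => (1 / (2 * ∑ u ∈ cl T v, d u)) * d u)
    (by rw [← Finset.mul_sum, h0, mul_zero])
    (fun X hX => ⟨0, by rw [← Finset.mul_sum, h X hX, mul_zero, Int.cast_zero]⟩) v
  obtain ⟨m, hm⟩ := e1
  rw [← Finset.mul_sum] at hm
  change 1 / (2 * ∑ u ∈ cl T v, d u) * ∑ u ∈ cl T v, d u = m at hm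
  have e2 : (1 : ℝ) / 2 = m := by
    rw [← hm]
    field_simp
  have e3 : (1 : ℝ) = 2 * m := by linarith
  have e4 : (1 : ℤ) = 2 * m := by exact_mod_cast e3
  omega

theorem cls_zeroZ {T : Finset (Finset V)} (hT : Cross T) (d : V → ℤ) (h0 : ∑ v, d v = 0)
    (h : ∀ X ∈ T, ∑ v ∈ X, d v = 0) (v : V) : ∑ u ∈ cl T v, d u = 0 := by
  have e := cls_zero hT (fun u => (d u : ℝ)) (by exact_mod_cast h0)
    (fun X hX => by exact_mod_cast h X hX) v
  exact_mod_cast e

/-- parity: the classes contain an even number of odd points -/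
theorem cls_even {T : Finset (Finset V)} (hT : Cross T) (x : V → ℤ) (h0 : ∑ v, x v = 0)
    (h : ∀ X ∈ T, (2 : ℤ) ∣ ∑ v ∈ X, x v) (v : V) : 2 ∣ (cl T v ∩ od x).card := by
  have e1 := cls_int hT (fun u => (1 / 2 : ℝ) * (x u : ℝ))
    (by
      rw [← Finset.mul_sum]
      have : ∑ v, (x v : ℝ) = 0 := by exact_mod_cast h0
      rw [this, mul_zero])
    (fun X hX => by
      obtain ⟨m, hm⟩ := h X hX
      refine ⟨m, ?_⟩
      rw [← Finset.mul_sum]
      have : ∑ v ∈ X, (x v : ℝ) = 2 * m := by exact_mod_cast hm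
      rw [this]
      ring) v
  obtain ⟨m, hm⟩ := e1
  rw [← Finset.mul_sum] at hm
  change (1 / 2 : ℝ) * ∑ u ∈ cl T v, (x u : ℝ) = m at hm
  have e2 : ∑ u ∈ cl T v, (x u : ℝ) = 2 * m := by linarith
  have e3 : ∑ u ∈ cl T v, x u = 2 * m := by exact_mod_cast e2
  have e4 := sum_par x (cl T v)
  rw [e3] at e4
  omega

/-- the kernel in terms of class sums -/
theorem ke_iff {S T : Finset (Finset V)} (hS : Cross S) (hT : Cross T) (d : V → ℝ) :
    Ke S T d ↔ (∀ v, ∑ u ∈ cl S v, d u = 0) ∧ ∀ v, ∑ u ∈ cl T v, d u = 0 := by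
  constructor
  · rintro ⟨h0, h1, h2⟩
    exact ⟨cls_zero hS d h0 h1, cls_zero hT d h0 h2⟩
  · rintro ⟨h1, h2⟩
    exact ⟨sum_sat_zero (sat_univ S) d fun v _ => h1 v,
      fun X hX => sum_sat_zero (sat_of_mem hX) d fun v _ => h1 v,
      fun X hX => sum_sat_zero (sat_of_mem hX) d fun v _ => h2 v⟩

end Pool.Agent.Dj2
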