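import Mathlib

/-!
# Vertices and edges of a polytope given by finitely many inequalities
-/

namespace Pool.Agent.Dj2

open Finset

variable {E ι : Type} [AddCommGroup E] [Module ℝ E]

/-- the points of the polytope -/
def Pt (E0 : Submodule ℝ E) (I : Finset ι) (l : ι → E →ₗ[ℝ] ℝ) (c : ι → ℝ) (x : E) : Prop :=
  x ∈ E0 ∧ ∀ i ∈ I, c i ≤ l i x

/-- the vertices -/
def Vt (E0 : Submodule ℝ E) (I : Finset ι) (l : ι → E →ₗ[ℝ] ℝ) (c : ι → ℝ) (x : E) : Prop :=
  Pt E0 I l c x ∧ ∀ d ∈ E0, (∀ i ∈ I, l i x = c i → l i d = 0) → d = 0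

/-- the recession cone is trivial -/
def Bd (E0 : Submodule ℝ E) (I : Finset ι) (l : ι → E →ₗ[ℝ] ℝ) : Prop :=
  ∀ d ∈ E0, d ≠ 0 → ∃ i ∈ I, l i d < 0

/-- one step along a direction: the first new tight inequality -/
theorem lp_step {E0 : Submodule ℝ E} {I : Finset ι} {l : ι → E →ₗ[ℝ] ℝ} {c : ι → ℝ} {x d : E}
    (hx : Pt E0 I l c x) (hd : d ∈ E0) (hn : ∃ i ∈ I, l i d < 0)
    (ht : ∀ i ∈ I, l i x = c i → 0 ≤ l i d) :
    ∃ t : ℝ, 0 < t ∧ Pt E0 I l c (x + t • d) ∧ ∃ i ∈ I, l i d < 0 ∧ l i (x + t • d) = c i := by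
  obtain ⟨i0, hi0, hi0'⟩ := hn
  have hne : (I.filter fun i => l i d < 0).Nonempty := ⟨i0, mem_filter.2 ⟨hi0, hi0'⟩⟩
  obtain ⟨j, hj, hmin⟩ := Finset.exists_min_image (I.filter fun i => l i d < 0)
    (fun i => (l i x - c i) / (-l i d)) hne
  obtain ⟨hj1, hj2⟩ := mem_filter.1 hj
  have hlt : ∀ i ∈ I, l i d < 0 → c i < l i x := fun i hi h =>
    lt_of_le_of_ne (hx.2 i hi) fun he => absurd (ht i hi he.symm) (not_le.2 h)
  have hpos : 0 < (l j x - c j) / (-l j d) := div_pos (by linarith [hlt j hj1 hj2]) (by linarith)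
  refine ⟨(l j x - c j) / (-l j d), hpos,
    ⟨E0.add_mem hx.1 (E0.smul_mem _ hd), fun i hi => ?_⟩, j, hj1, hj2, ?_⟩
  · rw [map_add, map_smul, smul_eq_mul]
    rcases lt_or_ge (l i d) 0 with h | h
    · have h1 := hmin i (mem_filter.2 ⟨hi, h⟩)
      rw [le_div_iff₀ (by linarith)] at h1
      linarith
    · have := mul_nonneg hpos.le h
      linarith [hx.2 i hi]
  · rw [map_add, map_smul, smul_eq_mul]
    have h1 : -l j d ≠ 0 := by linarith
    have h2 : (l j x - c j) / (-l j d) * (-l j d) = l j x - c j := div_mul_cancel₀ _ h1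
    linarith

/-- PROOF. Among the points `x` of the polytope take one with the maximal number of tight
inequalities. If it is not a vertex there is `d ≠ 0` in `E0` with `l i d = 0` for the tight `i`, and
`lp_step` gives a point with more tight inequalities. -/
theorem lp_vertex {E0 : Submodule ℝ E} {I : Finset ι} {l : ι → E →ₗ[ℝ] ℝ} {c : ι → ℝ}
    (hb : Bd E0 I l) {x : E} (hx : Pt E0 I l c x) : ∃ q, Vt E0 I l c q := by
  classical
  induction' hn : I.card - (I.filter fun i => l i x = c i).card using Nat.strong_induction_on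
    with n ih generalizing x
  by_cases hv : ∀ d ∈ E0, (∀ i ∈ I, l i x = c i → l i d = 0) → d = 0
  · exact ⟨x, hx, hv⟩
  · push Not at hv
    obtain ⟨d, hd, ht, hd0⟩ := hv
    obtain ⟨t, -, hx', i0, hi0, hneg, htight⟩ :=
      lp_step hx hd (hb d hd hd0) (fun i hi h => (ht i hi h).ge)
    refine ih _ ?_ hx' rfl
    have hlt : (I.filter fun i => l i x = c i).card < (I.filter fun i => l i (x + t • d) = c i).card := by
      apply card_lt_card
      refine ⟨fun i hi => ?_, fun h => ?_⟩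
      · obtain ⟨h1, h2⟩ := mem_filter.1 hi
        refine mem_filter.2 ⟨h1, ?_⟩
        rw [map_add, map_smul, ht i h1 h2, smul_zero, add_zero, h2]
      · have h1 := h (mem_filter.2 ⟨hi0, htight⟩)
        have h2 := ht i0 hi0 (mem_filter.1 h1).2
        rw [h2] at hneg
        exact lt_irrefl _ hneg
    have hle : (I.filter fun i => l i (x + t • d) = c i).card ≤ I.card := card_filter_le _ _
    omega

/-- an extreme direction of the cone of feasible directions at a vertex -/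
theorem lp_dir {E0 : Submodule ℝ E} {I : Finset ι} {l : ι → E →ₗ[ℝ] ℝ} {c : ι → ℝ} {q d : E}
    (hq : Vt E0 I l c q) (ψ : E →ₗ[ℝ] ℝ) (hd : d ∈ E0) (hψ : 0 < ψ d)
    (hp : ∀ i ∈ I, l i q = c i → 0 ≤ l i d) :
    ∃ d' ∈ E0, 0 < ψ d' ∧ (∀ i ∈ I, l i q = c i → 0 ≤ l i d') ∧
      ∀ e ∈ E0, (∀ i ∈ I, l i q = c i → l i d' = 0 → l i e = 0) → ∃ s : ℝ, e = s • d' := by
  classical
  induction' hn : I.card - (I.filter fun i => l i q = c i ∧ l i d = 0).card
    using Nat.strong_induction_on with n ih generalizing d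
  by_cases hv : ∀ e ∈ E0, (∀ i ∈ I, l i q = c i → l i d = 0 → l i e = 0) → ∃ s : ℝ, e = s • d
  · exact ⟨d, hd, hψ, hp, hv⟩
  push Not at hv
  obtain ⟨e, he, hez, hes⟩ := hv
  obtain ⟨e', he'⟩ : ∃ e', e' = e - (ψ e / ψ d) • d := ⟨_, rfl⟩
  have he'0 : e' ≠ 0 := fun h => hes (ψ e / ψ d) (sub_eq_zero.1 (he' ▸ h))
  have he'E : e' ∈ E0 := by rw [he']; exact E0.sub_mem he (E0.smul_mem _ hd)
  have hψe' : ψ e' = 0 := by
    rw [he', map_sub, map_smul, smul_eq_mul, div_mul_cancel₀ _ hψ.ne', sub_self]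
  have hze' : ∀ i ∈ I, l i q = c i → l i d = 0 → l i e' = 0 := by
    intro i hi h1 h2
    rw [he', map_sub, map_smul, h2, smul_zero, sub_zero, hez i hi h1 h2]
  obtain ⟨i1, hi1, hi1t, hi1e⟩ : ∃ i ∈ I, l i q = c i ∧ l i e' ≠ 0 := by
    by_contra hno
    push Not at hno
    exact he'0 (hq.2 e' he'E hno)
  obtain ⟨f, hfE, hψf, hzf, hneg⟩ : ∃ f ∈ E0, ψ f = 0 ∧
      (∀ i ∈ I, l i q = c i → l i d = 0 → l i f = 0) ∧ l i1 f < 0 := by
    rcases lt_or_gt_of_ne hi1e with h | h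
    · exact ⟨e', he'E, hψe', hze', h⟩
    · refine ⟨-e', E0.neg_mem he'E, by rw [map_neg, hψe', neg_zero], ?_, by rw [map_neg]; linarith⟩
      intro i hi h1 h2
      rw [map_neg, hze' i hi h1 h2, neg_zero]
  have hne : (I.filter fun i => l i q = c i ∧ l i f < 0).Nonempty :=
    ⟨i1, mem_filter.2 ⟨hi1, hi1t, hneg⟩⟩
  obtain ⟨j, hj, hmin⟩ := Finset.exists_min_image (I.filter fun i => l i q = c i ∧ l i f < 0)
    (fun i => l i d / (-l i f)) hne
  obtain ⟨hj1, hj2, hj3⟩ := mem_filter.1 hj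
  have hpos : ∀ i ∈ I, l i q = c i → l i f < 0 → 0 < l i d := by
    intro i hi h1 h2
    refine lt_of_le_of_ne (hp i hi h1) fun h => ?_
    have := hzf i hi h1 h.symm
    rw [this] at h2
    exact lt_irrefl _ h2
  obtain ⟨t, htdef⟩ : ∃ t, t = l j d / (-l j f) := ⟨_, rfl⟩
  have ht0 : 0 < t := by
    rw [htdef]
    exact div_pos (hpos j hj1 hj2 hj3) (by linarith)
  have htj : l j (d + t • f) = 0 := by
    rw [map_add, map_smul, smul_eq_mul]
    have h1 : -l j f ≠ 0 := by linarith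
    have h2 : t * (-l j f) = l j d := by rw [htdef]; exact div_mul_cancel₀ _ h1
    linarith
  refine ih _ ?_ (d := d + t • f) (E0.add_mem hd (E0.smul_mem _ hfE)) ?_ ?_ rfl
  · have hlt : (I.filter fun i => l i q = c i ∧ l i d = 0).card <
        (I.filter fun i => l i q = c i ∧ l i (d + t • f) = 0).card := by
      apply card_lt_card
      refine ⟨fun i hi => ?_, fun h => ?_⟩
      · obtain ⟨h1, h2, h3⟩ := mem_filter.1 hi
        refine mem_filter.2 ⟨h1, h2, ?_⟩
        rw [map_add, map_smul, hzf i h1 h2 h3, h3, smul_zero, add_zero]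
      · have h1 := h (mem_filter.2 ⟨hj1, hj2, htj⟩)
        have h2 := hpos j hj1 hj2 hj3
        rw [(mem_filter.1 h1).2.2] at h2
        exact lt_irrefl _ h2
    have hle : (I.filter fun i => l i q = c i ∧ l i (d + t • f) = 0).card ≤ I.card :=
      card_filter_le _ _
    omega
  · rw [map_add, map_smul, hψf, smul_zero, add_zero]
    exact hψ
  · intro i hi h1
    rw [map_add, map_smul, smul_eq_mul]
    rcases lt_or_ge (l i f) 0 with h | h
    · have h2 := hmin i (mem_filter.2 ⟨hi, h1, h⟩)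
      rw [← htdef, le_div_iff₀ (by linarith)] at h2
      linarith
    · have := mul_nonneg ht0.le h
      linarith [hp i hi h1]

/-- PROOF. Let `D` be the set of the `d ∈ E0` with `0 < ψ d` and `0 ≤ l i d` for all `i` tight at `q`;
`x - q ∈ D`. Choose `d ∈ D` with the maximal number of tight `i` with `l i d = 0`. Claim: if `e ∈ E0`
and `l i e = 0` for all tight `i` with `l i d = 0`, then `e` is a multiple of `d`. Otherwise
`e' = e - (ψ e / ψ d) • d ≠ 0` has `ψ e' = 0`; `q` is a vertex, so `l i e' ≠ 0` for some tight `i`, and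
replacing `e'` by `-e'` we may assume `l i e' < 0`; with the smallest `t` such that
`l i (d + t • e') = 0` for some tight `i` with `l i e' < 0`, `d + t • e' ∈ D` has more zeros.
Now `lp_step` for `q` and `d` gives `q1 = q + t • d` and `i0` with `l i0 d < 0` tight at `q1`. -/
theorem lp_edge {E0 : Submodule ℝ E} {I : Finset ι} {l : ι → E →ₗ[ℝ] ℝ} {c : ι → ℝ}
    (hb : Bd E0 I l) {q x : E} (hq : Vt E0 I l c q) (hx : Pt E0 I l c x) (ψ : E →ₗ[ℝ] ℝ)
    (h : ψ q < ψ x) :
    ∃ q1, Vt E0 I l c q1 ∧ ψ q < ψ q1 ∧ ∀ e ∈ E0,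
      (∀ i ∈ I, l i q = c i → l i q1 = c i → l i e = 0) → ∃ s : ℝ, e = s • (q1 - q) := by
  obtain ⟨d, hd, hψ, hp, hext⟩ := lp_dir hq ψ (E0.sub_mem hx.1 hq.1.1)
    (by rw [map_sub]; linarith) (fun i hi h1 => by rw [map_sub, h1]; linarith [hx.2 i hi])
  have hd0 : d ≠ 0 := by
    rintro rfl
    rw [map_zero] at hψ
    exact lt_irrefl _ hψ
  obtain ⟨t, ht0, hq1, i0, hi0, hneg, htight⟩ := lp_step hq.1 hd (hb d hd hd0) hp
  have hkeep : ∀ i ∈ I, l i q = c i → l i d = 0 → l i (q + t • d) = c i := by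
    intro i _ h1 h2
    rw [map_add, map_smul, h2, smul_zero, add_zero, h1]
  refine ⟨q + t • d, ⟨hq1, ?_⟩, ?_, ?_⟩
  · intro e he hez
    obtain ⟨s, rfl⟩ := hext e he fun i hi h1 h2 => hez i hi (hkeep i hi h1 h2)
    have h3 := hez i0 hi0 htight
    rw [map_smul, smul_eq_mul] at h3
    rcases mul_eq_zero.1 h3 with h4 | h4
    · rw [h4, zero_smul]
    · exact absurd h4 hneg.ne
  · rw [map_add, map_smul, smul_eq_mul]
    have := mul_pos ht0 hψ
    linarith
  · intro e he hez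
    obtain ⟨s, rfl⟩ := hext e he fun i hi h1 h2 => hez i hi h1 (hkeep i hi h1 h2)
    refine ⟨s / t, ?_⟩
    rw [add_sub_cancel_left, smul_smul, div_mul_cancel₀ _ ht0.ne']

/-- PROOF. Let `ψ = - ∑ i tight at q2, l i`: for every point `x ≠ q2` of the polytope
`ψ x < ψ q2` (otherwise all `i` tight at `q2` are tight at `x`, and `x - q2` is zero). The vertices are
determined by their sets of tight inequalities, so there are finitely many; let `q` be one with `P q`
and `ψ q` maximal. Then `lp_edge` with `x = q2`. -/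
theorem lp_adj {E0 : Submodule ℝ E} {I : Finset ι} {l : ι → E →ₗ[ℝ] ℝ} {c : ι → ℝ}
    (hb : Bd E0 I l) (P : E → Prop) {q1 q2 : E} (h1 : Vt E0 I l c q1) (h2 : Vt E0 I l c q2)
    (p1 : P q1) (p2 : ¬ P q2) :
    ∃ q q', Vt E0 I l c q ∧ Vt E0 I l c q' ∧ P q ∧ ¬ P q' ∧ ∀ e ∈ E0,
      (∀ i ∈ I, l i q = c i → l i q' = c i → l i e = 0) → ∃ s : ℝ, e = s • (q' - q) := by
  classical
  obtain ⟨ψ, hψ⟩ : ∃ ψ : E →ₗ[ℝ] ℝ, ψ = -∑ i ∈ I.filter (fun i => l i q2 = c i), l i := ⟨_, rfl⟩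
  have hmax : ∀ x, Pt E0 I l c x → x ≠ q2 → ψ x < ψ q2 := by
    intro x hx hne
    have h3 : ∀ i ∈ I.filter (fun i => l i q2 = c i), l i q2 ≤ l i x := by
      intro i hi
      rw [(mem_filter.1 hi).2]
      exact hx.2 i (mem_filter.1 hi).1
    have h4 : ∃ i ∈ I.filter (fun i => l i q2 = c i), l i q2 < l i x := by
      by_contra hno
      push Not at hno
      apply hne
      rw [← sub_eq_zero]
      refine h2.2 (x - q2) (E0.sub_mem hx.1 h2.1.1) fun i hi hit => ?_
      have h5 : i ∈ I.filter (fun i => l i q2 = c i) := mem_filter.2 ⟨hi, hit⟩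
      rw [map_sub, sub_eq_zero]
      exact le_antisymm (hno i h5) (h3 i h5)
    have h6 := Finset.sum_lt_sum h3 h4
    rw [hψ, LinearMap.neg_apply, LinearMap.neg_apply, LinearMap.sum_apply, LinearMap.sum_apply]
    linarith
  have hfin : {q | Vt E0 I l c q ∧ P q}.Finite := by
    refine Set.Finite.of_injOn (f := fun q => I.filter (fun i => l i q = c i))
      (t := (↑(I.powerset) : Set (Finset ι))) ?_ ?_ (Finset.finite_toSet _)
    · intro q _
      exact Finset.mem_coe.2 (mem_powerset.2 (filter_subset _ _))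
    · intro q hq q' hq' heq
      simp only at heq
      rw [← sub_eq_zero]
      refine hq.1.2 (q - q') (E0.sub_mem hq.1.1.1 hq'.1.1.1) fun i hi hit => ?_
      have h5 : i ∈ I.filter (fun i => l i q' = c i) := by
        rw [← heq]
        exact mem_filter.2 ⟨hi, hit⟩
      rw [map_sub, hit, (mem_filter.1 h5).2, sub_self]
  obtain ⟨q, ⟨hq, hPq⟩, hqmax⟩ := Set.exists_max_image _ ψ hfin ⟨q1, h1, p1⟩
  have hne : q ≠ q2 := fun h => p2 (h ▸ hPq)
  obtain ⟨q', hq', hlt, hext⟩ := lp_edge hb hq h2.1 ψ (hmax q hq.1 hne)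
  exact ⟨q, q', hq, hq', hPq, fun h => absurd (hqmax q' ⟨hq', h⟩) (not_le.2 hlt), hext⟩

end Pool.Agent.Dj2
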