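import Pool.Agent.H.MP_3adc02_co.helper68.Dk

/-!
# Pairing the odd points of a light vector
-/

set_option linter.unusedSectionVars false

namespace Pool.Agent.Dj2

open Finset Pool.Agent.Dj

variable {V : Type} [Fintype V] [DecidableEq V]

/-- PROOF. Strong induction on `|O|`. For `v ∈ O` the class of `v` contains another `u ∈ O`; use the
induction hypothesis for `O \ {u, v}` and add the pair `(v, u)`. -/
theorem pairs (T : Finset (Finset V)) (O : Finset V) (h : ∀ v, 2 ∣ (cl T v ∩ O).card) :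
    ∃ I : Finset (V × V), (∀ i ∈ I, Sm T i.1 i.2) ∧
      ∀ v, dg I Prod.fst Prod.snd v = if v ∈ O then 1 else 0 := by
  induction' hn : O.card using Nat.strong_induction_on with n ih generalizing O
  rcases O.eq_empty_or_nonempty with rfl | ⟨v, hv⟩
  · refine ⟨∅, fun i hi => absurd hi (notMem_empty i), fun v => ?_⟩
    rw [if_neg (notMem_empty v)]
    rfl
  have hvc : v ∈ cl T v ∩ O := mem_inter.2 ⟨self_mem_cl T v, hv⟩
  have h2 : 1 < (cl T v ∩ O).card := by
    have h3 : 0 < (cl T v ∩ O).card := card_pos.2 ⟨v, hvc⟩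
    have h4 := h v
    omega
  obtain ⟨u, hu, huv⟩ := exists_mem_ne h2 v
  obtain ⟨huc, huO⟩ := mem_inter.1 hu
  have hsm : Sm T u v := mem_cl.1 huc
  have huE : u ∈ O.erase v := mem_erase.2 ⟨huv, huO⟩
  have hcard : ((O.erase v).erase u).card + 2 = O.card := by
    rw [← card_erase_add_one hv, ← card_erase_add_one huE]
  have hev : ∀ w, 2 ∣ (cl T w ∩ (O.erase v).erase u).card := by
    intro w
    by_cases hw : Sm T v w
    · have hvw : v ∈ cl T w ∩ O := mem_inter.2 ⟨mem_cl.2 hw, hv⟩
      have huw : u ∈ (cl T w ∩ O).erase v :=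
        mem_erase.2 ⟨huv, mem_inter.2 ⟨mem_cl.2 (sm_trans hsm hw), huO⟩⟩
      have e1 : cl T w ∩ (O.erase v).erase u = ((cl T w ∩ O).erase v).erase u := by
        ext t
        simp only [mem_inter, mem_erase]
        tauto
      have e2 := card_erase_add_one hvw
      have e3 := card_erase_add_one huw
      have e4 := h w
      rw [e1]
      omega
    · have e1 : cl T w ∩ (O.erase v).erase u = cl T w ∩ O := by
        ext t
        simp only [mem_inter, mem_erase]
        constructor
        · rintro ⟨h5, -, -, h6⟩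
          exact ⟨h5, h6⟩
        · rintro ⟨h5, h6⟩
          refine ⟨h5, ?_, ?_, h6⟩
          · rintro rfl
            exact hw (sm_trans (sm_symm hsm) (mem_cl.1 h5))
          · rintro rfl
            exact hw (mem_cl.1 h5)
      rw [e1]
      exact h w
  obtain ⟨I, hI1, hI2⟩ := ih _ (by omega) ((O.erase v).erase u) hev rfl
  have hvI : (v, u) ∉ I := by
    intro hmem
    have e1 := hI2 v
    rw [if_neg (fun h5 => (mem_erase.1 (mem_erase.1 h5).2).1 rfl)] at e1
    have e2 : (1 : ℤ) ≤ dg I Prod.fst Prod.snd v := by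
      unfold dg
      refine le_trans ?_ (Finset.single_le_sum (f := fun i : V × V => ind {v} i.1 + ind {v} i.2)
        (fun i _ => add_nonneg (ind_nonneg _ _) (ind_nonneg _ _)) hmem)
      have e3 : ind {v} v = 1 := ind_of_mem (mem_singleton_self v)
      have e4 := ind_nonneg {v} u
      change (1 : ℤ) ≤ ind {v} v + ind {v} u
      linarith
    linarith
  refine ⟨insert (v, u) I, ?_, ?_⟩
  · intro i hi
    rcases mem_insert.1 hi with rfl | hi
    · exact sm_symm hsm
    · exact hI1 i hi
  · intro w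
    have e1 : dg (insert (v, u) I) Prod.fst Prod.snd w =
        (ind {w} v + ind {w} u) + dg I Prod.fst Prod.snd w := by
      unfold dg
      rw [Finset.sum_insert hvI]
    rw [e1, hI2 w]
    unfold ind
    simp only [mem_singleton, mem_erase]
    by_cases hwv : v = w
    · subst hwv
      rw [if_pos rfl, if_neg huv, if_neg (by tauto), if_pos hv]
      norm_num
    · by_cases hwu : u = w
      · subst hwu
        rw [if_neg hwv, if_pos rfl, if_neg (by tauto), if_pos huO]
        norm_num
      · have hwv' : ¬ w = v := fun h5 => hwv h5.symm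
        have hwu' : ¬ w = u := fun h5 => hwu h5.symm
        rw [if_neg hwv, if_neg hwu]
        simp only [ne_eq, hwv', hwu', not_false_eq_true, true_and, zero_add]

/-- PROOF. `pairs` with `T = Tg K 2 h`, `O = od h`, then `cut_ind` with `P Z = (sp Z ≤ h(Z) - 2)`.
If `Z` cuts no class, `sp Z = 0`. If `Z` cuts at most the class `c` of `v`, then
`sp Z = sp (Z ∩ c) = sp (c \ Z)` is at most `|Z ∩ c ∩ od h|` and `|(c \ Z) ∩ od h|` (`sp_le`), so at
most `2`, `h(Z) ≥ 3` as `Z` is not tight, and `sp Z` has the parity of `h(Z)` (`sp_par`).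
Step: every pair is inside or outside of `X ∈ T`, so `sp Z ≤ sp (Z ∩ X) + sp (Z ∪ X)`. -/
theorem light_pair {K : Finset (Finset V)} (hK : Cross K) {h : V → ℤ} (hl : Lt K h) :
    ∃ I : Finset (V × V), (∀ v, (2 : ℤ) ∣ dg I Prod.fst Prod.snd v - h v) ∧
      ∀ Z ∈ K, sp I Prod.fst Prod.snd Z ≤ ∑ v ∈ Z, h v - 2 := by
  have hT := cross_tg hK hl.1
  obtain ⟨I, hI1, hI2⟩ := pairs (Tg K 2 h) (od h) fun v =>
    cls_even hT h hl.1.1 (fun X hX => ⟨1, by rw [(mem_tg.1 hX).2]; norm_num⟩) v
  have hpar : ∀ v, (2 : ℤ) ∣ dg I Prod.fst Prod.snd v - h v := by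
    intro v
    rw [hI2 v]
    by_cases hv : v ∈ od h
    · rw [if_pos hv]
      have h1 := mem_od.1 hv
      omega
    · rw [if_neg hv]
      have h1 : (2 : ℤ) ∣ h v := by
        by_contra h2
        exact hv (mem_od.2 h2)
      omega
  refine ⟨I, hpar, ?_⟩
  have hdg : ∀ Y : Finset V, ∑ v ∈ Y, dg I Prod.fst Prod.snd v = ((Y ∩ od h).card : ℤ) := by
    intro Y
    rw [Finset.sum_congr rfl (fun v _ => hI2 v), Finset.sum_ite_mem, Finset.sum_const,
      nsmul_eq_mul, mul_one]
  refine cut_ind hK (tg_sub K 2 h) (fun Z => sp I Prod.fst Prod.snd Z ≤ ∑ v ∈ Z, h v - 2) ?_ ?_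
  · intro Z hZ hcut
    show sp I Prod.fst Prod.snd Z ≤ ∑ v ∈ Z, h v - 2
    by_cases hex : ∃ u, Cut (Tg K 2 h) Z u
    · obtain ⟨u, hu⟩ := hex
      have hsat := sat_cl (Tg K 2 h) u
      -- a pair separated by `Z` lies in the class of `u`
      have key : ∀ i ∈ I, (i.1 ∈ cl (Tg K 2 h) u ↔ i.2 ∈ cl (Tg K 2 h) u) ∧
          (i.1 ∉ cl (Tg K 2 h) u → (i.1 ∈ Z ↔ i.2 ∈ Z)) := by
        intro i hi
        refine ⟨hsat.iff (hI1 i hi), fun h5 => ?_⟩
        by_contra h6
        apply h5
        apply mem_cl.2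
        refine hcut i.1 u ⟨i.2, sm_symm (hI1 i hi), fun h7 => h6 h7.symm⟩ hu
      have e1 : sp I Prod.fst Prod.snd Z = sp I Prod.fst Prod.snd (Z ∩ cl (Tg K 2 h) u) := by
        unfold sp
        refine Finset.sum_congr rfl fun i hi => ?_
        obtain ⟨k1, k2⟩ := key i hi
        unfold ind
        by_cases hc : i.1 ∈ cl (Tg K 2 h) u
        · have hc2 := k1.1 hc
          simp only [mem_inter, hc, hc2, and_true]
        · have hc2 : i.2 ∉ cl (Tg K 2 h) u := fun h5 => hc (k1.2 h5)
          have h6 := k2 hc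
          simp only [mem_inter, hc, hc2, and_false, if_false, h6]
          simp
      have e2 : sp I Prod.fst Prod.snd Z = sp I Prod.fst Prod.snd (cl (Tg K 2 h) u \ Z) := by
        unfold sp
        refine Finset.sum_congr rfl fun i hi => ?_
        obtain ⟨k1, k2⟩ := key i hi
        unfold ind
        by_cases hc : i.1 ∈ cl (Tg K 2 h) u
        · have hc2 := k1.1 hc
          simp only [mem_sdiff, hc, hc2, true_and]
          by_cases hz1 : i.1 ∈ Z <;> by_cases hz2 : i.2 ∈ Z <;> simp [hz1, hz2]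
        · have hc2 : i.2 ∉ cl (Tg K 2 h) u := fun h5 => hc (k1.2 h5)
          have h6 := k2 hc
          simp only [mem_sdiff, hc, hc2, false_and, if_false, h6]
          simp
      have e3 := sp_le I Prod.fst Prod.snd (Z ∩ cl (Tg K 2 h) u)
      have e4 := sp_le I Prod.fst Prod.snd (cl (Tg K 2 h) u \ Z)
      rw [hdg, ← e1] at e3
      rw [hdg, ← e2] at e4
      have e5 : (Z ∩ cl (Tg K 2 h) u ∩ od h).card + ((cl (Tg K 2 h) u \ Z) ∩ od h).card =
          (cl (Tg K 2 h) u ∩ od h).card := by
        rw [← Finset.card_union_of_disjoint]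
        · congr 1
          ext t
          simp only [mem_union, mem_inter, mem_sdiff]
          tauto
        · rw [Finset.disjoint_left]
          intro t h5 h6
          exact (mem_sdiff.1 (mem_inter.1 h6).1).2 (mem_inter.1 (mem_inter.1 h5).1).1
      have e6 := hl.2 u
      have e7 := sp_par I Prod.fst Prod.snd Z
      have e8 : (2 : ℤ) ∣ ∑ v ∈ Z, (dg I Prod.fst Prod.snd v - h v) :=
        Finset.dvd_sum fun v _ => hpar v
      rw [Finset.sum_sub_distrib] at e8
      have e9 := hl.1.2 Z hZ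
      have e10 : ∑ v ∈ Z, h v ≠ 2 := by
        intro h5
        obtain ⟨w, hw1, hw2⟩ := hu
        exact hw2 (hw1 Z (mem_tg.2 ⟨hZ, h5⟩))
      omega
    · have e1 : sp I Prod.fst Prod.snd Z = 0 := by
        unfold sp
        refine Finset.sum_eq_zero fun i hi => ?_
        have h5 : i.1 ∈ Z ↔ i.2 ∈ Z := by
          by_contra h6
          exact hex ⟨i.1, i.2, sm_symm (hI1 i hi), fun h7 => h6 h7.symm⟩
        unfold ind
        simp only [h5]
        simp
      rw [e1]
      have e9 := hl.1.2 Z hZ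
      linarith
  · intro X hX Z hZ _ _ hP1 hP2
    show sp I Prod.fst Prod.snd Z ≤ ∑ v ∈ Z, h v - 2
    have hP1' : sp I Prod.fst Prod.snd (Z ∩ X) ≤ ∑ v ∈ Z ∩ X, h v - 2 := hP1
    have hP2' : sp I Prod.fst Prod.snd (Z ∪ X) ≤ ∑ v ∈ Z ∪ X, h v - 2 := hP2
    have e1 : sp I Prod.fst Prod.snd Z =
        sp I Prod.fst Prod.snd (Z ∩ X) + sp I Prod.fst Prod.snd (Z ∪ X) := by
      unfold sp
      rw [← Finset.sum_add_distrib]
      refine Finset.sum_congr rfl fun i hi => ?_
      have h5 : i.1 ∈ X ↔ i.2 ∈ X := hI1 i hi X hX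
      unfold ind
      by_cases hx : i.1 ∈ X
      · have hx2 := h5.1 hx
        simp only [mem_inter, mem_union, hx, hx2, and_true, or_true, if_true]
        simp
      · have hx2 : i.2 ∉ X := fun h6 => hx (h5.2 h6)
        simp only [mem_inter, mem_union, hx, hx2, and_false, or_false, if_false]
        simp
    have e2 := sum_cap_cup h Z X
    have e3 := (mem_tg.1 hX).2
    linarith

end Pool.Agent.Dj2
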