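import Pool.Agent.H.MP_3adc02_co.helper68.Rk
import Pool.Agent.H.MP_3adc02_co.helper68.LPa

/-!
# The two-layer polytope: integral vertices, adjacent vertices
-/

set_option linter.unusedSectionVars false

namespace Pool.Agent.Dj2

open Finset Pool.Agent.Dj

variable {V : Type} [Fintype V] [DecidableEq V]

/-- states: `x` has level `n` and `z - x` has level `n'` -/
def St (K : Finset (Finset V)) (n n' : ℤ) (z x : V → ℤ) : Prop := Fe K n x ∧ Fe K n' (z - x)

/-- vertices: states with trivial kernel -/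
def Vx (K : Finset (Finset V)) (n n' : ℤ) (z x : V → ℤ) : Prop :=
  St K n n' z x ∧ ∀ e : V → ℝ, Ke (Tg K n x) (Tg K n' (z - x)) e → e = 0

theorem St.symm {K : Finset (Finset V)} {n n' : ℤ} {z x : V → ℤ} (h : St K n n' z x) :
    St K n' n z (z - x) := ⟨h.2, by rw [sub_sub_cancel]; exact h.1⟩

theorem Vx.symm {K : Finset (Finset V)} {n n' : ℤ} {z x : V → ℤ} (h : Vx K n n' z x) :
    Vx K n' n z (z - x) := by
  refine ⟨h.1.symm, fun e he => h.2 e ?_⟩
  rw [sub_sub_cancel] at he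
  exact ⟨he.1, he.2.2, he.2.1⟩

/-- the sets tight for `z` are tight for both layers -/
theorem St.tight {K : Finset (Finset V)} {n n' : ℤ} {z x : V → ℤ} (h : St K n n' z x) :
    Tg K (n + n') z ⊆ Tg K n x ∧ Tg K (n + n') z ⊆ Tg K n' (z - x) := by
  constructor
  · intro X hX
    obtain ⟨h1, h2⟩ := mem_tg.1 hX
    have h3 := h.1.2 X h1
    have h4 := h.2.2 X h1
    simp only [Pi.sub_apply, Finset.sum_sub_distrib] at h4
    exact mem_tg.2 ⟨h1, by linarith⟩
  · intro X hX
    obtain ⟨h1, h2⟩ := mem_tg.1 hX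
    have h3 := h.1.2 X h1
    have h4 := h.2.2 X h1
    refine mem_tg.2 ⟨h1, ?_⟩
    simp only [Pi.sub_apply, Finset.sum_sub_distrib] at h4 ⊢
    linarith

/-- the sum over a set as a linear form -/
noncomputable def polSum (X : Finset V) : (V → ℝ) →ₗ[ℝ] ℝ :=
  ∑ v ∈ X, (LinearMap.proj v : (V → ℝ) →ₗ[ℝ] ℝ)

omit [Fintype V] [DecidableEq V] in
theorem polSum_apply (X : Finset V) (d : V → ℝ) : polSum X d = ∑ v ∈ X, d v := by
  simp [polSum, LinearMap.sum_apply]

/-- vectors with sum zero -/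
noncomputable def polE0 (V : Type) [Fintype V] : Submodule ℝ (V → ℝ) :=
  LinearMap.ker (polSum (univ : Finset V))

omit [DecidableEq V] in
theorem mem_polE0 {d : V → ℝ} : d ∈ polE0 V ↔ ∑ v, d v = 0 := by
  unfold polE0
  rw [LinearMap.mem_ker, polSum_apply]

noncomputable def polL (i : Finset V × Bool) : (V → ℝ) →ₗ[ℝ] ℝ :=
  if i.2 = true then polSum i.1 else -polSum i.1

noncomputable def polC (n n' : ℤ) (z : V → ℤ) (i : Finset V × Bool) : ℝ :=
  if i.2 = true then (n : ℝ) else (n' : ℝ) - ∑ v ∈ i.1, (z v : ℝ)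

omit [Fintype V] [DecidableEq V] in
theorem polL_true (X : Finset V) (d : V → ℝ) : polL (X, true) d = ∑ v ∈ X, d v := by
  show (if true = true then polSum X else -polSum X) d = _
  rw [if_pos rfl, polSum_apply]

omit [Fintype V] [DecidableEq V] in
theorem polL_false (X : Finset V) (d : V → ℝ) : polL (X, false) d = -∑ v ∈ X, d v := by
  show (if false = true then polSum X else -polSum X) d = _
  rw [if_neg (by decide), LinearMap.neg_apply, polSum_apply]

omit [Fintype V] [DecidableEq V] in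
theorem polC_true (n n' : ℤ) (z : V → ℤ) (X : Finset V) : polC n n' z (X, true) = n := if_pos rfl

omit [Fintype V] [DecidableEq V] in
theorem polC_false (n n' : ℤ) (z : V → ℤ) (X : Finset V) :
    polC n n' z (X, false) = n' - ∑ v ∈ X, (z v : ℝ) := if_neg Bool.false_ne_true

/-- the index set -/
def polI (K : Finset (Finset V)) : Finset (Finset V × Bool) := K ×ˢ (univ : Finset Bool)

omit [Fintype V] in
theorem mem_polI {K : Finset (Finset V)} {X : Finset V} {b : Bool} :
    (X, b) ∈ polI K ↔ X ∈ K := by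
  unfold polI
  rw [mem_product]
  exact ⟨And.left, fun h => ⟨h, mem_univ _⟩⟩

theorem pol_cl_sep {K : Finset (Finset V)} (hs : Sep K) (v : V) : cl K v = {v} := by
  ext u
  rw [mem_cl, mem_singleton]
  exact ⟨fun h => hs u v h, fun h => h ▸ sm_refl K u⟩

theorem pol_bd {K : Finset (Finset V)} (hK : Cross K) (hs : Sep K) :
    Bd (polE0 V) (polI K) (polL (V := V)) := by
  intro d hd hne
  have h0 := mem_polE0.1 hd
  have h1 : ∃ X ∈ K, ∑ v ∈ X, d v ≠ 0 := by
    by_contra hcon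
    push Not at hcon
    apply hne
    funext v
    have h2 := cls_zero hK d h0 hcon v
    rw [pol_cl_sep hs, sum_singleton] at h2
    exact h2
  obtain ⟨X, hX, hX0⟩ := h1
  rcases lt_or_gt_of_ne hX0 with h | h
  · exact ⟨(X, true), mem_polI.2 hX, by rw [polL_true]; exact h⟩
  · exact ⟨(X, false), mem_polI.2 hX, by rw [polL_false]; linarith⟩

/-- the sets on which a real vector takes the minimal value form a crossing family -/
theorem pol_cross {K : Finset (Finset V)} (hK : Cross K) {r : ℝ} {y : V → ℝ}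
    (hy : ∀ X ∈ K, r ≤ ∑ v ∈ X, y v) : Cross (K.filter fun X => ∑ v ∈ X, y v = r) := by
  have key : ∀ X ∈ K.filter (fun X => ∑ v ∈ X, y v = r), ∀ Y ∈ K.filter (fun X => ∑ v ∈ X, y v = r),
      (X ∩ Y).Nonempty → X ∪ Y ≠ univ → X ∩ Y ∈ K.filter (fun X => ∑ v ∈ X, y v = r) ∧
        X ∪ Y ∈ K.filter (fun X => ∑ v ∈ X, y v = r) := by
    intro X hX Y hY h1 h2
    obtain ⟨hX1, hX2⟩ := mem_filter.1 hX
    obtain ⟨hY1, hY2⟩ := mem_filter.1 hY
    have e1 := hK.cap X hX1 Y hY1 h1 h2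
    have e2 := hK.cup X hX1 Y hY1 h1 h2
    have e3 := hy _ e1
    have e4 := hy _ e2
    have e5 := sum_cap_cup y X Y
    exact ⟨mem_filter.2 ⟨e1, by linarith⟩, mem_filter.2 ⟨e2, by linarith⟩⟩
  exact ⟨fun X hX => hK.ne X (mem_filter.1 hX).1, fun X hX => hK.ne' X (mem_filter.1 hX).1,
    fun X hX Y hY h1 h2 => (key X hX Y hY h1 h2).1,
    fun X hX Y hY h1 h2 => (key X hX Y hY h1 h2).2⟩

/-- every class meeting the set of non-integral places meets it twice -/
theorem pol_twice {S : Finset (Finset V)} (hS : Cross S) (x : V → ℝ) (h0 : ∑ v, x v = 0)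
    (hZ : ∀ X ∈ S, ∃ m : ℤ, ∑ v ∈ X, x v = m) (W : Finset V)
    (hW : ∀ v, v ∈ W ↔ ¬ ∃ m : ℤ, x v = m) : 2 * (W.image (cl S)).card ≤ W.card := by
  refine Finset.mul_card_image_le_card W 2 ?_
  intro a ha
  obtain ⟨v, hv, rfl⟩ := mem_image.1 ha
  obtain ⟨u, hu1, hu2, hu3⟩ := cls_other hS x h0 hZ v ((hW v).1 hv)
  have h1 : ({u, v} : Finset V) ⊆ W.filter (fun w => cl S w = cl S v) := by
    intro w hw
    rw [mem_insert, mem_singleton] at hw
    rcases hw with rfl | rfl
    · exact mem_filter.2 ⟨(hW _).2 hu3, cl_eq_of_sm hu2⟩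
    · exact mem_filter.2 ⟨hv, rfl⟩
  have h2 := Finset.card_le_card h1
  rwa [Finset.card_pair hu1] at h2

/-- vertices are integral -/
theorem pol_int {K : Finset (Finset V)} (hK : Cross K) {n n' : ℤ} {z : V → ℤ}
    (hz : ∑ v, z v = 0) {x : V → ℝ} (hx : Vt (polE0 V) (polI K) polL (polC n n' z) x) :
    ∃ q : V → ℤ, (x = fun v => (q v : ℝ)) ∧ Vx K n n' z q := by
  classical
  obtain ⟨⟨hx0, hx1⟩, hx2⟩ := hx
  have h0 := mem_polE0.1 hx0
  have hz' : ∑ v, (z v : ℝ) = 0 := by exact_mod_cast hz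
  have ha : ∀ X ∈ K, (n : ℝ) ≤ ∑ v ∈ X, x v := by
    intro X hX
    have := hx1 (X, true) (mem_polI.2 hX)
    rwa [polL_true, polC_true] at this
  have hb : ∀ X ∈ K, (n' : ℝ) ≤ ∑ v ∈ X, ((z v : ℝ) - x v) := by
    intro X hX
    have := hx1 (X, false) (mem_polI.2 hX)
    rw [polL_false, polC_false] at this
    rw [Finset.sum_sub_distrib]
    linarith
  have hS := pol_cross hK ha
  have hT := pol_cross hK hb
  have hker : ∀ e : V → ℝ, Ke (K.filter fun X => ∑ v ∈ X, x v = n)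
      (K.filter fun X => ∑ v ∈ X, ((z v : ℝ) - x v) = n') e → e = 0 := by
    rintro e ⟨e0, e1, e2⟩
    refine hx2 e (mem_polE0.2 e0) ?_
    rintro ⟨X, b⟩ hX ht
    have hXK := mem_polI.1 hX
    cases b
    · rw [polL_false, polC_false] at ht
      rw [polL_false, e2 X (mem_filter.2 ⟨hXK, by rw [Finset.sum_sub_distrib]; linarith⟩), neg_zero]
    · rw [polL_true, polC_true] at ht
      rw [polL_true, e1 X (mem_filter.2 ⟨hXK, ht⟩)]
  have hint : ∀ v, ∃ m : ℤ, x v = m := by
    by_contra hcon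
    push Not at hcon
    obtain ⟨v0, hv0⟩ := hcon
    let W : Finset V := univ.filter fun v => ¬ ∃ m : ℤ, x v = m
    have hW : ∀ v, v ∈ W ↔ ¬ ∃ m : ℤ, x v = m := fun v => by
      rw [mem_filter]
      exact ⟨And.right, fun h => ⟨mem_univ _, h⟩⟩
    have hWne : W.Nonempty := ⟨v0, (hW v0).2 (by rintro ⟨m, hm⟩; exact hv0 m hm)⟩
    have h1 := rk_cl hS hT hWne (fun e he _ => hker e he)
    have h2 := pol_twice hS x h0 (fun X hX => ⟨n, (mem_filter.1 hX).2⟩) W hW
    have h3 := pol_twice hT x h0 (fun X hX => ⟨∑ v ∈ X, z v - n', by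
      have := (mem_filter.1 hX).2
      rw [Finset.sum_sub_distrib] at this
      push_cast
      linarith⟩) W hW
    omega
  choose q hq using hint
  have hxq : x = fun v => (q v : ℝ) := funext hq
  refine ⟨q, hxq, ⟨⟨?_, ?_⟩, ⟨?_, ?_⟩⟩, ?_⟩
  · simp only [hxq] at h0
    exact_mod_cast h0
  · intro X hX
    have := ha X hX
    simp only [hxq] at this
    exact_mod_cast this
  · simp only [Pi.sub_apply, Finset.sum_sub_distrib, hz]
    simp only [hxq] at h0
    have h1 : ∑ v, q v = 0 := by exact_mod_cast h0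
    rw [h1, sub_zero]
  · intro X hX
    have := hb X hX
    simp only [hxq] at this
    simp only [Pi.sub_apply]
    exact_mod_cast this
  · rintro e ⟨e0, e1, e2⟩
    refine hker e ⟨e0, ?_, ?_⟩
    · intro X hX
      obtain ⟨h1, h2⟩ := mem_filter.1 hX
      refine e1 X (mem_tg.2 ⟨h1, ?_⟩)
      simp only [hxq] at h2
      exact_mod_cast h2
    · intro X hX
      obtain ⟨h1, h2⟩ := mem_filter.1 hX
      refine e2 X (mem_tg.2 ⟨h1, ?_⟩)
      simp only [hxq] at h2
      simp only [Pi.sub_apply]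
      exact_mod_cast h2

/-- the integral vertices are vertices -/
theorem pol_vt {K : Finset (Finset V)} {n n' : ℤ} {z q : V → ℤ} (hq : Vx K n n' z q) :
    Vt (polE0 V) (polI K) polL (polC n n' z) (fun v => (q v : ℝ)) := by
  obtain ⟨⟨⟨h0, h1⟩, ⟨-, h2⟩⟩, h3⟩ := hq
  refine ⟨⟨mem_polE0.2 (by exact_mod_cast h0), ?_⟩, ?_⟩
  · rintro ⟨X, b⟩ hX
    have hXK := mem_polI.1 hX
    cases b
    · rw [polL_false, polC_false]
      have := h2 X hXK
      simp only [Pi.sub_apply, Finset.sum_sub_distrib] at this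
      have h4 : (n' : ℝ) ≤ ∑ v ∈ X, (z v : ℝ) - ∑ v ∈ X, (q v : ℝ) := by exact_mod_cast this
      linarith
    · rw [polL_true, polC_true]
      exact_mod_cast h1 X hXK
  · intro d hd ht
    refine h3 d ⟨mem_polE0.1 hd, ?_, ?_⟩
    · intro X hX
      obtain ⟨h4, h5⟩ := mem_tg.1 hX
      have h6 := ht (X, true) (mem_polI.2 h4) (by rw [polL_true, polC_true]; exact_mod_cast h5)
      rwa [polL_true] at h6
    · intro X hX
      obtain ⟨h4, h5⟩ := mem_tg.1 hX
      have h6 := ht (X, false) (mem_polI.2 h4) (by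
        rw [polL_false, polC_false]
        simp only [Pi.sub_apply, Finset.sum_sub_distrib] at h5
        have h7 : ∑ v ∈ X, (z v : ℝ) - ∑ v ∈ X, (q v : ℝ) = n' := by exact_mod_cast h5
        linarith)
      rw [polL_false] at h6
      linarith

/-- PROOF. Use `LPa` with `E = V → ℝ`, `E0` = vectors with sum zero, index set
`K ×ˢ (univ : Finset Bool)`, `l (X, true) d = d(X)`, `c (X, true) = n`, `l (X, false) d = - d(X)`,
`c (X, false) = n' - z(X)`. `Bd`: if `d ≠ 0` then `d(X) ≠ 0` for some `X ∈ K` (`cls_zero` and `Sep K`).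
A vertex `x` is integral: let `W` be the set of the `v` with `x v` not an integer; if `W ≠ ∅`, `rk`
(in the form of `rk_cl` for the real tight families) gives `|W| + 1 ≤` the number of classes met,
but every class meeting `W` meets it twice (`cls_other`). So vertices of the polytope are the
vectors `fun v => (q v : ℝ)` with `Vx K n n' z q`. The point `(n / (n + n')) • z` lies in the
polytope; apply `lp_vertex`. -/
theorem vx_exists {K : Finset (Finset V)} (hK : Cross K) (hs : Sep K) {n n' : ℤ} (hn : 0 < n)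
    (hn' : 0 < n') {z : V → ℤ} (hz : Fe K (n + n') z) : ∃ q, Vx K n n' z q := by
  have hnR : (0 : ℝ) < n := by exact_mod_cast hn
  have hnR' : (0 : ℝ) < n' := by exact_mod_cast hn'
  have hs' : (0 : ℝ) < n + n' := by linarith
  have hpt : Pt (polE0 V) (polI K) polL (polC n n' z)
      (fun v => (n / (n + n') : ℝ) * (z v : ℝ)) := by
    refine ⟨mem_polE0.2 ?_, ?_⟩
    · rw [← Finset.mul_sum]
      have : ∑ v, (z v : ℝ) = 0 := by exact_mod_cast hz.1
      rw [this, mul_zero]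
    · rintro ⟨X, b⟩ hX
      have hXK := mem_polI.1 hX
      have h1 : ((n : ℝ) + n') ≤ ∑ v ∈ X, (z v : ℝ) := by exact_mod_cast hz.2 X hXK
      cases b
      · rw [polL_false, polC_false, ← Finset.mul_sum]
        have h2 : (n' / (n + n') : ℝ) * (n + n') ≤ (n' / (n + n') : ℝ) * ∑ v ∈ X, (z v : ℝ) :=
          mul_le_mul_of_nonneg_left h1 (div_pos hnR' hs').le
        rw [div_mul_cancel₀ _ hs'.ne'] at h2
        have h3 : (n' / (n + n') : ℝ) = 1 - n / (n + n') := by
          field_simp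
          ring
        rw [h3] at h2
        linarith
      · rw [polL_true, polC_true, ← Finset.mul_sum]
        have h2 : (n / (n + n') : ℝ) * (n + n') ≤ (n / (n + n') : ℝ) * ∑ v ∈ X, (z v : ℝ) :=
          mul_le_mul_of_nonneg_left h1 (div_pos hnR hs').le
        rwa [div_mul_cancel₀ _ hs'.ne'] at h2
  obtain ⟨x, hx⟩ := lp_vertex (pol_bd hK hs) hpt
  obtain ⟨q, -, hq⟩ := pol_int hK hz.1 hx
  exact ⟨q, hq⟩

/-- PROOF. `lp_adj` for the same polytope. -/
theorem vx_adj {K : Finset (Finset V)} (hK : Cross K) (hs : Sep K) {n n' : ℤ} {z : V → ℤ}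
    (hz : ∑ v, z v = 0) (P : (V → ℤ) → Prop) {q1 q2 : V → ℤ} (h1 : Vx K n n' z q1)
    (h2 : Vx K n n' z q2) (p1 : P q1) (p2 : ¬ P q2) :
    ∃ q q', Vx K n n' z q ∧ Vx K n n' z q' ∧ P q ∧ ¬ P q' ∧ ∀ e : V → ℝ,
      Ke (Tg K n q ∩ Tg K n q') (Tg K n' (z - q) ∩ Tg K n' (z - q')) e →
        ∃ s : ℝ, ∀ v, e v = s * (q' v - q v) := by
  have hinj : ∀ a b : V → ℤ, (fun v => (a v : ℝ)) = (fun v => (b v : ℝ)) → a = b := by
    intro a b hab
    funext v
    exact_mod_cast congrFun hab v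
  obtain ⟨x, x', hx, hx', hP, hP', he⟩ := lp_adj (pol_bd hK hs)
    (fun x : V → ℝ => ∃ q : V → ℤ, (x = fun v => (q v : ℝ)) ∧ P q) (pol_vt h1) (pol_vt h2)
    ⟨q1, rfl, p1⟩ (by
      rintro ⟨q, hq, hPq⟩
      rw [← hinj _ _ hq] at hPq
      exact p2 hPq)
  obtain ⟨q, hq, hqV⟩ := pol_int hK hz hx
  obtain ⟨q', hq', hqV'⟩ := pol_int hK hz hx'
  refine ⟨q, q', hqV, hqV', ?_, ?_, ?_⟩
  · obtain ⟨q0, hq0, hP0⟩ := hP
    rwa [hinj q q0 (hq ▸ hq0)]
  · intro hP0
    exact hP' ⟨q', hq', hP0⟩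
  · rintro e ⟨e0, e1, e2⟩
    obtain ⟨s, hse⟩ := he e (mem_polE0.2 e0) (by
      rintro ⟨X, b⟩ hX ht ht'
      have hXK := mem_polI.1 hX
      rw [hq] at ht
      rw [hq'] at ht'
      cases b
      · rw [polL_false, polC_false] at ht ht'
        have a1 : X ∈ Tg K n' (z - q) := mem_tg.2 ⟨hXK, by
          simp only [Pi.sub_apply, Finset.sum_sub_distrib]
          have : ∑ v ∈ X, (z v : ℝ) - ∑ v ∈ X, (q v : ℝ) = n' := by linarith
          exact_mod_cast this⟩
        have a2 : X ∈ Tg K n' (z - q') := mem_tg.2 ⟨hXK, by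
          simp only [Pi.sub_apply, Finset.sum_sub_distrib]
          have : ∑ v ∈ X, (z v : ℝ) - ∑ v ∈ X, (q' v : ℝ) = n' := by linarith
          exact_mod_cast this⟩
        rw [polL_false, e2 X (mem_inter.2 ⟨a1, a2⟩), neg_zero]
      · rw [polL_true, polC_true] at ht ht'
        have a1 : X ∈ Tg K n q := mem_tg.2 ⟨hXK, by exact_mod_cast ht⟩
        have a2 : X ∈ Tg K n q' := mem_tg.2 ⟨hXK, by exact_mod_cast ht'⟩
        rw [polL_true, e1 X (mem_inter.2 ⟨a1, a2⟩)])
    refine ⟨s, fun v => ?_⟩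
    rw [hse, hq, hq']
    rfl

end Pool.Agent.Dj2
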