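import Pool.Agent.H.MP_3adc02_co.helper68.Kl

/-!
# The rank lemma for two partitions, and cycles
-/

set_option linter.unusedSectionVars false

namespace Pool.Agent.Dj2

open Finset Pool.Agent.Dj

variable {V : Type} [Fintype V] [DecidableEq V]

/-- PROOF. Fix `w0 ∈ W`, `b0 = g w0`. The linear map from `W → ℝ` to
`(W.image f → ℝ) × ((W.image g).erase b0 → ℝ)` given by the fibre sums has a nonzero kernel
vector, because the dimension of the target is `|f(W)| + |g(W)| - 1 < |W|`. Extend it by zero; the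
fibre sum over `b0` vanishes too, because the sum over all `a` of the fibre sums of `f` is the
total sum, zero. -/
theorem rk {α β : Type} [DecidableEq α] [DecidableEq β] (f : V → α) (g : V → β) (W : Finset V)
    (hW : W.Nonempty) (h : (W.image f).card + (W.image g).card ≤ W.card) :
    ∃ d : V → ℝ, d ≠ 0 ∧ (∀ v, v ∉ W → d v = 0) ∧
      (∀ a, ∑ v ∈ univ.filter (fun v => f v = a), d v = 0) ∧
      ∀ b, ∑ v ∈ univ.filter (fun v => g v = b), d v = 0 := by
  classical
  obtain ⟨w0, hw0⟩ := hW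
  have hb0 : g w0 ∈ W.image g := mem_image_of_mem g hw0
  let E : (W → ℝ) →ₗ[ℝ] (V → ℝ) := Function.ExtendByZero.linearMap ℝ (Subtype.val : W → V)
  have hE1 : ∀ (x : W → ℝ) (v : W), E x v = x v := fun x v =>
    Function.Injective.extend_apply Subtype.val_injective _ _ _
  have hE2 : ∀ (x : W → ℝ) (v : V), v ∉ W → E x v = 0 := by
    intro x v hv
    refine (Function.extend_apply' _ _ _ ?_).trans rfl
    rintro ⟨⟨w, hw⟩, rfl⟩
    exact hv hw
  let L : (α → (V → ℝ) →ₗ[ℝ] ℝ) := fun a =>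
    ∑ v ∈ univ.filter (fun v => f v = a), (LinearMap.proj v : (V → ℝ) →ₗ[ℝ] ℝ)
  let M : (β → (V → ℝ) →ₗ[ℝ] ℝ) := fun b =>
    ∑ v ∈ univ.filter (fun v => g v = b), (LinearMap.proj v : (V → ℝ) →ₗ[ℝ] ℝ)
  have hL : ∀ a x, L a x = ∑ v ∈ univ.filter (fun v => f v = a), x v := by
    intro a x
    simp [L, LinearMap.sum_apply]
  have hM : ∀ b x, M b x = ∑ v ∈ univ.filter (fun v => g v = b), x v := by
    intro b x
    simp [M, LinearMap.sum_apply]
  let φ : (W → ℝ) →ₗ[ℝ] ((W.image f) → ℝ) × (((W.image g).erase (g w0)) → ℝ) :=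
    (LinearMap.pi fun a : (W.image f) => (L a).comp E).prod
      (LinearMap.pi fun b : ((W.image g).erase (g w0)) => (M b).comp E)
  have hlt : Module.finrank ℝ (((W.image f) → ℝ) × (((W.image g).erase (g w0)) → ℝ)) <
      Module.finrank ℝ (W → ℝ) := by
    rw [Module.finrank_prod, Module.finrank_fintype_fun_eq_card,
      Module.finrank_fintype_fun_eq_card, Module.finrank_fintype_fun_eq_card, Fintype.card_coe,
      Fintype.card_coe, Fintype.card_coe, Finset.card_erase_of_mem hb0]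
    have h1 : 0 < (W.image g).card := Finset.card_pos.2 ⟨_, hb0⟩
    omega
  obtain ⟨x, hx, hx0⟩ := Submodule.exists_mem_ne_zero_of_ne_bot
    (LinearMap.ker_ne_bot_of_finrank_lt (f := φ) hlt)
  rw [LinearMap.mem_ker] at hx
  have hxf : ∀ a ∈ W.image f, ∑ v ∈ univ.filter (fun v => f v = a), E x v = 0 := by
    intro a ha
    rw [← hL]
    exact congrFun (congrArg Prod.fst hx) ⟨a, ha⟩
  have hxg : ∀ b ∈ (W.image g).erase (g w0),
      ∑ v ∈ univ.filter (fun v => g v = b), E x v = 0 := by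
    intro b hb
    rw [← hM]
    exact congrFun (congrArg Prod.snd hx) ⟨b, hb⟩
  -- outside the images
  have hzero : ∀ (s : Finset V), (∀ v ∈ s, v ∉ W) → ∑ v ∈ s, E x v = 0 := fun s hs =>
    Finset.sum_eq_zero fun v hv => hE2 x v (hs v hv)
  have hf : ∀ a, ∑ v ∈ univ.filter (fun v => f v = a), E x v = 0 := by
    intro a
    by_cases ha : a ∈ W.image f
    · exact hxf a ha
    · refine hzero _ fun v hv hvW => ha ?_
      rw [← (mem_filter.1 hv).2]
      exact mem_image_of_mem f hvW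
  have hg' : ∀ b, b ≠ g w0 → ∑ v ∈ univ.filter (fun v => g v = b), E x v = 0 := by
    intro b hb
    by_cases hb' : b ∈ W.image g
    · exact hxg b (mem_erase.2 ⟨hb, hb'⟩)
    · refine hzero _ fun v hv hvW => hb' ?_
      rw [← (mem_filter.1 hv).2]
      exact mem_image_of_mem g hvW
  have htot : ∑ v, E x v = 0 := by
    rw [← Finset.sum_fiberwise_of_maps_to (s := (univ : Finset V)) (t := univ.image f) (g := f)
      (fun v _ => mem_image_of_mem f (mem_univ v)) (fun v => E x v)]
    exact Finset.sum_eq_zero fun a _ => hf a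
  have hg : ∀ b, ∑ v ∈ univ.filter (fun v => g v = b), E x v = 0 := by
    intro b
    by_cases hb : b = g w0
    · rw [← Finset.sum_fiberwise_of_maps_to (s := (univ : Finset V)) (t := univ.image g) (g := g)
        (fun v _ => mem_image_of_mem g (mem_univ v)) (fun v => E x v),
        Finset.sum_eq_single (g w0)] at htot
      · rw [hb]
        exact htot
      · exact fun b' _ hb' => hg' b' hb'
      · intro h1
        exact absurd (mem_image_of_mem g (mem_univ w0)) h1
    · exact hg' b hb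
  refine ⟨E x, ?_, hE2 x, hf, hg⟩
  intro h0
  apply hx0
  ext v
  rw [← hE1 x v, h0]
  rfl

/-- PROOF. Otherwise `rk` with `f = cl S`, `g = cl T`, and `ke_iff`. -/
theorem rk_cl {S T : Finset (Finset V)} (hS : Cross S) (hT : Cross T) {W : Finset V}
    (hW : W.Nonempty) (h : ∀ e, Ke S T e → (∀ v, v ∉ W → e v = 0) → e = 0) :
    W.card + 1 ≤ (W.image (cl S)).card + (W.image (cl T)).card := by
  by_contra hcon
  obtain ⟨d, hd0, hdW, hf, hg⟩ := rk (cl S) (cl T) W hW (by omega)
  apply hd0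
  refine h d ((ke_iff hS hT d).2 ⟨fun v => ?_, fun v => ?_⟩) hdW
  · rw [← hf (cl S v)]
    congr 1
    ext u
    rw [mem_filter, cl_eq_iff, mem_cl]
    exact ⟨fun h' => ⟨mem_univ _, h'⟩, And.right⟩
  · rw [← hg (cl T v)]
    congr 1
    ext u
    rw [mem_filter, cl_eq_iff, mem_cl]
    exact ⟨fun h' => ⟨mem_univ _, h'⟩, And.right⟩

/-- a cycle: an integral kernel vector with values `0, 1, -1`, two nonzero ones in each class met -/
structure Cy (S T : Finset (Finset V)) (d : V → ℤ) : Prop where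
  ne : ∃ v, d v ≠ 0
  val : ∀ v, d v = 0 ∨ d v = 1 ∨ d v = -1
  sS : ∀ v, ∑ u ∈ cl S v, d u = 0
  sT : ∀ v, ∑ u ∈ cl T v, d u = 0
  cS : ∀ v, d v ≠ 0 → ((cl S v).filter fun u => d u ≠ 0).card = 2
  cT : ∀ v, d v ≠ 0 → ((cl T v).filter fun u => d u ≠ 0).card = 2

theorem Cy.symm {S T : Finset (Finset V)} {d : V → ℤ} (h : Cy S T d) : Cy T S d :=
  ⟨h.ne, h.val, h.sT, h.sS, h.cT, h.cS⟩

theorem Cy.neg {S T : Finset (Finset V)} {d : V → ℤ} (h : Cy S T d) : Cy S T (-d) := by
  refine ⟨?_, ?_, ?_, ?_, ?_, ?_⟩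
  · obtain ⟨v, hv⟩ := h.ne
    exact ⟨v, by rwa [Pi.neg_apply, ne_eq, neg_eq_zero]⟩
  · intro v
    rw [Pi.neg_apply]
    rcases h.val v with h1 | h1 | h1 <;> rw [h1] <;> simp
  · intro v
    simp only [Pi.neg_apply, Finset.sum_neg_distrib, h.sS v, neg_zero]
  · intro v
    simp only [Pi.neg_apply, Finset.sum_neg_distrib, h.sT v, neg_zero]
  · intro v hv
    simp only [Pi.neg_apply, ne_eq, neg_eq_zero] at hv ⊢
    exact h.cS v hv
  · intro v hv
    simp only [Pi.neg_apply, ne_eq, neg_eq_zero] at hv ⊢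
    exact h.cT v hv

end Pool.Agent.Dj2
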